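import Pool.Agent.H5DY.Tree

/-!
# Circuits from labelled graphs
-/

set_option autoImplicit false

namespace Pool.Agent.H5DY

open Pool.Agent.H20VP

section

variable {K X T : Type}

/-- restriction of a label -/
def restr {ok : T → Prop} (g : Gate K X T) (h : ∀ s ∈ g.preds, ok s) : Gate K X {t // ok t} :=
  match g, h with
  | .var x, _ => .var x
  | .const c, _ => .const c
  | .add l, h => .add (l.attach.map fun s => ⟨s.1, h s.1 s.2⟩)
  | .mul a b, h => .mul ⟨a, h a (by simp [Gate.preds])⟩ ⟨b, h b (by simp [Gate.preds])⟩

theorem mem_restr {ok : T → Prop} (g : Gate K X T) (h : ∀ s ∈ g.preds, ok s) (t : {t // ok t}) :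
    t ∈ (restr g h).preds ↔ t.1 ∈ g.preds := by
  cases g with
  | var x => simp [restr, Gate.preds]
  | const c => simp [restr, Gate.preds]
  | add l =>
    simp only [restr, Gate.preds, List.mem_map, List.mem_attach, true_and, Subtype.exists]
    constructor
    · rintro ⟨a, ha, h1⟩
      rw [← h1]; exact ha
    · intro h1
      exact ⟨t.1, h1, rfl⟩
  | mul a b =>
    simp only [restr, Gate.preds, List.mem_cons, List.not_mem_nil, or_false]
    rw [Subtype.ext_iff, Subtype.ext_iff]

theorem value_restr [CommSemiring K] {ok : T → Prop} (φ : T → MvPolynomial X K) (g : Gate K X T)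
    (h : ∀ s ∈ g.preds, ok s) : (restr g h).value (fun t : {t // ok t} => φ t.1) = g.value φ := by
  cases g with
  | var x => rfl
  | const c => rfl
  | add l =>
    simp only [restr, Gate.value, List.map_map]
    congr 1
    conv_rhs => rw [← List.attach_map_subtype_val l]
    rw [List.map_map]
    rfl
  | mul a b => rfl

theorem restr_add_length {ok : T → Prop} (g : Gate K X T) (h : ∀ s ∈ g.preds, ok s) (l : List {t // ok t})
    (hl : restr g h = .add l) : ∃ l', g = .add l' ∧ l'.length = l.length := by
  cases g with
  | var x => simp [restr] at hl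
  | const c => simp [restr] at hl
  | add l' =>
    simp only [restr, Gate.add.injEq] at hl
    exact ⟨l', rfl, by rw [← hl, List.length_map, List.length_attach]⟩
  | mul a b => simp [restr] at hl

/-- the nodes below the root -/
def Bel (gate : T → Gate K X T) (root t : T) : Prop :=
  Relation.ReflTransGen (fun a b => a ∈ (gate b).preds) t root

variable (gate : T → Gate K X T) (root : T) (ok : T → Prop) (hroot : ok root)
  (hok : ∀ t, ok t → ∀ s ∈ (gate t).preds, ok s) {R : T → T → Prop} (hR : WellFounded R)
  (hrk : ∀ t, ok t → ∀ s ∈ (gate t).preds, R s t) (hfin : {t | ok t}.Finite)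

include hroot hok in
theorem bel_ok {t : T} (h : Bel gate root t) : ok t := by
  unfold Bel at h
  induction h using Relation.ReflTransGen.head_induction_on with
  | refl => exact hroot
  | head h _ ih => exact hok _ ih _ h

/-- the circuit -/
noncomputable def mkC : Circuit K X where
  N := {t // Bel gate root t}
  fin := (Set.Finite.subset hfin fun _ h => bel_ok gate root ok hroot hok h).fintype
  gate t := restr (gate t.1) fun _ hs => Relation.ReflTransGen.head hs t.2
  out := ⟨root, Relation.ReflTransGen.refl⟩
  acyclic := by
    intro n hn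
    have h1 : ∀ a b : {t // Bel gate root t}, Relation.TransGen
        (fun a b : {t // Bel gate root t} => a ∈ (restr (gate b.1) fun _ hs =>
          Relation.ReflTransGen.head hs b.2).preds) a b → Relation.TransGen R a.1 b.1 := by
      intro a b hab
      induction hab with
      | single h => exact Relation.TransGen.single (hrk _ (bel_ok gate root ok hroot hok (Subtype.prop _)) _
          ((mem_restr _ _ _).1 h))
      | tail _ h ih => exact ih.tail (hrk _ (bel_ok gate root ok hroot hok (Subtype.prop _)) _
          ((mem_restr _ _ _).1 h))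
    exact hR.transGen.irrefl.irrefl _ (h1 n n hn)
  sink := by
    intro n
    constructor
    · intro h
      by_contra hne
      have h1 : n.1 ≠ root := fun h => hne (Subtype.ext h)
      rcases Relation.ReflTransGen.cases_head n.2 with h2 | ⟨c, hc, h2⟩
      · exact h1 h2
      · exact h ⟨c, h2⟩ ((mem_restr _ _ _).2 hc)
    · rintro rfl m hm
      have h1 := (mem_restr _ _ _).1 hm
      have h2 : ∀ a, Bel gate root a → a = root ∨ Relation.TransGen R a root := by
        intro a ha
        have h3 := ha
        unfold Bel at ha
        induction ha using Relation.ReflTransGen.head_induction_on with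
        | refl => exact Or.inl rfl
        | @head a b hab hb ih =>
          have h4 := hrk _ (bel_ok gate root ok hroot hok hb) _ hab
          rcases ih hb with h5 | h5
          · rw [h5] at h4; exact Or.inr (Relation.TransGen.single h4)
          · exact Or.inr (Relation.TransGen.head h4 h5)
      have h3 := hrk _ (bel_ok gate root ok hroot hok m.2) _ h1
      rcases h2 m.1 m.2 with h4 | h4
      · rw [h4] at h3
        exact hR.transGen.irrefl.irrefl _ (Relation.TransGen.single h3)
      · exact hR.transGen.irrefl.irrefl _ (Relation.TransGen.head h3 h4)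

theorem mkC_size (B : Finset T) (hB : ∀ t, ok t → t ∈ B) :
    (mkC gate root ok hroot hok hR hrk hfin).size ≤ B.card := by
  have hfin' : Fintype {t // Bel gate root t} :=
    (Set.Finite.subset hfin fun _ h => bel_ok gate root ok hroot hok h).fintype
  have h1 : (mkC gate root ok hroot hok hR hrk hfin).size = Fintype.card {t // Bel gate root t} := by
    exact @Fintype.card_congr _ _ (mkC gate root ok hroot hok hR hrk hfin).fin hfin' (Equiv.refl _)
  rw [h1, ← Fintype.card_coe B]
  refine Fintype.card_le_of_injective (fun t => ⟨t.1, hB _ (bel_ok gate root ok hroot hok t.2)⟩) ?_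
  intro a b hab
  exact Subtype.ext (by simpa using congrArg Subtype.val hab)

theorem mkC_computes [CommSemiring K] (φ : T → MvPolynomial X K) (hφ : ∀ t, ok t → φ t = (gate t).value φ) :
    (mkC gate root ok hroot hok hR hrk hfin).Computes (φ root) := by
  refine ⟨fun t => φ t.1, fun t => ?_, rfl⟩
  exact (hφ t.1 (bel_ok gate root ok hroot hok t.2)).trans (value_restr φ _ _).symm

theorem mkC_fanInTwo (h2 : ∀ t l, ok t → gate t = .add l → l.length = 2) :
    (mkC gate root ok hroot hok hR hrk hfin).FanInTwo := by
  intro t l hl
  obtain ⟨l', h3, h4⟩ := restr_add_length _ _ l hl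
  exact h4.symm.trans (h2 _ _ (bel_ok gate root ok hroot hok t.2) h3)

end

theorem mkC_typed' {K L T : Type} (gate : T → Gate K (ℕ × L) T) (root : T) (ok : T → Prop) (hroot : ok root)
    (hok : ∀ t, ok t → ∀ s ∈ (gate t).preds, ok s) {R : T → T → Prop} (hR : WellFounded R)
    (hrk : ∀ t, ok t → ∀ s ∈ (gate t).preds, R s t) (hfin : {t | ok t}.Finite) (I : T → Finset ℕ)
    (hI : ∀ t, ok t → (∃ a b, I t = Finset.Ico a b) ∧ Typed I (I t) (gate t)) :
    ∀ t : (mkC gate root ok hroot hok hR hrk hfin).N, (∃ a b, I t.1 = Finset.Ico a b) ∧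
      Typed (fun t : {t // Bel gate root t} => I t.1) (I t.1) ((mkC gate root ok hroot hok hR hrk hfin).gate t) := by
  intro t
  refine ⟨(hI t.1 (bel_ok gate root ok hroot hok t.2)).1, ?_⟩
  have h1 := (hI t.1 (bel_ok gate root ok hroot hok t.2)).2
  show Typed (fun t => I t.1) (I t.1) (restr (gate t.1) fun _ hs => Relation.ReflTransGen.head hs t.2)
  generalize_proofs pf
  revert h1 pf
  cases hg : gate t.1 with
  | var x => intro h1 pf; exact h1
  | const c => intro h1 pf; exact h1
  | add l =>
    intro h1 pf m hm
    exact h1 m.1 ((mem_restr (.add l) pf m).1 hm)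
  | mul a b => intro h1 pf; exact h1

theorem mkC_typed {K L T : Type} (gate : T → Gate K (ℕ × L) T) (root : T) (ok : T → Prop) (hroot : ok root)
    (hok : ∀ t, ok t → ∀ s ∈ (gate t).preds, ok s) {R : T → T → Prop} (hR : WellFounded R)
    (hrk : ∀ t, ok t → ∀ s ∈ (gate t).preds, R s t) (hfin : {t | ok t}.Finite) (I : T → Finset ℕ)
    (hI : ∀ t, ok t → (∃ a b, I t = Finset.Ico a b) ∧ Typed I (I t) (gate t)) :
    IntervalSML (mkC gate root ok hroot hok hR hrk hfin) :=
  ⟨fun t => I t.1, mkC_typed' gate root ok hroot hok hR hrk hfin I hI⟩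

end Pool.Agent.H5DY
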