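import Pool.Agent.H5DY.Path

/-!
# The copies in the walk
-/

set_option autoImplicit false

namespace Pool.Agent.H5DY

/-- the walk: the walk of level `h`, then a slope down to zero, then zero -/
def vv (h : ℕ) (t : ℕ) : ℤ := if t ≤ len h then J h t else ((len h + om h - t : ℕ) : ℤ)

theorem vv_left {h t : ℕ} (ht : t ≤ len h) : vv h t = J h t := if_pos ht

theorem vv_right {h t : ℕ} (ht : len h ≤ t) : vv h t = ((len h + om h - t : ℕ) : ℤ) := by
  unfold vv
  split_ifs with h1
  · have : t = len h := le_antisymm h1 ht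
    subst this
    rw [J_len]
    congr 1
    omega
  · rfl

/-- `Cp h r s b`: at the position `s` a copy of level `r` with height `b` starts -/
inductive Cp (h : ℕ) : ℕ → ℕ → ℕ → Prop
  | top : Cp h h 0 0
  | sub {r s b : ℕ} (j : Fin 6) (hc : Cp h (r + 1) s b) :
      Cp h r (s + off (len r) (om r) j) (b + slot j * (om r + 6))

theorem off_le (l m : ℕ) (j : Fin 6) : off l m j + l ≤ 6 * l + 8 * m + 54 := by
  fin_cases j <;> simp only [off] <;> simp <;> omega

theorem len_succ (r : ℕ) : len (r + 1) = 6 * len r + 8 * om r + 54 := rfl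
theorem om_succ (r : ℕ) : om (r + 1) = 6 * om r + 30 := rfl

theorem Cp.le {h r s b : ℕ} (hc : Cp h r s b) : r ≤ h := by
  induction hc with
  | top => exact le_refl _
  | sub j _ ih => omega

theorem Cp.fit {h r s b : ℕ} (hc : Cp h r s b) : s + len r ≤ len h := by
  induction hc with
  | top => simp
  | @sub r s b j _ ih =>
    have := off_le (len r) (om r) j
    rw [len_succ] at ih
    omega

theorem Cp.val {h r s b : ℕ} (hc : Cp h r s b) : ∀ t ≤ len r, vv h (s + t) = b + J r t := by
  induction hc with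
  | top =>
    intro t ht
    rw [zero_add, vv_left ht]; simp
  | @sub r s b j hc ih =>
    intro t ht
    have h1 := off_le (len r) (om r) j
    rw [add_assoc, ih (off (len r) (om r) j + t) (by rw [len_succ]; omega), J_copy r j ht]
    push_cast
    ring

theorem Cp.inv {h r s b : ℕ} (hc : Cp h r s b) : (r = h ∧ s = 0 ∧ b = 0) ∨
    ∃ (S B : ℕ) (j : Fin 6), Cp h (r + 1) S B ∧ s = S + off (len r) (om r) j ∧ b = B + slot j * (om r + 6) := by
  cases hc with
  | top => exact Or.inl ⟨rfl, rfl, rfl⟩
  | @sub r s b j hc => exact Or.inr ⟨s, b, j, hc, rfl, rfl⟩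

theorem Cp.range {h r s b : ℕ} (hc : Cp h r s b) {x : ℕ} (h1 : s ≤ x) (h2 : x ≤ s + len r) :
    (b : ℤ) ≤ vv h x ∧ vv h x ≤ b + om r + 1 := by
  obtain ⟨t, rfl⟩ := Nat.exists_eq_add_of_le h1
  rw [hc.val t (by omega)]
  have := J_range r t (by omega)
  constructor <;> linarith [this.1, this.2]

theorem off_lt (l m : ℕ) {i j : Fin 6} (h : i < j) : off l m i + l ≤ off l m j := by
  fin_cases i <;> fin_cases j <;> simp only [off] <;> first | (exfalso; revert h; decide) | (simp; omega)

theorem slot_ne {i j : Fin 6} (h : i ≠ j) : slot i + 1 ≤ slot j ∨ slot j + 1 ≤ slot i := by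
  revert i j; decide

/-- two copies of the same level are equal, or disjoint and at different heights -/
theorem Cp.sep {h : ℕ} : ∀ k r : ℕ, r + k = h → ∀ {s b s' b' : ℕ}, Cp h r s b → Cp h r s' b' →
    (s = s' ∧ b = b') ∨
      ((s + len r ≤ s' ∨ s' + len r ≤ s) ∧ (b + om r + 6 ≤ b' ∨ b' + om r + 6 ≤ b)) := by
  intro k
  induction k with
  | zero =>
    intro r hr s b s' b' h1 h2
    have hr : r = h := by omega
    subst hr
    rcases h1.inv with ⟨_, rfl, rfl⟩ | ⟨S, B, j, hc, _⟩
    · rcases h2.inv with ⟨_, rfl, rfl⟩ | ⟨S, B, j, hc, _⟩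
      · exact Or.inl ⟨rfl, rfl⟩
      · have := hc.le; omega
    · have := hc.le; omega
  | succ k ih =>
    intro r hr s b s' b' h1 h2
    rcases h1.inv with ⟨_, _, _⟩ | ⟨S, B, j, hc, rfl, rfl⟩
    · omega
    rcases h2.inv with ⟨_, _, _⟩ | ⟨S', B', j', hc', rfl, rfl⟩
    · omega
    have hj := off_le (len r) (om r) j
    have hj' := off_le (len r) (om r) j'
    have hl := len_succ r
    have ho := om_succ r
    have hs : slot j * (om r + 6) ≤ 5 * (om r + 6) := Nat.mul_le_mul_right _ (slot_le j)
    have hs' : slot j' * (om r + 6) ≤ 5 * (om r + 6) := Nat.mul_le_mul_right _ (slot_le j')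
    rcases ih (r + 1) (by omega) hc hc' with ⟨rfl, rfl⟩ | ⟨h3, h4⟩
    · by_cases hjj : j = j'
      · subst hjj
        exact Or.inl ⟨rfl, rfl⟩
      · right
        constructor
        · rcases lt_or_gt_of_ne hjj with h5 | h5
          · left; have := off_lt (len r) (om r) h5; omega
          · right; have := off_lt (len r) (om r) h5; omega
        · rcases slot_ne hjj with h5 | h5
          · left
            have := Nat.mul_le_mul_right (om r + 6) h5
            rw [add_mul] at this
            omega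
          · right
            have := Nat.mul_le_mul_right (om r + 6) h5
            rw [add_mul] at this
            omega
    · right
      constructor
      · rcases h3 with h3 | h3
        · left; omega
        · right; omega
      · rcases h4 with h4 | h4
        · left; omega
        · right; omega

/-- no copy of level `r` between `x` and `y` -/
def NoCp (h r x y : ℕ) : Prop := ∀ s b, Cp h r s b → ¬ (x ≤ s ∧ s + len r ≤ y)

/-- `x` is not an inner point of a copy -/
def Out (h r x : ℕ) : Prop := ∀ s b, Cp h r s b → ¬ (s < x ∧ x < s + len r)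

/-- monotone between `x` and `y` -/
def Mono (v : ℕ → ℤ) (x y : ℕ) : Prop :=
  (∀ i j, x ≤ i → i ≤ j → j ≤ y → v i ≤ v j) ∨ (∀ i j, x ≤ i → i ≤ j → j ≤ y → v j ≤ v i)

theorem mono_self (v : ℕ → ℤ) {x y : ℕ} (h : y ≤ x) : Mono v x y := by
  left
  intro i j hi hij hj
  have : i = j := by omega
  rw [this]

theorem len_pos (r : ℕ) : 2 ≤ len r := by
  induction r with
  | zero => exact le_refl _
  | succ r ih => rw [len_succ]; omega

theorem J_mono (r : ℕ) (j : Fin 5) {i i' : ℕ} (h1 : off (len r) (om r) j.castSucc + len r ≤ i) (h2 : i ≤ i')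
    (h3 : i' ≤ off (len r) (om r) j.succ) :
    if j = 0 ∨ j = 2 ∨ j = 4 then J (r + 1) i ≤ J (r + 1) i' else J (r + 1) i' ≤ J (r + 1) i := by
  have h0 := J_zero r
  have hl := J_len r
  fin_cases j
  · change 0 + len r ≤ i at h1
    change i' ≤ len r + om r + 12 at h3
    obtain ⟨t, rfl⟩ := Nat.exists_eq_add_of_le (show len r ≤ i by omega)
    obtain ⟨t', rfl⟩ := Nat.exists_eq_add_of_le (show len r ≤ i' by omega)
    rw [if_pos (by decide)]
    show six (J r) (len r) (om r) _ ≤ six (J r) (len r) (om r) _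
    rw [six_slope0 hl (by omega), six_slope0 hl (by omega)]
    omega
  · change len r + om r + 12 + len r ≤ i at h1
    change i' ≤ 2 * len r + 3 * om r + 18 at h3
    obtain ⟨t, rfl⟩ := Nat.exists_eq_add_of_le (show 2 * len r + om r + 12 ≤ i by omega)
    obtain ⟨t', rfl⟩ := Nat.exists_eq_add_of_le (show 2 * len r + om r + 12 ≤ i' by omega)
    rw [if_neg (by decide)]
    show six (J r) (len r) (om r) _ ≤ six (J r) (len r) (om r) _
    rw [six_slope1 h0 hl (by omega), six_slope1 h0 hl (by omega)]
    omega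
  · change 2 * len r + 3 * om r + 18 + len r ≤ i at h1
    change i' ≤ 3 * len r + 5 * om r + 36 at h3
    obtain ⟨t, rfl⟩ := Nat.exists_eq_add_of_le (show 3 * len r + 3 * om r + 18 ≤ i by omega)
    obtain ⟨t', rfl⟩ := Nat.exists_eq_add_of_le (show 3 * len r + 3 * om r + 18 ≤ i' by omega)
    rw [if_pos (by decide)]
    show six (J r) (len r) (om r) _ ≤ six (J r) (len r) (om r) _
    rw [six_slope2 h0 hl (by omega), six_slope2 h0 hl (by omega)]
    omega
  · change 3 * len r + 5 * om r + 36 + len r ≤ i at h1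
    change i' ≤ 4 * len r + 7 * om r + 42 at h3
    obtain ⟨t, rfl⟩ := Nat.exists_eq_add_of_le (show 4 * len r + 5 * om r + 36 ≤ i by omega)
    obtain ⟨t', rfl⟩ := Nat.exists_eq_add_of_le (show 4 * len r + 5 * om r + 36 ≤ i' by omega)
    rw [if_neg (by decide)]
    show six (J r) (len r) (om r) _ ≤ six (J r) (len r) (om r) _
    rw [six_slope3 h0 hl (by omega), six_slope3 h0 hl (by omega)]
    omega
  · change 4 * len r + 7 * om r + 42 + len r ≤ i at h1
    change i' ≤ 5 * len r + 8 * om r + 54 at h3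
    obtain ⟨t, rfl⟩ := Nat.exists_eq_add_of_le (show 5 * len r + 7 * om r + 42 ≤ i by omega)
    obtain ⟨t', rfl⟩ := Nat.exists_eq_add_of_le (show 5 * len r + 7 * om r + 42 ≤ i' by omega)
    rw [if_pos (by decide)]
    show six (J r) (len r) (om r) _ ≤ six (J r) (len r) (om r) _
    rw [six_slope4 h0 hl (by omega), six_slope4 h0 hl (by omega)]
    omega

/-- an inner point of the long walk which is not an inner point of a short copy is in a slope -/
theorem slope_of_out {l m t : ℕ} (h1 : 0 < t) (h2 : t < 6 * l + 8 * m + 54)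
    (hout : ∀ j : Fin 6, ¬ (off l m j < t ∧ t < off l m j + l)) :
    ∃ j : Fin 5, off l m j.castSucc + l ≤ t ∧ t ≤ off l m j.succ := by
  have e0 := hout 0
  have e1 := hout 1
  have e2 := hout 2
  have e3 := hout 3
  have e4 := hout 4
  have e5 := hout 5
  change ¬ (0 < t ∧ t < 0 + l) at e0
  change ¬ (l + m + 12 < t ∧ t < l + m + 12 + l) at e1
  change ¬ (2 * l + 3 * m + 18 < t ∧ t < 2 * l + 3 * m + 18 + l) at e2
  change ¬ (3 * l + 5 * m + 36 < t ∧ t < 3 * l + 5 * m + 36 + l) at e3
  change ¬ (4 * l + 7 * m + 42 < t ∧ t < 4 * l + 7 * m + 42 + l) at e4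
  change ¬ (5 * l + 8 * m + 54 < t ∧ t < 5 * l + 8 * m + 54 + l) at e5
  by_cases c0 : t ≤ l + m + 12
  · refine ⟨0, ?_, ?_⟩
    · show 0 + l ≤ t; omega
    · show t ≤ l + m + 12; omega
  by_cases c1 : t ≤ 2 * l + 3 * m + 18
  · refine ⟨1, ?_, ?_⟩
    · show l + m + 12 + l ≤ t; omega
    · show t ≤ 2 * l + 3 * m + 18; omega
  by_cases c2 : t ≤ 3 * l + 5 * m + 36
  · refine ⟨2, ?_, ?_⟩
    · show 2 * l + 3 * m + 18 + l ≤ t; omega
    · show t ≤ 3 * l + 5 * m + 36; omega
  by_cases c3 : t ≤ 4 * l + 7 * m + 42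
  · refine ⟨3, ?_, ?_⟩
    · show 3 * l + 5 * m + 36 + l ≤ t; omega
    · show t ≤ 4 * l + 7 * m + 42; omega
  by_cases c4 : t ≤ 5 * l + 8 * m + 54
  · refine ⟨4, ?_, ?_⟩
    · show 4 * l + 7 * m + 42 + l ≤ t; omega
    · show t ≤ 5 * l + 8 * m + 54; omega
  · omega

theorem mono_of {h : ℕ} : ∀ k r : ℕ, r + k = h → ∀ {x y : ℕ}, x ≤ y → NoCp h r x y → Out h r x → Out h r y →
    Mono (vv h) x y := by
  intro k
  induction k with
  | zero =>
    intro r hr x y hxy hno hx hy
    have hr : r = h := by omega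
    subst hr
    have h1 := hno 0 0 Cp.top
    have h2 := hx 0 0 Cp.top
    have h3 := hy 0 0 Cp.top
    rw [zero_add] at h1 h2 h3
    by_cases hlen : len r ≤ x
    · right
      intro i j hi hij hj
      rw [vv_right (by omega), vv_right (by omega)]
      have : len r + om r - j ≤ len r + om r - i := by omega
      exact_mod_cast this
    · exact mono_self _ (by omega)
  | succ k ih =>
    intro r hr x y hxy hno hx hy
    have hl := len_succ r
    by_cases hxin : ∃ S B, Cp h (r + 1) S B ∧ S < x ∧ x < S + len (r + 1)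
    · obtain ⟨S, B, hc, h1, h2⟩ := hxin
      obtain ⟨t, rfl⟩ := Nat.exists_eq_add_of_le h1.le
      obtain ⟨j, h3, h4⟩ := slope_of_out (l := len r) (m := om r) (t := t) (by omega) (by omega) (fun j hj => by
        refine hx _ _ (Cp.sub j hc) ?_
        constructor <;> omega)
      have h5 : y ≤ S + off (len r) (om r) j.succ := by
        by_contra hcon
        have h6 := hno _ _ (Cp.sub j.succ hc)
        have h7 := hy _ _ (Cp.sub j.succ hc)
        omega
      have h6 : off (len r) (om r) j.succ + len r ≤ len (r + 1) := off_le _ _ _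
      have key : ∀ i i', S + t ≤ i → i ≤ i' → i' ≤ y →
          if j = 0 ∨ j = 2 ∨ j = 4 then vv h i ≤ vv h i' else vv h i' ≤ vv h i := by
        intro i i' hi hii hi'
        obtain ⟨w, rfl⟩ := Nat.exists_eq_add_of_le (show S ≤ i by omega)
        obtain ⟨w', rfl⟩ := Nat.exists_eq_add_of_le (show S ≤ i' by omega)
        rw [hc.val w (by omega), hc.val w' (by omega)]
        have h8 := J_mono r j (i := w) (i' := w') (by omega) (by omega) (by omega)
        split_ifs at h8 ⊢ with h9
        · linarith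
        · linarith
      by_cases h9 : j = 0 ∨ j = 2 ∨ j = 4
      · left
        intro i i' hi hii hi'
        have := key i i' hi hii hi'
        rwa [if_pos h9] at this
      · right
        intro i i' hi hii hi'
        have := key i i' hi hii hi'
        rwa [if_neg h9] at this
    have h0 : off (len r) (om r) 0 = 0 := rfl
    by_cases hyin : ∃ S B, Cp h (r + 1) S B ∧ S < y ∧ y < S + len (r + 1)
    · exfalso
      obtain ⟨S, B, hc, h1, h2⟩ := hyin
      have h3 : x ≤ S := by
        by_contra hcon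
        exact hxin ⟨S, B, hc, by omega, by omega⟩
      have h4 := hno _ _ (Cp.sub 0 hc)
      have h5 := hy _ _ (Cp.sub 0 hc)
      rw [h0] at h4 h5
      omega
    · refine ih (r + 1) (by omega) hxy ?_ ?_ ?_
      · rintro S B hc ⟨h1, h2⟩
        refine hno _ _ (Cp.sub 0 hc) ?_
        rw [h0]
        omega
      · rintro S B hc ⟨h1, h2⟩
        exact hxin ⟨S, B, hc, h1, h2⟩
      · rintro S B hc ⟨h1, h2⟩
        exact hyin ⟨S, B, hc, h1, h2⟩

end Pool.Agent.H5DY
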