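import Pool.Agent.H5DY.Walk

/-!
# Most random walks are unbalanced on some of many disjoint intervals
-/

set_option autoImplicit false

namespace Pool.Agent.H5DY

open Finset

variable {h lam M : ℕ}

theorem W_same (hP : 0 < lam + M) {ξ ξ' : ℕ → ℕ} {a b : ℕ} (hab : a ≤ b) (hb : b ≤ Q h * (lam + M))
    (heq : ∀ j, a < (j + 1) * (lam + M) → j * (lam + M) < b → ξ j = ξ' j) :
    W h lam M ξ b - W h lam M ξ a = W h lam M ξ' b - W h lam M ξ' a := by
  obtain ⟨k, rfl⟩ := Nat.exists_eq_add_of_le hab
  unfold W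
  rw [Finset.sum_range_add, Finset.sum_range_add]
  have h3 : ∑ i ∈ range k, st h lam M ξ (a + i) = ∑ i ∈ range k, st h lam M ξ' (a + i) := by
    refine Finset.sum_congr rfl fun i hi => ?_
    rw [Finset.mem_range] at hi
    have h4 : a + i < Q h * (lam + M) := by omega
    unfold st
    rw [if_pos h4, if_pos h4]
    have h5 := Nat.div_add_mod' (a + i) (lam + M)
    have h6 := Nat.mod_lt (a + i) hP
    have h7 := heq ((a + i) / (lam + M)) (by rw [add_mul, one_mul]; omega) (by omega)
    rw [h7]
  rw [h3]; ring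

/-- extension by zero -/
def ext {q : ℕ} (x : Fin q → Fin (M + 1)) (j : ℕ) : ℕ := if hj : j < q then (x ⟨j, hj⟩).val else 0

theorem ext_le {q : ℕ} (x : Fin q → Fin (M + 1)) (j : ℕ) : ext x j ≤ M := by
  unfold ext
  split_ifs
  · exact Nat.lt_succ_iff.1 (x _).2
  · exact Nat.zero_le _

theorem ext_update {q : ℕ} (x : Fin q → Fin (M + 1)) {β : ℕ} (hβ : β < q) (r : Fin (M + 1)) (j : ℕ) :
    ext (Function.update x ⟨β, hβ⟩ r) j = if j = β then r.val else ext x j := by
  unfold ext
  by_cases h1 : j < q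
  · rw [dif_pos h1, dif_pos h1]
    by_cases h2 : j = β
    · subst h2; rw [if_pos rfl, Function.update_self]
    · rw [if_neg h2, Function.update_of_ne]
      intro h3; exact h2 (by simpa using congrArg Fin.val h3)
  · rw [dif_neg h1, dif_neg h1]
    rw [if_neg]
    rintro rfl; exact h1 hβ

variable {ι : Type}

/-- the sequences for which all the intervals are balanced -/
noncomputable def bad (h lam M Kb : ℕ) (a b : ι → ℕ) (F : Finset ι) : Finset (Fin (Q h) → Fin (M + 1)) := by
  classical
  exact univ.filter fun x => ∀ t ∈ F, |W h lam M (ext x) (b t) - W h lam M (ext x) (a t)| ≤ Kb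

theorem mem_bad {Kb : ℕ} {a b : ι → ℕ} {F : Finset ι} {x : Fin (Q h) → Fin (M + 1)} :
    x ∈ bad h lam M Kb a b F ↔ ∀ t ∈ F, |W h lam M (ext x) (b t) - W h lam M (ext x) (a t)| ≤ Kb := by
  classical
  unfold bad
  rw [Finset.mem_filter]
  exact ⟨fun h => h.2, fun h => ⟨Finset.mem_univ _, h⟩⟩

theorem card_bad (hP : 0 < lam + M) {Kb : ℕ} {a b β : ι → ℕ} (F : Finset ι)
    (h1 : ∀ t ∈ F, a t ≤ β t * (lam + M)) (h2 : ∀ t ∈ F, (β t + 1) * (lam + M) ≤ b t)
    (h3 : ∀ t ∈ F, b t ≤ Q h * (lam + M)) (h4 : ∀ t ∈ F, ∀ t' ∈ F, t ≠ t' → b t ≤ a t' ∨ b t' ≤ a t) :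
    (bad h lam M Kb a b F).card * (M + 1) ^ F.card ≤ (Kb + 1) ^ F.card * (M + 1) ^ Q h := by
  classical
  induction F using Finset.induction_on with
  | empty =>
    rw [Finset.card_empty, pow_zero, mul_one, pow_zero, one_mul]
    refine (Finset.card_le_univ _).trans ?_
    rw [Fintype.card_fun, Fintype.card_fin, Fintype.card_fin]
  | @insert t F ht ih =>
    have ih' := ih (fun t ht => h1 t (mem_insert_of_mem ht)) (fun t ht => h2 t (mem_insert_of_mem ht))
      (fun t ht => h3 t (mem_insert_of_mem ht))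
      (fun t ht t' ht' => h4 t (mem_insert_of_mem ht) t' (mem_insert_of_mem ht'))
    have e1 := h1 t (mem_insert_self _ _)
    have e2 := h2 t (mem_insert_self _ _)
    have e3 := h3 t (mem_insert_self _ _)
    have hβ : β t < Q h := by
      have h5 : (β t + 1) * (lam + M) ≤ Q h * (lam + M) := e2.trans e3
      have := Nat.le_of_mul_le_mul_right h5 hP
      omega
    -- the injection
    have key : (bad h lam M Kb a b (insert t F)).card * (M + 1) ≤ (bad h lam M Kb a b F).card * (Kb + 1) := by
      have c1 : (bad h lam M Kb a b (insert t F)).card * (M + 1) =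
          ((bad h lam M Kb a b (insert t F)) ×ˢ (univ : Finset (Fin (M + 1)))).card := by
        rw [Finset.card_product, Finset.card_univ, Fintype.card_fin]
      have c2 : (bad h lam M Kb a b F).card * (Kb + 1) =
          ((bad h lam M Kb a b F) ×ˢ (Finset.range (Kb + 1))).card := by
        rw [Finset.card_product, Finset.card_range]
      rw [c1, c2]
      refine Finset.card_le_card_of_injOn (fun p => (Function.update p.1 ⟨β t, hβ⟩ p.2,
        (W h lam M (ext p.1) (b t) - W h lam M (ext p.1) (a t) + Kb).toNat / 2)) ?_ ?_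
      · rintro ⟨x, r⟩ hp
        rw [Finset.mem_coe, Finset.mem_product] at hp ⊢
        have hx := mem_bad.1 hp.1
        refine ⟨mem_bad.2 fun t' ht' => ?_, ?_⟩
        · have hne : t ≠ t' := fun h => ht (h ▸ ht')
          have hx' := hx t' (mem_insert_of_mem ht')
          have f1 := h1 t' (mem_insert_of_mem ht')
          have f2 := h2 t' (mem_insert_of_mem ht')
          have f3 := h3 t' (mem_insert_of_mem ht')
          have hm : β t' * (lam + M) ≤ (β t' + 1) * (lam + M) := Nat.mul_le_mul_right _ (by omega)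
          have hsame := W_same (h := h) hP (ξ := ext (Function.update x ⟨β t, hβ⟩ r)) (ξ' := ext x)
            (a := a t') (b := b t') (by omega) f3 (fun j g1 g2 => by
              rw [ext_update, if_neg]
              rintro rfl
              rcases h4 t (mem_insert_self _ _) t' (mem_insert_of_mem ht') hne with g3 | g3 <;> omega)
          show |W h lam M (ext (Function.update x ⟨β t, hβ⟩ r)) (b t') -
            W h lam M (ext (Function.update x ⟨β t, hβ⟩ r)) (a t')| ≤ Kb
          rw [hsame]
          exact hx'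
        · have hx' : |W h lam M (ext x) (b t) - W h lam M (ext x) (a t)| ≤ Kb := hx t (mem_insert_self _ _)
          rw [abs_le] at hx'
          rw [Finset.mem_range]
          show (W h lam M (ext x) (b t) - W h lam M (ext x) (a t) + Kb).toNat / 2 < Kb + 1
          omega
      · rintro ⟨x, r⟩ hp ⟨x', r'⟩ hp' heq
        rw [Finset.mem_coe, Finset.mem_product] at hp hp'
        have hx := abs_le.1 (mem_bad.1 hp.1 t (mem_insert_self _ _))
        have hx' := abs_le.1 (mem_bad.1 hp'.1 t (mem_insert_self _ _))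
        simp only [Prod.mk.injEq] at heq
        obtain ⟨g1, g2⟩ := heq
        have g3 : r = r' := by
          have := congrFun g1 ⟨β t, hβ⟩
          rwa [Function.update_self, Function.update_self] at this
        have g4 : ∀ j : Fin (Q h), j ≠ ⟨β t, hβ⟩ → x j = x' j := by
          intro j hj
          have := congrFun g1 j
          rwa [Function.update_of_ne hj, Function.update_of_ne hj] at this
        have g5 := W_diff (h := h) hP (ξ := ext x) (ξ' := ext x') (ext_le x) (ext_le x') e1 e2 e3 (fun j hj _ _ => by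
          unfold ext
          split_ifs with hq
          · rw [g4 ⟨j, hq⟩ (fun h => hj (by simpa using congrArg Fin.val h))]
          · rfl)
        have g6 : ext x (β t) = ext x' (β t) := by
          simp only at hx hx'
          omega
        have g7 : x = x' := by
          funext j
          by_cases hj : j = ⟨β t, hβ⟩
          · subst hj
            unfold ext at g6
            rw [dif_pos hβ, dif_pos hβ] at g6
            exact Fin.ext g6
          · exact g4 j hj
        rw [g7, g3]
    rw [Finset.card_insert_of_notMem ht]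
    calc (bad h lam M Kb a b (insert t F)).card * (M + 1) ^ (F.card + 1)
        = (bad h lam M Kb a b (insert t F)).card * (M + 1) * (M + 1) ^ F.card := by ring
      _ ≤ (bad h lam M Kb a b F).card * (Kb + 1) * (M + 1) ^ F.card := Nat.mul_le_mul_right _ key
      _ = (Kb + 1) * ((bad h lam M Kb a b F).card * (M + 1) ^ F.card) := by ring
      _ ≤ (Kb + 1) * ((Kb + 1) ^ F.card * (M + 1) ^ Q h) := Nat.mul_le_mul_left _ ih'
      _ = (Kb + 1) ^ (F.card + 1) * (M + 1) ^ Q h := by ring

/-- the choice of the walk -/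
theorem exists_walk (hP : 0 < lam + M) {Kb k : ℕ} {ν : Type} (S : Finset ν) (F : ν → Finset ι)
    (a b β : ι → ℕ)
    (hF : ∀ g ∈ S, (F g).card = k ∧ (∀ t ∈ F g, a t ≤ β t * (lam + M)) ∧
      (∀ t ∈ F g, (β t + 1) * (lam + M) ≤ b t) ∧ (∀ t ∈ F g, b t ≤ Q h * (lam + M)) ∧
      (∀ t ∈ F g, ∀ t' ∈ F g, t ≠ t' → b t ≤ a t' ∨ b t' ≤ a t))
    (hS : S.card * (Kb + 1) ^ k < (M + 1) ^ k) :
    ∃ ξ : ℕ → ℕ, (∀ j, ξ j ≤ M) ∧ ∀ g ∈ S, ∃ t ∈ F g, (Kb : ℤ) < |W h lam M ξ (b t) - W h lam M ξ (a t)| := by
  classical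
  by_contra hcon
  have h1 : (univ : Finset (Fin (Q h) → Fin (M + 1))) ⊆ S.biUnion fun g => bad h lam M Kb a b (F g) := by
    intro x _
    by_contra hx
    apply hcon
    refine ⟨ext x, ext_le x, fun g hg => ?_⟩
    by_contra h2
    push Not at h2
    exact hx (Finset.mem_biUnion.2 ⟨g, hg, mem_bad.2 h2⟩)
  have h2 := Finset.card_le_card h1
  rw [Finset.card_univ, Fintype.card_fun, Fintype.card_fin, Fintype.card_fin] at h2
  have h3 : (M + 1) ^ Q h * (M + 1) ^ k ≤ S.card * ((Kb + 1) ^ k * (M + 1) ^ Q h) := by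
    calc (M + 1) ^ Q h * (M + 1) ^ k ≤ (∑ g ∈ S, (bad h lam M Kb a b (F g)).card) * (M + 1) ^ k :=
          Nat.mul_le_mul_right _ (h2.trans Finset.card_biUnion_le)
      _ = ∑ g ∈ S, (bad h lam M Kb a b (F g)).card * (M + 1) ^ k := Finset.sum_mul _ _ _
      _ ≤ ∑ g ∈ S, (Kb + 1) ^ k * (M + 1) ^ Q h := by
          refine Finset.sum_le_sum fun g hg => ?_
          obtain ⟨f0, f1, f2, f3, f4⟩ := hF g hg
          have := card_bad (Kb := Kb) hP (F g) f1 f2 f3 f4
          rwa [f0] at this
      _ = S.card * ((Kb + 1) ^ k * (M + 1) ^ Q h) := by rw [Finset.sum_const, smul_eq_mul]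
  have h4 : 0 < (M + 1) ^ Q h := by positivity
  have h5 : S.card * ((Kb + 1) ^ k * (M + 1) ^ Q h) < (M + 1) ^ Q h * (M + 1) ^ k := by
    calc S.card * ((Kb + 1) ^ k * (M + 1) ^ Q h) = (S.card * (Kb + 1) ^ k) * (M + 1) ^ Q h := by ring
      _ < (M + 1) ^ k * (M + 1) ^ Q h := Nat.mul_lt_mul_of_pos_right hS h4
      _ = _ := by ring
  omega

end Pool.Agent.H5DY
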