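import Pool.Agent.H20VP.Defs

/-!
# Interval set-multilinear circuits, circuits of bounded rank, and the Dyck polynomials
-/

set_option autoImplicit false

namespace Pool.Agent.H5DY

open Pool.Agent.H20VP

variable {K L : Type}

/-- The condition for the index sets at a gate. The variables are pairs `(p, l)` of a position `p` and a letter `l`; `s` is
the index set (a set of positions) of the gate and `I m` is the index set of its predecessor `m`: a variable `(p, l)` has
the index set `{p}`, a constant has the index set `∅`, the summands of a sum have the same index set as the sum, and the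
index set of a product is the disjoint union of the index sets of the factors. -/
def Typed {N : Type} (I : N → Finset ℕ) (s : Finset ℕ) : Gate K (ℕ × L) N → Prop
  | .var x => s = {x.1}
  | .const _ => s = ∅
  | .add l => ∀ m ∈ l, I m = s
  | .mul a b => Disjoint (I a) (I b) ∧ s = I a ∪ I b

/-- The circuit is (syntactically) set-multilinear, and all the index sets are intervals. -/
def IntervalSML (C : Circuit K (ℕ × L)) : Prop :=
  ∃ I : C.N → Finset ℕ, ∀ n, (∃ a b, I n = Finset.Ico a b) ∧ Typed I (I n) (C.gate n)

/-- The condition on the multiplication gates: `ρ` does not decrease along the edges, and every multiplication gate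
satisfies the condition of weak skewness, or has an argument with a smaller value of `ρ`, or has an argument whose index
set has at most `T` elements. -/
def Ranked (C : Circuit K (ℕ × L)) (I : C.N → Finset ℕ) (ρ : C.N → ℕ) (T : ℕ) : Prop :=
  (∀ m n, C.Edge m n → ρ m ≤ ρ n) ∧ ∀ g a b, C.gate g = .mul a b →
    C.Cut a b g ∨ C.Cut b a g ∨ ρ a < ρ g ∨ ρ b < ρ g ∨ (I a).card ≤ T ∨ (I b).card ≤ T

/-- The circuit is set-multilinear with index sets which are intervals, and there is a function `ρ` from the nodes to the
natural numbers with `ρ ≤ r` at the output, which satisfies the condition `Ranked`. -/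
def RankedSML (C : Circuit K (ℕ × L)) (T r : ℕ) : Prop :=
  ∃ (I : C.N → Finset ℕ) (ρ : C.N → ℕ), (∀ n, (∃ a b, I n = Finset.Ico a b) ∧ Typed I (I n) (C.gate n)) ∧
    Ranked C I ρ T ∧ ρ C.out ≤ r

/-- The Dyck polynomial of degree `2 m` at the positions `a, a + 1, ..., a + 2 m - 1`: the variable `(p, o, c)` says
that a bracket of the kind `c` stands at the position `p`, and it is an opening bracket if `o = true`. The recursion is
`dyck 0 a = 1` and
`dyck (m + 1) a = ∑_{j ≤ m} (∑_c (a, true, c) * dyck j (a + 1) * (a + 2 j + 1, false, c)) * dyck (m - j) (a + 2 j + 2)`: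
it is the sum of the monomials of all well-formed words with two kinds of brackets at these positions. -/
noncomputable def dyck (K : Type) [CommSemiring K] : ℕ → ℕ → MvPolynomial (ℕ × Bool × Bool) K
  | 0, _ => 1
  | m + 1, a => ∑ j : Fin (m + 1), (∑ c : Bool, MvPolynomial.X (a, true, c) * dyck K j.1 (a + 1) *
      MvPolynomial.X (a + 2 * j.1 + 1, false, c)) * dyck K (m - j.1) (a + 2 * j.1 + 2)
termination_by m => m

end Pool.Agent.H5DY
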