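import Pool.Agent.H5DY.Rank
import Pool.Agent.H5DY.Defs

/-!
# The Dyck polynomials, and their values at the points given by a balanced coloring
-/

set_option autoImplicit false

namespace Pool.Agent.H5DY

open Finset MvPolynomial

section

variable {K : Type} [Field K] (W : ℕ → ℤ) (N : ℕ)

/-- the absolute value increases -/
def opn (p : ℕ) : Bool := decide ((W p).natAbs < (W (p + 1)).natAbs)

open Classical in
/-- the point -/
noncomputable def pnt (K : Type) [Field K] (W : ℕ → ℤ) (N : ℕ) (c : Finset ℕ) (x : ℕ × Bool × Bool) : K :=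
  if x.1 < N ∧ x.2.1 = opn W x.1 ∧ (x.2.2 = true ↔ x.1 ∈ c) then 1 else 0

/-- the value of the Dyck polynomial -/
noncomputable def G (K : Type) [Field K] (W : ℕ → ℤ) (N m a : ℕ) (c : Finset ℕ) : K :=
  eval (pnt K W N c) (dyck K m a)

theorem G_zero (a : ℕ) (c : Finset ℕ) : G K W N 0 a c = 1 := by
  unfold G
  rw [dyck]; simp

open Classical in
theorem G_succ (m a : ℕ) (c : Finset ℕ) : G K W N (m + 1) a c = ∑ j : Fin (m + 1),
    (if a < N ∧ opn W a = true ∧ a + 2 * j.1 + 1 < N ∧ opn W (a + 2 * j.1 + 1) = false ∧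
      (a ∈ c ↔ a + 2 * j.1 + 1 ∈ c) then 1 else 0) * G K W N j.1 (a + 1) c *
      G K W N (m - j.1) (a + 2 * j.1 + 2) c := by
  unfold G
  rw [dyck, map_sum]
  refine Finset.sum_congr rfl fun j _ => ?_
  rw [map_mul]
  congr 1
  rw [map_sum, Fintype.sum_bool]
  simp only [map_mul, eval_X]
  generalize eval (pnt K W N c) (dyck K j.1 (a + 1)) = g
  by_cases h1 : a < N
  · by_cases h2 : opn W a = true
    · by_cases h3 : a + 2 * j.1 + 1 < N
      · by_cases h4 : opn W (a + 2 * j.1 + 1) = false
        · by_cases h5 : a ∈ c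
          · by_cases h6 : a + 2 * j.1 + 1 ∈ c
            · simp [pnt, h1, h2, h3, h4, h5, h6]
            · simp [pnt, h1, h2, h3, h4, h5, h6]
          · by_cases h6 : a + 2 * j.1 + 1 ∈ c
            · simp [pnt, h1, h2, h3, h4, h5, h6]
            · simp [pnt, h1, h2, h3, h4, h5, h6]
        · have h4' : opn W (a + 2 * j.1 + 1) = true := by simpa using h4
          simp [pnt, h4']
      · simp [pnt, h3]
    · have h2' : opn W a = false := by simpa using h2
      simp [pnt, h2']
  · simp [pnt, h1]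

variable {W} (hW : ∀ p, W (p + 1) = W p + 1 ∨ W (p + 1) = W p - 1)

include hW

theorem opn_true {p : ℕ} (h : opn W p = true) : (W (p + 1)).natAbs = (W p).natAbs + 1 := by
  unfold opn at h
  rw [decide_eq_true_eq] at h
  rcases hW p with h1 | h1 <;> omega

theorem opn_false {p : ℕ} (h : opn W p = false) : (W p).natAbs = (W (p + 1)).natAbs + 1 := by
  unfold opn at h
  rw [decide_eq_false_iff_not] at h
  rcases hW p with h1 | h1 <;> omega

variable {N}

theorem G_ne_zero : ∀ (m a : ℕ) (c : Finset ℕ), G K W N m a c ≠ 0 →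
    (W (a + 2 * m)).natAbs = (W a).natAbs ∧ ∀ i, a ≤ i → i ≤ a + 2 * m → (W a).natAbs ≤ (W i).natAbs := by
  classical
  intro m
  induction m using Nat.strong_induction_on with
  | _ m ih =>
    intro a c hG
    rcases m with _ | m
    · refine ⟨rfl, fun i h1 h2 => ?_⟩
      have : i = a := by omega
      rw [this]
    · rw [G_succ] at hG
      obtain ⟨j, _, hj⟩ := Finset.exists_ne_zero_of_sum_ne_zero hG
      have h1 : G K W N j.1 (a + 1) c ≠ 0 := by
        intro h; rw [h] at hj; simp at hj
      have h2 : G K W N (m - j.1) (a + 2 * j.1 + 2) c ≠ 0 := by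
        intro h; rw [h] at hj; simp at hj
      have h3 : a < N ∧ opn W a = true ∧ a + 2 * j.1 + 1 < N ∧ opn W (a + 2 * j.1 + 1) = false ∧
          (a ∈ c ↔ a + 2 * j.1 + 1 ∈ c) := by
        by_contra h; rw [if_neg h] at hj; simp at hj
      have hjm : j.1 < m + 1 := j.2
      obtain ⟨k1, k2⟩ := ih j.1 hjm (a + 1) c h1
      obtain ⟨k3, k4⟩ := ih (m - j.1) (by omega) (a + 2 * j.1 + 2) c h2
      have k5 := opn_true hW h3.2.1
      have k6 := opn_false hW h3.2.2.2.1
      rw [show a + 1 + 2 * j.1 = a + 2 * j.1 + 1 by ring] at k1 k2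
      rw [show a + 2 * j.1 + 1 + 1 = a + 2 * j.1 + 2 by ring] at k6
      rw [show a + 2 * j.1 + 2 + 2 * (m - j.1) = a + 2 * (m + 1) by omega] at k3 k4
      refine ⟨by omega, fun i h4 h5 => ?_⟩
      rcases Nat.lt_or_ge i (a + 1) with h6 | h6
      · have : i = a := by omega
        rw [this]
      rcases Nat.lt_or_ge i (a + 2 * j.1 + 2) with h7 | h7
      · have := k2 i h6 (by omega)
        omega
      · have := k4 i h7 h5
        omega

/-- the interval of the length `2 m` at `a` is a closed excursion -/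
def Exc (W : ℕ → ℤ) (m a : ℕ) : Prop :=
  (W (a + 2 * m)).natAbs = (W a).natAbs ∧ ∀ i, a ≤ i → i ≤ a + 2 * m → (W a).natAbs ≤ (W i).natAbs

omit hW in
/-- parity -/
theorem parity (hW : ∀ p, W (p + 1) = W p + 1 ∨ W (p + 1) = W p - 1) (a k : ℕ)
    (h : (W (a + k)).natAbs = (W a).natAbs) : ∃ j, k = 2 * j := by
  have h1 : ∀ k, (W (a + k) - W a - k) % 2 = 0 := by
    intro k
    induction k with
    | zero => simp
    | succ k ih =>
      rcases hW (a + k) with h2 | h2
      · rw [← add_assoc, h2]; push_cast; omega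
      · rw [← add_assoc, h2]; push_cast; omega
  have h2 := h1 k
  refine ⟨k / 2, ?_⟩
  omega

/-- the first return -/
theorem first_return {m a : ℕ} (hE : Exc W (m + 1) a) : ∃ j ≤ m, (W (a + 2 * j + 2)).natAbs = (W a).natAbs ∧
    (∀ i, a < i → i < a + 2 * j + 2 → (W a).natAbs < (W i).natAbs) := by
  classical
  have hex : ∃ k, 0 < k ∧ (W (a + k)).natAbs = (W a).natAbs := ⟨2 * (m + 1), by omega, hE.1⟩
  set k := Nat.find hex with hk
  have hk1 := Nat.find_spec hex
  rw [← hk] at hk1
  have hk2 : k ≤ 2 * (m + 1) := Nat.find_min' hex ⟨by omega, hE.1⟩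
  obtain ⟨j, hj⟩ := parity hW a k hk1.2
  have hj0 : 0 < j := by omega
  refine ⟨j - 1, by omega, ?_, ?_⟩
  · rw [show a + 2 * (j - 1) + 2 = a + k by omega]
    exact hk1.2
  · intro i h1 h2
    have h3 := hE.2 i h1.le (by omega)
    obtain ⟨i', rfl⟩ := Nat.exists_eq_add_of_lt h1
    have h4 := Nat.find_min hex (m := i' + 1) (by omega)
    have h5 : (W (a + (i' + 1))).natAbs ≠ (W a).natAbs := fun h => h4 ⟨by omega, h⟩
    rw [show a + (i' + 1) = a + i' + 1 by ring] at h5
    omega

omit hW in
theorem opn_of_first {a j : ℕ} (h1 : (W (a + 2 * j + 2)).natAbs = (W a).natAbs)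
    (h2 : ∀ i, a < i → i < a + 2 * j + 2 → (W a).natAbs < (W i).natAbs) :
    opn W a = true ∧ opn W (a + 2 * j + 1) = false := by
  constructor
  · unfold opn
    rw [decide_eq_true_eq]
    exact h2 (a + 1) (by omega) (by omega)
  · unfold opn
    rw [decide_eq_false_iff_not]
    have := h2 (a + 2 * j + 1) (by omega) (by omega)
    rw [show a + 2 * j + 1 + 1 = a + 2 * j + 2 by ring]
    omega

open Classical in
theorem G_first {m a j : ℕ} (hN : a + 2 * (m + 1) ≤ N) (hE : Exc W (m + 1) a) (hj : j ≤ m)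
    (h1 : (W (a + 2 * j + 2)).natAbs = (W a).natAbs)
    (h2 : ∀ i, a < i → i < a + 2 * j + 2 → (W a).natAbs < (W i).natAbs) (c : Finset ℕ) :
    G K W N (m + 1) a c = (if (a ∈ c ↔ a + 2 * j + 1 ∈ c) then 1 else 0) * G K W N j (a + 1) c *
      G K W N (m - j) (a + 2 * j + 2) c := by
  obtain ⟨o1, o2⟩ := opn_of_first h1 h2
  rw [G_succ, Finset.sum_eq_single ⟨j, by omega⟩]
  · congr 2
    by_cases h3 : (a ∈ c ↔ a + 2 * j + 1 ∈ c)
    · rw [if_pos h3, if_pos ⟨by omega, o1, by show a + 2 * j + 1 < N; omega, o2, h3⟩]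
    · rw [if_neg h3, if_neg (fun h => h3 h.2.2.2.2)]
  · intro j' _ hne
    by_contra hcon
    have g1 : G K W N j'.1 (a + 1) c ≠ 0 := by
      intro h; rw [h] at hcon; simp at hcon
    have g3 : a < N ∧ opn W a = true ∧ a + 2 * j'.1 + 1 < N ∧ opn W (a + 2 * j'.1 + 1) = false ∧
        (a ∈ c ↔ a + 2 * j'.1 + 1 ∈ c) := by
      by_contra h; rw [if_neg h] at hcon; simp at hcon
    obtain ⟨k1, k2⟩ := G_ne_zero hW j'.1 (a + 1) c g1
    have k5 := opn_true hW g3.2.1
    have k6 := opn_false hW g3.2.2.2.1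
    rw [show a + 1 + 2 * j'.1 = a + 2 * j'.1 + 1 by ring] at k1 k2
    rw [show a + 2 * j'.1 + 1 + 1 = a + 2 * j'.1 + 2 by ring] at k6
    have hjj : j'.1 ≠ j := fun h => hne (Fin.ext h)
    rcases lt_or_gt_of_ne hjj with h3 | h3
    · have := h2 (a + 2 * j'.1 + 2) (by omega) (by omega)
      omega
    · have := k2 (a + 2 * j + 2) (by omega) (by omega)
      omega
  · intro h; exact absurd (Finset.mem_univ _) h

theorem exc_inner {m a j : ℕ} (hE : Exc W (m + 1) a) (hj : j ≤ m) (h1 : (W (a + 2 * j + 2)).natAbs = (W a).natAbs)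
    (h2 : ∀ i, a < i → i < a + 2 * j + 2 → (W a).natAbs < (W i).natAbs) :
    Exc W j (a + 1) ∧ Exc W (m - j) (a + 2 * j + 2) := by
  obtain ⟨o1, o2⟩ := opn_of_first h1 h2
  have k1 := opn_true hW o1
  have k2 := opn_false hW o2
  rw [show a + 2 * j + 1 + 1 = a + 2 * j + 2 by ring] at k2
  refine ⟨⟨?_, ?_⟩, ⟨?_, ?_⟩⟩
  · rw [show a + 1 + 2 * j = a + 2 * j + 1 by ring]; omega
  · intro i h3 h4
    have := h2 i (by omega) (by omega)
    omega
  · rw [show a + 2 * j + 2 + 2 * (m - j) = a + 2 * (m + 1) by omega, hE.1, h1]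
  · intro i h3 h4
    have := hE.2 i (by omega) (by omega)
    omega

/-- matched positions have different colours -/
theorem opposite {a q : ℕ} (haq : a < q) (o1 : opn W a = true) (o2 : opn W q = false)
    (h : ∀ i, a < i → i ≤ q → (W a).natAbs < (W i).natAbs) :
    (W (a + 1) = W a + 1 ∧ W (q + 1) = W q - 1) ∨ (W (a + 1) = W a - 1 ∧ W (q + 1) = W q + 1) := by
  have k1 := opn_true hW o1
  have k2 := opn_false hW o2
  have hsgn : ∀ i, (0 < W (a + 1) → 0 < W (a + 1 + i) ∨ q < a + 1 + i) ∧
      (W (a + 1) < 0 → W (a + 1 + i) < 0 ∨ q < a + 1 + i) := by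
    intro i
    induction i with
    | zero => exact ⟨fun h => Or.inl h, fun h => Or.inl h⟩
    | succ i ih =>
      constructor
      · intro h0
        by_cases hq : q < a + 1 + (i + 1)
        · exact Or.inr hq
        · left
          rcases ih.1 h0 with h3 | h3
          · have h4 := h (a + 1 + (i + 1)) (by omega) (by omega)
            rcases hW (a + 1 + i) with h5 | h5
            · rw [show a + 1 + (i + 1) = a + 1 + i + 1 by ring] at h4 ⊢
              omega
            · rw [show a + 1 + (i + 1) = a + 1 + i + 1 by ring] at h4 ⊢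
              omega
          · omega
      · intro h0
        by_cases hq : q < a + 1 + (i + 1)
        · exact Or.inr hq
        · left
          rcases ih.2 h0 with h3 | h3
          · have h4 := h (a + 1 + (i + 1)) (by omega) (by omega)
            rcases hW (a + 1 + i) with h5 | h5
            · rw [show a + 1 + (i + 1) = a + 1 + i + 1 by ring] at h4 ⊢
              omega
            · rw [show a + 1 + (i + 1) = a + 1 + i + 1 by ring] at h4 ⊢
              omega
          · omega
  have h3 := hsgn (q - (a + 1))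
  rw [show a + 1 + (q - (a + 1)) = q by omega] at h3
  rcases hW a with h4 | h4 <;> rcases hW q with h5 | h5
  · exfalso
    have : 0 < W (a + 1) := by omega
    have := h3.1 this
    omega
  · exact Or.inl ⟨h4, h5⟩
  · exact Or.inr ⟨h4, h5⟩
  · exfalso
    have : W (a + 1) < 0 := by omega
    have := h3.2 this
    omega

omit hW in
/-- the value depends only on the positions in the interval -/
theorem G_congr : ∀ (m a : ℕ) (c c' : Finset ℕ), (∀ p, a ≤ p → p < a + 2 * m → (p ∈ c ↔ p ∈ c')) →
    G K W N m a c = G K W N m a c' := by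
  classical
  intro m
  induction m using Nat.strong_induction_on with
  | _ m ih =>
    intro a c c' hc
    rcases m with _ | m
    · rw [G_zero, G_zero]
    · rw [G_succ, G_succ]
      refine Finset.sum_congr rfl fun j _ => ?_
      have hj := j.2
      rw [ih j.1 (by omega) (a + 1) c c' (fun p h1 h2 => hc p (by omega) (by omega)),
        ih (m - j.1) (by omega) (a + 2 * j.1 + 2) c c' (fun p h1 h2 => hc p (by omega) (by omega))]
      congr 2
      have e1 := hc a (le_refl _) (by omega)
      have e2 := hc (a + 2 * j.1 + 1) (by omega) (by omega)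
      simp only [e1, e2]

/-- the values are zero and one -/
theorem G_one : ∀ (m a : ℕ), a + 2 * m ≤ N → Exc W m a → ∀ c : Finset ℕ, G K W N m a c ≠ 0 → G K W N m a c = 1 := by
  classical
  intro m
  induction m using Nat.strong_induction_on with
  | _ m ih =>
    intro a hN hE c hc
    rcases m with _ | m
    · rw [G_zero]
    · obtain ⟨j, hj, h1, h2⟩ := first_return hW hE
      rw [G_first hW hN hE hj h1 h2] at hc ⊢
      obtain ⟨e1, e2⟩ := exc_inner hW hE hj h1 h2
      by_cases h3 : (a ∈ c ↔ a + 2 * j + 1 ∈ c)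
      · rw [if_pos h3, one_mul] at hc ⊢
        rw [ih j (by omega) _ (by omega) e1 c (left_ne_zero_of_mul hc),
          ih (m - j) (by omega) _ (by omega) e2 c (right_ne_zero_of_mul hc), one_mul]
      · rw [if_neg h3] at hc; simp at hc

/-- existence of a completion -/
theorem G_exists : ∀ (m a : ℕ), a + 2 * m ≤ N → Exc W m a → ∀ y : Finset ℕ, (∀ p ∈ y, W (p + 1) = W p + 1) →
    ∃ z : Finset ℕ, (∀ p ∈ z, a ≤ p ∧ p < a + 2 * m ∧ W (p + 1) = W p - 1) ∧ G K W N m a (y ∪ z) = 1 := by
  classical
  intro m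
  induction m using Nat.strong_induction_on with
  | _ m ih =>
    intro a hN hE y hy
    rcases m with _ | m
    · exact ⟨∅, fun p hp => absurd hp (Finset.notMem_empty _), by rw [G_zero]⟩
    · obtain ⟨j, hj, h1, h2⟩ := first_return hW hE
      obtain ⟨e1, e2⟩ := exc_inner hW hE hj h1 h2
      obtain ⟨o1, o2⟩ := opn_of_first h1 h2
      obtain ⟨z1, hz1, hg1⟩ := ih j (by omega) (a + 1) (by omega) e1 y hy
      obtain ⟨z2, hz2, hg2⟩ := ih (m - j) (by omega) (a + 2 * j + 2) (by omega) e2 y hy
      have hopp := opposite hW (q := a + 2 * j + 1) (by omega) o1 o2 (fun i h3 h4 => h2 i h3 (by omega))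
      -- the set of the new position
      obtain ⟨z0, hz0, hz0'⟩ : ∃ z0 : Finset ℕ, (∀ p ∈ z0, (p = a ∨ p = a + 2 * j + 1) ∧ W (p + 1) = W p - 1) ∧
          (a ∈ y ∪ z0 ↔ a + 2 * j + 1 ∈ y ∪ z0) := by
        rcases hopp with ⟨h3, h4⟩ | ⟨h3, h4⟩
        · have hq : a + 2 * j + 1 ∉ y := fun h => by have := hy _ h; omega
          by_cases h5 : a ∈ y
          · refine ⟨{a + 2 * j + 1}, ?_, ?_⟩
            · intro p hp
              rw [Finset.mem_singleton] at hp
              subst hp
              exact ⟨Or.inr rfl, h4⟩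
            · simp [h5]
          · exact ⟨∅, fun p hp => absurd hp (Finset.notMem_empty _), by simp [h5, hq]⟩
        · have hq : a ∉ y := fun h => by have := hy _ h; omega
          by_cases h5 : a + 2 * j + 1 ∈ y
          · refine ⟨{a}, ?_, ?_⟩
            · intro p hp
              rw [Finset.mem_singleton] at hp
              subst hp
              exact ⟨Or.inl rfl, h3⟩
            · simp [h5]
          · exact ⟨∅, fun p hp => absurd hp (Finset.notMem_empty _), by simp [h5, hq]⟩
      refine ⟨z0 ∪ (z1 ∪ z2), ?_, ?_⟩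
      · intro p hp
        rw [Finset.mem_union, Finset.mem_union] at hp
        rcases hp with hp | hp | hp
        · have := hz0 p hp
          refine ⟨?_, ?_, this.2⟩ <;> rcases this.1 with h | h <;> omega
        · have := hz1 p hp
          exact ⟨by omega, by omega, this.2.2⟩
        · have := hz2 p hp
          exact ⟨by omega, by omega, this.2.2⟩
      · rw [G_first hW hN hE hj h1 h2]
        have m0 : ∀ p, a < p → p < a + 2 * j + 1 → p ∉ z0 := by
          intro p h3 h4 h5
          rcases (hz0 p h5).1 with h6 | h6 <;> omega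
        have m0' : ∀ p, a + 2 * j + 2 ≤ p → p ∉ z0 := by
          intro p h3 h5
          rcases (hz0 p h5).1 with h6 | h6 <;> omega
        have m1 : ∀ p, p ∈ z1 → a + 1 ≤ p ∧ p < a + 2 * j + 1 := fun p hp => ⟨(hz1 p hp).1, by
          have := (hz1 p hp).2.1; omega⟩
        have m2 : ∀ p, p ∈ z2 → a + 2 * j + 2 ≤ p := fun p hp => (hz2 p hp).1
        have c1 : G K W N j (a + 1) (y ∪ (z0 ∪ (z1 ∪ z2))) = G K W N j (a + 1) (y ∪ z1) := by
          refine G_congr _ _ _ _ fun p h3 h4 => ?_
          have n0 := m0 p (by omega) (by omega)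
          have n2 : p ∉ z2 := fun h => by have := m2 p h; omega
          simp [n0, n2]
        have c2 : G K W N (m - j) (a + 2 * j + 2) (y ∪ (z0 ∪ (z1 ∪ z2))) =
            G K W N (m - j) (a + 2 * j + 2) (y ∪ z2) := by
          refine G_congr _ _ _ _ fun p h3 h4 => ?_
          have n0 := m0' p h3
          have n1 : p ∉ z1 := fun h => by have := (m1 p h).2; omega
          simp [n0, n1]
        have c3 : (a ∈ y ∪ (z0 ∪ (z1 ∪ z2)) ↔ a + 2 * j + 1 ∈ y ∪ (z0 ∪ (z1 ∪ z2))) := by
          have n1 : a ∉ z1 := fun h => by have := (m1 _ h).1; omega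
          have n2 : a ∉ z2 := fun h => by have := m2 _ h; omega
          have n3 : a + 2 * j + 1 ∉ z1 := fun h => by have := (m1 _ h).2; omega
          have n4 : a + 2 * j + 1 ∉ z2 := fun h => by have := m2 _ h; omega
          simp only [Finset.mem_union, n1, n2, n3, n4, or_false] at hz0' ⊢
          exact hz0'
        rw [if_pos c3, c1, c2, hg1, hg2]
        simp

/-- uniqueness of a completion -/
theorem G_unique : ∀ (m a : ℕ), a + 2 * m ≤ N → Exc W m a → ∀ c c' : Finset ℕ, G K W N m a c ≠ 0 →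
    G K W N m a c' ≠ 0 → (∀ p, a ≤ p → p < a + 2 * m → W (p + 1) = W p - 1 → (p ∈ c ↔ p ∈ c')) →
    ∀ p, a ≤ p → p < a + 2 * m → (p ∈ c ↔ p ∈ c') := by
  classical
  intro m
  induction m using Nat.strong_induction_on with
  | _ m ih =>
    intro a hN hE c c' hc hc' hcc p hp1 hp2
    rcases m with _ | m
    · omega
    · obtain ⟨j, hj, h1, h2⟩ := first_return hW hE
      obtain ⟨e1, e2⟩ := exc_inner hW hE hj h1 h2
      obtain ⟨o1, o2⟩ := opn_of_first h1 h2
      have hopp := opposite hW (q := a + 2 * j + 1) (by omega) o1 o2 (fun i h3 h4 => h2 i h3 (by omega))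
      rw [G_first hW hN hE hj h1 h2] at hc hc'
      have i1 : (a ∈ c ↔ a + 2 * j + 1 ∈ c) := by
        by_contra h; rw [if_neg h] at hc; simp at hc
      have i2 : (a ∈ c' ↔ a + 2 * j + 1 ∈ c') := by
        by_contra h; rw [if_neg h] at hc'; simp at hc'
      have g1 := right_ne_zero_of_mul (left_ne_zero_of_mul hc)
      have g2 := right_ne_zero_of_mul hc
      have g1' := right_ne_zero_of_mul (left_ne_zero_of_mul hc')
      have g2' := right_ne_zero_of_mul hc'
      have k0 : (a ∈ c ↔ a ∈ c') := by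
        rcases hopp with ⟨h3, h4⟩ | ⟨h3, h4⟩
        · rw [i1, i2]
          exact hcc _ (by omega) (by omega) h4
        · exact hcc _ (le_refl _) (by omega) h3
      rcases Nat.lt_or_ge p (a + 1) with h3 | h3
      · have : p = a := by omega
        rw [this]; exact k0
      rcases Nat.lt_or_ge p (a + 2 * j + 1) with h4 | h4
      · exact ih j (by omega) (a + 1) (by omega) e1 c c' g1 g1'
          (fun p h5 h6 => hcc p (by omega) (by omega)) p h3 (by omega)
      rcases Nat.lt_or_ge p (a + 2 * j + 2) with h5 | h5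
      · have : p = a + 2 * j + 1 := by omega
        rw [this, ← i1, ← i2]; exact k0
      · exact ih (m - j) (by omega) (a + 2 * j + 2) (by omega) e2 c c' g2 g2'
          (fun p h6 h7 => hcc p (by omega) (by omega)) p h5 (by omega)

end

end Pool.Agent.H5DY
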