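import Pool.Agent.H5DY.Numbers

/-!
# The rank of a circuit, and the circuit of size `27 n ^ 3`
-/

set_option autoImplicit false

namespace Pool.Agent.H5DY

open Pool.Agent.H20VP Finset

theorem rankedSML_of_weaklySkew {K L : Type} {C : Circuit K (ℕ × L)} (h1 : C.WeaklySkew) (h2 : IntervalSML C) (T : ℕ) :
    RankedSML C T 0 := by
  obtain ⟨I, hI⟩ := h2
  refine ⟨I, fun _ => 0, hI, ⟨fun _ _ _ => le_refl _, fun g a b hg => ?_⟩, le_refl _⟩
  rcases h1 g a b hg with h | h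
  · exact Or.inl h
  · exact Or.inr (Or.inl h)

theorem log_lt {a b : ℕ} (ha : a ≠ 0) (hab : a ≤ b) : Nat.log 2 a < Nat.log 2 (a + b) := by
  calc Nat.log 2 a < Nat.log 2 a + 1 := Nat.lt_succ_self _
    _ = Nat.log 2 (a * 2) := (Nat.log_mul_base (by norm_num) ha).symm
    _ ≤ Nat.log 2 (a + b) := Nat.log_mono_right (by omega)

theorem ranked_log {K L : Type} {C : Circuit K (ℕ × L)} {I : C.N → Finset ℕ} (hI : ∀ n, Typed I (I n) (C.gate n)) :
    Ranked C I (fun g => Nat.log 2 (I g).card) 0 := by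
  refine ⟨fun m n h => Nat.log_mono_right (Finset.card_le_card (sub_edge hI h)), fun g a b hg => ?_⟩
  have h1 := hI g
  rw [hg] at h1
  have h2 : (I g).card = (I a).card + (I b).card := by rw [h1.2, Finset.card_union_of_disjoint h1.1]
  by_cases ha : (I a).card = 0
  · exact Or.inr (Or.inr (Or.inr (Or.inr (Or.inl ha.le))))
  by_cases hb : (I b).card = 0
  · exact Or.inr (Or.inr (Or.inr (Or.inr (Or.inr hb.le))))
  rcases Nat.le_total (I a).card (I b).card with h | h
  · refine Or.inr (Or.inr (Or.inl ?_))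
    show Nat.log 2 (I a).card < Nat.log 2 (I g).card
    rw [h2]; exact log_lt ha h
  · refine Or.inr (Or.inr (Or.inr (Or.inl ?_)))
    show Nat.log 2 (I b).card < Nat.log 2 (I g).card
    rw [h2, add_comm]; exact log_lt hb h

theorem RankedSML.mono {K L : Type} {C : Circuit K (ℕ × L)} {T T' r r' : ℕ} (h : RankedSML C T r) (hT : T ≤ T')
    (hr : r ≤ r') : RankedSML C T' r' := by
  obtain ⟨I, ρ, h1, ⟨h2, h3⟩, h4⟩ := h
  refine ⟨I, ρ, h1, ⟨h2, fun g a b hg => ?_⟩, h4.trans hr⟩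
  rcases h3 g a b hg with h | h | h | h | h | h
  · exact Or.inl h
  · exact Or.inr (Or.inl h)
  · exact Or.inr (Or.inr (Or.inl h))
  · exact Or.inr (Or.inr (Or.inr (Or.inl h)))
  · exact Or.inr (Or.inr (Or.inr (Or.inr (Or.inl (h.trans hT)))))
  · exact Or.inr (Or.inr (Or.inr (Or.inr (Or.inr (h.trans hT)))))

/-- the circuit of cubic size -/
theorem small_ranked (K : Type) [Field K] {n : ℕ} (hn : 1 ≤ n) :
    ∃ C : Circuit K (ℕ × Bool × Bool), C.Computes (dyck K n 0) ∧ C.FanInTwo ∧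
      RankedSML C 0 (Nat.log 2 n + 1) ∧ C.size ≤ 27 * n ^ 3 := by
  obtain ⟨C, I, h1, h2, h3, h4, h5⟩ := small_typed K hn
  refine ⟨C, h1, h2, ⟨I, _, h3, ranked_log fun n => (h3 n).2, ?_⟩, h5⟩
  calc Nat.log 2 (I C.out).card ≤ Nat.log 2 (n * 2) := Nat.log_mono_right (by omega)
    _ = Nat.log 2 n + 1 := Nat.log_mul_base (by norm_num) (by omega)

end Pool.Agent.H5DY
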