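import Pool.Agent.H5DY.Count
import Pool.Agent.H5DY.Dyck

/-!
# The lower bound
-/

set_option autoImplicit false

namespace Pool.Agent.H5DY

open Finset Pool.Agent.H20VP

section

variable {K : Type} [Field K] {W : ℕ → ℤ} {N : ℕ}

theorem G_neg (m a : ℕ) (c : Finset ℕ) : G K (fun p => - W p) N m a c = G K W N m a c := by
  have h1 : pnt K (fun p => - W p) N c = pnt K W N c := by
    funext x
    unfold pnt opn
    simp only [Int.natAbs_neg]
  unfold G
  rw [h1]

theorem card_steps (hW : ∀ p, W (p + 1) = W p + 1 ∨ W (p + 1) = W p - 1) (a k : ℕ) :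
    (((Ico a (a + k)).filter fun p => W (p + 1) = W p + 1).card : ℤ) -
      ((Ico a (a + k)).filter fun p => W (p + 1) = W p - 1).card = W (a + k) - W a ∧
    ((Ico a (a + k)).filter fun p => W (p + 1) = W p + 1).card +
      ((Ico a (a + k)).filter fun p => W (p + 1) = W p - 1).card = k := by
  induction k with
  | zero => simp
  | succ k ih =>
    have h1 : Ico a (a + (k + 1)) = insert (a + k) (Ico a (a + k)) := by
      ext p; simp only [mem_Ico, mem_insert]; omega
    have h2 : a + k ∉ Ico a (a + k) := by simp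
    rw [h1, filter_insert, filter_insert]
    have h3 : a + k ∉ (Ico a (a + k)).filter fun p => W (p + 1) = W p + 1 := fun h => h2 (mem_filter.1 h).1
    have h4 : a + k ∉ (Ico a (a + k)).filter fun p => W (p + 1) = W p - 1 := fun h => h2 (mem_filter.1 h).1
    have h5 : a + (k + 1) = a + k + 1 := by ring
    rcases hW (a + k) with h6 | h6
    · have h7 : ¬ W (a + k + 1) = W (a + k) - 1 := by omega
      rw [if_pos h6, if_neg h7, card_insert_of_notMem h3, h5]
      push_cast
      constructor <;> omega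
    · have h7 : ¬ W (a + k + 1) = W (a + k) + 1 := by omega
      rw [if_neg h7, if_pos h6, card_insert_of_notMem h4, h5]
      push_cast
      constructor <;> omega

end

theorem disj_ico {a b a' b' : ℕ} (h1 : a < b) (h2 : a' < b') (h : Disjoint (Ico a b) (Ico a' b')) :
    b ≤ a' ∨ b' ≤ a := by
  by_contra hcon
  push Not at hcon
  have h3 : max a a' ∈ Ico a b := by rw [mem_Ico]; omega
  have h4 : max a a' ∈ Ico a' b' := by rw [mem_Ico]; omega
  exact Finset.disjoint_left.1 h h3 h4

theorem even_om (r : ℕ) : om r % 2 = 0 := by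
  induction r with
  | zero => rfl
  | succ r ih => rw [om_succ]; omega

theorem even_len (r : ℕ) : len r % 2 = 0 := by
  induction r with
  | zero => rfl
  | succ r ih => rw [len_succ]; omega

/-- the length of the random parts -/
def Mb (h : ℕ) : ℕ := (h * h + 1) * 2 ^ h - 1
/-- the minimal length of the deterministic parts -/
def lb (h : ℕ) : ℕ := 2 * (Q h * Mb h) + h * h + 1
/-- the total length -/
def Nh (h lam : ℕ) : ℕ := Q h * (lam + Mb h) + Q h * Mb h

theorem Q_two (h : ℕ) : 2 ≤ Q h := (len_pos h).trans (Nat.le_add_right _ _)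

theorem Mb_succ (h : ℕ) : Mb h + 1 = (h * h + 1) * 2 ^ h := by
  have : 1 ≤ (h * h + 1) * 2 ^ h := Nat.mul_pos (by omega) (by positivity)
  unfold Mb; omega

/-- **The lower bound.** -/
theorem lower {K : Type} [Field K] (C : Circuit K (ℕ × Bool × Bool)) (n : ℕ) (hcomp : C.Computes (dyck K n 0))
    {I : C.N → Finset ℕ} (hI : ∀ n, (∃ a b, I n = Finset.Ico a b) ∧ Typed I (I n) (C.gate n))
    {ρ : C.N → ℕ} {T : ℕ} (hws : Ranked C I ρ T) (h lam : ℕ) (hlam : lb h ≤ lam) (hTP : T < lam + Mb h)
    (hn : Nh h lam ≤ 2 * n) :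
    2 ^ (h * (h - 1 - ρ C.out)) ≤ C.size := by
  classical
  by_contra hlt
  push Not at hlt
  let := C.fin
  have hsize : C.size = Fintype.card C.N := rfl
  obtain ⟨φ, hφ, hout⟩ := hcomp
  set k0 := h - 1 - ρ C.out with hk0
  have hlb : 1 ≤ lb h := Nat.le_add_left _ _
  have hT : ∀ n, Typed I (I n) (C.gate n) := fun n => (hI n).2
  choose lo hi hlh using fun n => (hI n).1
  set P := lam + Mb h with hPdef
  have hP : 0 < P := by omega
  set e0 := Q h * P with he0
  have hlenQ : len h ≤ Q h := Nat.le_add_right _ _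
  -- the long siblings
  set SS : C.N → Finset C.N := fun g => univ.filter fun y => Sib C g y ∧ Long (len h) P (I y) ∧ e0 ∉ I y with hSS
  have hsub : ∀ g, ∃ F : Finset C.N, k0 ≤ (SS g).card → F ⊆ SS g ∧ F.card = k0 := by
    intro g
    by_cases hc : k0 ≤ (SS g).card
    · obtain ⟨F, hF1, hF2⟩ := Finset.exists_subset_card_eq hc
      exact ⟨F, fun _ => ⟨hF1, hF2⟩⟩
    · exact ⟨∅, fun hc' => absurd hc' hc⟩
  choose FF hFF using hsub
  have hβ : ∀ y, ∃ β, Long (len h) P (I y) → β < len h ∧ lo y ≤ β * P ∧ (β + 1) * P ≤ hi y := by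
    intro y
    by_cases hl : Long (len h) P (I y)
    · obtain ⟨a, b, hab, β, h1, h2, h3⟩ := hl
      refine ⟨β, fun _ => ?_⟩
      have h4 : a < b := by
        have : β * P < (β + 1) * P := Nat.mul_lt_mul_of_pos_right (by omega) hP
        omega
      rw [hlh y] at hab
      obtain ⟨rfl, rfl⟩ := ico_eq h4 hab.symm
      exact ⟨h1, h2, h3⟩
    · exact ⟨0, fun h => absurd h hl⟩
  choose β hβ using hβ
  have hne : ∀ y, Long (len h) P (I y) → lo y < hi y := by
    intro y hl
    obtain ⟨_, h2, h3⟩ := hβ y hl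
    have : β y * P < (β y + 1) * P := Nat.mul_lt_mul_of_pos_right (by omega) hP
    omega
  -- the choice of the walk
  obtain ⟨ξ, hξ, hgood⟩ := exists_walk (h := h) (lam := lam) (M := Mb h) hP (Kb := h * h) (k := k0)
    (univ.filter fun g => k0 ≤ (SS g).card) FF lo hi β (by
      intro g hg
      have hc := (mem_filter.1 hg).2
      obtain ⟨h1, h2⟩ := hFF g hc
      have h3 : ∀ t ∈ FF g, Sib C g t ∧ Long (len h) P (I t) ∧ e0 ∉ I t := fun t ht =>
        (mem_filter.1 (h1 ht)).2
      refine ⟨h2, fun t ht => (hβ t (h3 t ht).2.1).2.1, fun t ht => (hβ t (h3 t ht).2.1).2.2, fun t ht => ?_, ?_⟩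
      · have h4 := hβ t (h3 t ht).2.1
        have h5 := (h3 t ht).2.2
        rw [hlh t, mem_Ico] at h5
        have h6 : β t * P < Q h * P := Nat.mul_lt_mul_of_pos_right (by omega) hP
        show hi t ≤ e0
        omega
      · intro t ht t' ht' htt
        have h4 := (h3 t ht).1.disj hT (h3 t' ht').1 htt
        rw [hlh t, hlh t'] at h4
        exact disj_ico (hne t (h3 t ht).2.1) (hne t' (h3 t' ht').2.1) h4)
    (by
      have h1 : (univ.filter fun g => k0 ≤ (SS g).card).card ≤ C.size := Finset.card_le_univ _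
      rw [Mb_succ, mul_pow, ← pow_mul, mul_comm _ ((2 : ℕ) ^ _)]
      exact Nat.mul_lt_mul_of_pos_right (lt_of_le_of_lt h1 hlt) (by positivity))
  set w := W h lam (Mb h) ξ with hw
  have hstep : ∀ p, w (p + 1) = w p + 1 ∨ w (p + 1) = w p - 1 := W_step hP
  set N := 2 * n with hN
  have hwN : w N = 0 := by
    obtain ⟨k, hk⟩ := Nat.exists_eq_add_of_le hn
    rw [hk, hw]
    unfold Nh
    rw [W_fill hP hξ]
    have h1 : k % 2 = 0 := by
      have h2 : Nh h lam % 2 = 0 := by
        unfold Nh
        rw [mul_add, add_assoc, ← two_mul]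
        have h3 : Q h % 2 = 0 := by
          unfold Q
          have := even_len h
          have := even_om h
          omega
        have h4 : (Q h * lam) % 2 = 0 := by rw [Nat.mul_mod, h3]; simp
        omega
      omega
    rw [h1]; rfl
  -- the points
  set pt := pnt K w N with hpt'
  have hpt : ∀ (c c' : Finset ℕ) (x : ℕ × Bool × Bool), (x.1 ∈ c ↔ x.1 ∈ c') → pt c x = pt c' x := by
    intro c c' x hx
    rw [hpt']
    unfold pnt
    simp only [hx]
  have hG : ∀ c, A C ∅ (pt c) C.out = G K w N n 0 c := by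
    intro c
    rw [A_empty hφ, hout]; rfl
  have hExc : Exc w n 0 := by
    have h0 : w 0 = 0 := rfl
    refine ⟨?_, fun i _ _ => ?_⟩
    · rw [zero_add, ← hN, hwN, h0]
    · rw [h0]; simp
  -- the index set of the output
  have hIout : I C.out = Ico 0 N := by
    ext p
    rw [mem_Ico]
    constructor
    · intro hp
      refine ⟨Nat.zero_le _, ?_⟩
      by_contra hpN
      obtain ⟨z, _, hz⟩ := G_exists (K := K) (N := N) hstep n 0 (by omega) hExc ∅ (fun p hp => absurd hp (notMem_empty _))
      rw [← hG, A_zero hT ∅ (p := p) (fun x hx => by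
        rw [hpt']; unfold pnt; rw [if_neg]; rintro ⟨h1, _⟩; omega) C.out hp] at hz
      exact zero_ne_one hz
    · rintro ⟨_, hpN⟩
      by_contra hp
      obtain ⟨z, _, hz⟩ := G_exists (K := K) (N := N) hstep n 0 (by omega) hExc ∅ (fun p hp => absurd hp (notMem_empty _))
      set c := (∅ : Finset ℕ) ∪ z with hc
      obtain ⟨c', hc'1, hc'2⟩ : ∃ c' : Finset ℕ, (∀ q, q ≠ p → (q ∈ c ↔ q ∈ c')) ∧ ¬ (p ∈ c ↔ p ∈ c') := by
        by_cases hpc : p ∈ c
        · refine ⟨c.erase p, fun q hq => ?_, ?_⟩
          · rw [mem_erase]; exact ⟨fun h => ⟨hq, h⟩, fun h => h.2⟩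
          · simp [hpc]
        · refine ⟨insert p c, fun q hq => ?_, ?_⟩
          · rw [mem_insert]; exact ⟨fun h => Or.inr h, fun h => h.resolve_left hq⟩
          · simp [hpc]
      have h1 : G K w N n 0 c' = G K w N n 0 c := by
        rw [← hG, ← hG]
        exact (A_dep hT hpt ∅ C.out c c' (fun q hq => hc'1 q (fun h => hp (h ▸ hq)))).symm
      have h2 : G K w N n 0 c ≠ 0 := by rw [hz]; exact one_ne_zero
      have h3 : G K w N n 0 c' ≠ 0 := by rw [h1]; exact h2
      rcases hstep p with h4 | h4
      · -- agree on the positions of the other kind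
        refine hc'2 (G_unique (K := K) (N := N) hstep n 0 (by omega) hExc c c' h2 h3 (fun q _ _ hq => hc'1 q ?_) p
          (Nat.zero_le _) (by omega))
        rintro rfl; omega
      · refine hc'2 (G_unique (K := K) (N := N) (W := fun p => - w p) (fun p => ?_) n 0 (by omega) ?_ c c' ?_ ?_
          (fun q _ _ hq => hc'1 q ?_) p (Nat.zero_le _) (by omega))
        · rcases hstep p with h | h
          · right; rw [h]; ring
          · left; rw [h]; ring
        · unfold Exc at hExc ⊢
          simpa only [Int.natAbs_neg] using hExc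
        · rw [G_neg]; exact h2
        · rw [G_neg]; exact h3
        · rintro rfl; omega
  have hNpos : 0 < N := by
    have h1 : 0 < Nh h lam := by
      unfold Nh
      have := Q_two h
      have : 0 < Q h * (lam + Mb h) := Nat.mul_pos (by omega) hP
      omega
    omega
  -- the removed nodes
  set D : Set C.N := {t | (I t).Nonempty ∧ ((h * h : ℕ) : ℤ) < |w (hi t) - w (lo t)|} with hD
  set al : C.N → Prop := fun t => ∃ c, A C D (pt c) t ≠ 0 with hal
  have hnD : ∀ t, al t → t ∉ D := by
    rintro t ⟨c, hc⟩ ht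
    exact hc (A_mem _ ht)
  have hadd : ∀ t l, al t → C.gate t = .add l → ∃ m ∈ l, al m := by
    rintro t l ⟨c, hc⟩ hg
    rw [A_eq _ (hnD t ⟨c, hc⟩), hg] at hc
    by_contra hcon
    push Not at hcon
    apply hc
    simp only [gev]
    refine List.sum_eq_zero fun a ha => ?_
    obtain ⟨m, hm, rfl⟩ := List.mem_map.1 ha
    by_contra hne'
    exact hcon m hm ⟨c, hne'⟩
  have hmul : ∀ t a b, al t → C.gate t = .mul a b → al a ∧ al b := by
    rintro t a b ⟨c, hc⟩ hg
    rw [A_eq _ (hnD t ⟨c, hc⟩), hg] at hc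
    simp only [gev] at hc
    exact ⟨⟨c, left_ne_zero_of_mul hc⟩, ⟨c, right_ne_zero_of_mul hc⟩⟩
  have hbal : ∀ t a b, al t → a < b → I t = Ico a b → |vv h (a / P) - vv h (b / P)| ≤ 2 := by
    intro t a b ht hab hIt
    have h1 := hnD t ht
    have h2 : (I t).Nonempty := by rw [hIt, nonempty_Ico]; exact hab
    have h3 : |w (hi t) - w (lo t)| ≤ ((h * h : ℕ) : ℤ) := by
      by_contra hcon
      exact h1 ⟨h2, not_le.1 hcon⟩
    have h4 := hlh t
    rw [hIt] at h4
    obtain ⟨e1, e2⟩ := ico_eq hab h4
    rw [← e1, ← e2] at h3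
    exact unit_bal (Kb := h * h) hlam hξ h3
  -- the output is removed
  have hdead : ∀ c, A C D (pt c) C.out = 0 := by
    by_contra hcon
    push Not at hcon
    have hAR : AR C al C.out := AR.out hcon
    have hlen0 : 0 + len h ≤ N / P := by
      rw [zero_add, Nat.le_div_iff_mul_le hP]
      calc len h * P ≤ Q h * P := Nat.mul_le_mul_right _ hlenQ
        _ ≤ Nh h lam := Nat.le_add_right _ _
        _ ≤ N := hn
    obtain ⟨g, hg1, _, F, hF, hF'⟩ := macro_claim hws hI hadd hmul hTP hbal h (le_refl h) C.out 0 N 0 0 hAR hNpos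
      hIout Cp.top (by simp) hlen0
    have hcard : k0 ≤ (SS g).card := by
      have h1 : F.filter (fun y => e0 ∉ I y) ⊆ SS g := by
        intro y hy
        rw [mem_filter] at hy
        obtain ⟨⟨x, u, hp, hb, _⟩, hl⟩ := hF' y hy.1
        rw [hSS, mem_filter]
        exact ⟨mem_univ _, ⟨x, u, hp, hb⟩, hl, hy.2⟩
      have h2 : (F.filter (fun y => ¬ (e0 ∉ I y))).card ≤ 1 := by
        rw [Finset.card_le_one]
        intro y hy y' hy'
        rw [mem_filter, not_not] at hy hy'
        by_contra hyy
        obtain ⟨⟨x, u, hp, hb, _⟩, _⟩ := hF' y hy.1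
        obtain ⟨⟨x', u', hp', hb', _⟩, _⟩ := hF' y' hy'.1
        exact Finset.disjoint_left.1 (Sib.disj hT ⟨x, u, hp, hb⟩ ⟨x', u', hp', hb'⟩ hyy) hy.2 hy'.2
      have h3 := Finset.card_filter_add_card_filter_not (s := F) (fun y => e0 ∉ I y)
      have h4 := Finset.card_le_card h1
      omega
    obtain ⟨y, hy, hy'⟩ := hgood g (mem_filter.2 ⟨mem_univ _, hcard⟩)
    have h5 := (mem_filter.1 ((hFF g hcard).1 hy)).2
    have h6 := AR.sib hmul hg1 y h5.1
    refine hnD y h6 ⟨?_, ?_⟩
    · exact h5.2.1.nonempty hP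
    · exact_mod_cast hy'
  -- the decomposition
  obtain ⟨R, hR, hR'⟩ := decomp (C := C) hT hpt D C.out
  set Y := (Ico 0 N).filter fun p => w (p + 1) = w p + 1 with hY
  set Z := (Ico 0 N).filter fun p => w (p + 1) = w p - 1 with hZ
  have hYZ : Disjoint Y Z := by
    rw [Finset.disjoint_left]
    intro p hp hp'
    have h1 := (mem_filter.1 hp).2
    have h2 := (mem_filter.1 hp').2
    omega
  have hYZu : Y ∪ Z = Ico 0 N := by
    ext p
    rw [mem_union, mem_filter, mem_filter]
    constructor
    · rintro (h1 | h1) <;> exact h1.1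
    · intro hp
      rcases hstep p with h1 | h1
      · exact Or.inl ⟨hp, h1⟩
      · exact Or.inr ⟨hp, h1⟩
  have hcardYZ : Y.card = n ∧ Z.card = n := by
    have h1 := card_steps hstep 0 N
    rw [zero_add, hwN] at h1
    have h0 : w 0 = 0 := rfl
    rw [h0] at h1
    have h2 : (Y.card : ℤ) - Z.card = 0 - 0 := h1.1
    have h3 : Y.card + Z.card = N := h1.2
    omega
  have hinter : ∀ a b, a ≤ b → b ≤ N → ((Y ∩ Ico a b).card : ℤ) - (Z ∩ Ico a b).card = w b - w a := by
    intro a b hab hbN
    obtain ⟨k, rfl⟩ := Nat.exists_eq_add_of_le hab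
    have h1 := (card_steps hstep a k).1
    have h2 : Y ∩ Ico a (a + k) = (Ico a (a + k)).filter fun p => w (p + 1) = w p + 1 := by
      ext p
      simp only [hY, mem_inter, mem_filter, mem_Ico]
      constructor
      · rintro ⟨⟨_, h3⟩, h4⟩; exact ⟨h4, h3⟩
      · rintro ⟨h4, h3⟩; exact ⟨⟨⟨Nat.zero_le _, by omega⟩, h3⟩, h4⟩
    have h3 : Z ∩ Ico a (a + k) = (Ico a (a + k)).filter fun p => w (p + 1) = w p - 1 := by
      ext p
      simp only [hZ, mem_inter, mem_filter, mem_Ico]
      constructor
      · rintro ⟨⟨_, h3⟩, h4⟩; exact ⟨h4, h3⟩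
      · rintro ⟨h4, h3⟩; exact ⟨⟨⟨Nat.zero_le _, by omega⟩, h3⟩, h4⟩
    rw [h2, h3]; exact h1
  have hrank := rank_bound (K := K) (univ : Finset C.N) hYZ (fun c => A C ∅ (pt c) C.out)
    (fun t c => A C ∅ (pt c) t * R t c) (n - (h * h + 1)) (by
      intro t _
      rcases hR t with h1 | ⟨h1, h2, h3⟩
      · refine ⟨fun _ => 0, fun _ => 0, Y, fun _ _ _ => rfl, fun _ _ _ => rfl, fun c => ?_, ?_⟩
        · rw [h1]; simp
        · rw [Finset.disjoint_iff_inter_eq_empty.1 hYZ.symm, sdiff_self]; simp
      · have h4 : lo t < hi t := by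
          have := h1.1
          rwa [hlh t, nonempty_Ico] at this
        have h5 : hi t ≤ N := by
          have h6 : hi t - 1 ∈ I t := by rw [hlh t, mem_Ico]; omega
          have h7 := h2 h6
          rw [hIout, mem_Ico] at h7
          omega
        have h6 := hinter (lo t) (hi t) h4.le h5
        have h7 := h1.2
        have h8 : I t ⊆ Ico 0 N := by rw [← hIout]; exact h2
        have hYc : (Y ∩ I t).card + (Y \ I t).card = n := by
          rw [add_comm, Finset.card_sdiff_add_card_inter]; exact hcardYZ.1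
        have hZc : (Z ∩ I t).card + (Z \ I t).card = n := by
          rw [add_comm, Finset.card_sdiff_add_card_inter]; exact hcardYZ.2
        rw [← hlh t] at h6
        rcases lt_abs.1 h7 with h9 | h9
        · refine ⟨fun c => A C ∅ (pt c) t, R t, I t, A_dep hT hpt ∅ t, ?_, fun c => rfl, ?_⟩
          · rw [hYZu, ← hIout]; exact h3
          · refine (Finset.card_union_le _ _).trans ?_
            push_cast at h9
            omega
        · refine ⟨R t, fun c => A C ∅ (pt c) t, Ico 0 N \ I t, ?_, ?_, fun c => mul_comm _ _, ?_⟩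
          · rw [← hIout]; exact h3
          · rw [hYZu, Finset.sdiff_sdiff_eq_self h8]; exact A_dep hT hpt ∅ t
          · have e1 : Z ∩ (Ico 0 N \ I t) = Z \ I t := by
              ext p
              simp only [mem_inter, mem_sdiff]
              constructor
              · rintro ⟨h1, _, h2⟩; exact ⟨h1, h2⟩
              · rintro ⟨h1, h2⟩; exact ⟨h1, (mem_filter.1 h1).1, h2⟩
            have e2 : Y \ (Ico 0 N \ I t) = Y ∩ I t := by
              ext p
              simp only [mem_inter, mem_sdiff]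
              constructor
              · rintro ⟨h1, h2⟩
                refine ⟨h1, ?_⟩
                by_contra h3
                exact h2 ⟨(mem_filter.1 h1).1, h3⟩
              · rintro ⟨h1, h2⟩; exact ⟨h1, fun h3 => h3.2 h2⟩
            rw [e1, e2]
            refine (Finset.card_union_le _ _).trans ?_
            push_cast at h9
            omega)
    (by intro c; rw [hR' c, hdead c, zero_add])
    (by
      intro y' hy'
      obtain ⟨z, hz1, hz2⟩ := G_exists (K := K) (N := N) hstep n 0 (by omega) hExc y'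
        (fun p hp => (mem_filter.1 (hy' hp)).2)
      refine ⟨z, fun p hp => ?_, fun y hy => ?_⟩
      · obtain ⟨_, h2, h3⟩ := hz1 p hp
        rw [hZ, mem_filter, mem_Ico]
        exact ⟨⟨Nat.zero_le _, by omega⟩, h3⟩
      · show A C ∅ (pt (y ∪ z)) C.out = _
        rw [hG]
        by_cases hyy : y = y'
        · rw [if_pos hyy, hyy]; exact hz2
        · rw [if_neg hyy]
          by_contra hcon
          apply hyy
          have h1 := G_unique (K := K) (N := N) hstep n 0 (by omega) hExc (y ∪ z) (y' ∪ z) hcon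
            (by rw [hz2]; exact one_ne_zero) (fun p _ _ hp => by
              have e1 : p ∉ y := fun h => by have := (mem_filter.1 (hy h)).2; omega
              have e2 : p ∉ y' := fun h => by have := (mem_filter.1 (hy' h)).2; omega
              simp [e1, e2])
          ext p
          by_cases hpY : p ∈ Y
          · have h2 := mem_filter.1 hpY
            rw [mem_Ico] at h2
            have h3 := h1 p (Nat.zero_le _) (by omega)
            have h4 : p ∉ z := fun h => by have := (hz1 p h).2.2; omega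
            simpa [h4] using h3
          · exact ⟨fun h => absurd (hy h) hpY, fun h => absurd (hy' h) hpY⟩)
  rw [hcardYZ.1, Finset.card_univ, ← hsize] at hrank
  have hnK : h * h + 1 ≤ n := by
    have h1 : 2 * (h * h + 1) ≤ Nh h lam := by
      calc 2 * (h * h + 1) ≤ Q h * (lam + Mb h) := Nat.mul_le_mul (Q_two h) (by unfold lb at hlam; omega)
        _ ≤ Nh h lam := Nat.le_add_right _ _
    omega
  have h1 : 2 ^ n = 2 ^ (h * h + 1) * 2 ^ (n - (h * h + 1)) := by
    rw [← pow_add]; congr 1; omega
  rw [h1] at hrank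
  have h2 : 2 ^ (h * h + 1) ≤ C.size := Nat.le_of_mul_le_mul_right hrank (by positivity)
  have h3 : 2 ^ (h * k0) ≤ 2 ^ (h * h + 1) := Nat.pow_le_pow_right (by norm_num) (by
    have : h * k0 ≤ h * h := Nat.mul_le_mul_left _ (by omega)
    omega)
  omega

end Pool.Agent.H5DY
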