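import Pool.Agent.H5DY.Upper

/-!
# Every set-multilinear circuit has a weakly skew one of quasi-polynomial size
-/

set_option autoImplicit false

namespace Pool.Agent.H5DY

open Pool.Agent.H20VP Finset

section

variable {K L : Type} [Field K] (C : Circuit K (ℕ × L)) (I : C.N → Finset ℕ) (φ : C.N → MvPolynomial (ℕ × L) K)

open Classical in
/-- the labels: `(σ, g)` is a copy of the node `g`, and `σ` is the list of the product gates whose smaller arguments are
computed privately -/
noncomputable def qgate (t : List C.N × C.N) : Gate K (ℕ × L) (List C.N × C.N) :=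
  if I t.2 = ∅ then .const (MvPolynomial.coeff 0 (φ t.2)) else
    match C.gate t.2 with
    | .var x => .var x
    | .const c => .const c
    | .add l => .add (l.map fun m => (t.1, m))
    | .mul a b => if (I a).card ≤ (I b).card then .mul (t.2 :: t.1, a) (t.1, b) else .mul (t.2 :: t.1, b) (t.1, a)

variable {C I φ}

/-- the edges -/
theorem qgate_preds {t s : List C.N × C.N} (hs : s ∈ (qgate C I φ t).preds) :
    C.Edge s.2 t.2 ∧ I t.2 ≠ ∅ ∧ (s.1 = t.1 ∨ (s.1 = t.2 :: t.1 ∧ ∃ a b, (C.gate t.2 = .mul a b ∨ C.gate t.2 = .mul b a) ∧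
      s.2 = a ∧ (I a).card ≤ (I b).card)) := by
  classical
  unfold qgate at hs
  by_cases h1 : I t.2 = ∅
  · rw [if_pos h1] at hs; simp [Gate.preds] at hs
  rw [if_neg h1] at hs
  unfold Circuit.Edge
  cases hg : C.gate t.2 with
  | var x => rw [hg] at hs; simp [Gate.preds] at hs
  | const c => rw [hg] at hs; simp [Gate.preds] at hs
  | add l =>
    rw [hg] at hs
    simp only [Gate.preds, List.mem_map] at hs
    obtain ⟨m, hm, rfl⟩ := hs
    exact ⟨hm, h1, Or.inl rfl⟩
  | mul a b =>
    rw [hg] at hs
    simp only at hs
    split_ifs at hs with h2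
    · simp only [Gate.preds, List.mem_cons, List.not_mem_nil, or_false] at hs
      rcases hs with rfl | rfl
      · exact ⟨by simp [Gate.preds], h1, Or.inr ⟨rfl, a, b, Or.inl rfl, rfl, h2⟩⟩
      · exact ⟨by simp [Gate.preds], h1, Or.inl rfl⟩
    · simp only [Gate.preds, List.mem_cons, List.not_mem_nil, or_false] at hs
      rcases hs with rfl | rfl
      · exact ⟨by simp [Gate.preds], h1, Or.inr ⟨rfl, b, a, Or.inr rfl, rfl, by omega⟩⟩
      · exact ⟨by simp [Gate.preds], h1, Or.inl rfl⟩

/-- the private argument is determined by its list -/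
theorem qgate_priv {t s s' : List C.N × C.N} (hs : s ∈ (qgate C I φ t).preds) (hs' : s' ∈ (qgate C I φ t).preds)
    (h1 : s.1 = t.2 :: t.1) (h2 : s'.1 = t.2 :: t.1) : s = s' := by
  classical
  have hne : ∀ (a : C.N) (l : List C.N), l ≠ a :: l := by
    intro a l h
    have := congrArg List.length h
    simp at this
  unfold qgate at hs hs'
  by_cases h1' : I t.2 = ∅
  · rw [if_pos h1'] at hs; simp [Gate.preds] at hs
  rw [if_neg h1'] at hs hs'
  cases hg : C.gate t.2 with
  | var x => rw [hg] at hs; simp [Gate.preds] at hs
  | const c => rw [hg] at hs; simp [Gate.preds] at hs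
  | add l =>
    rw [hg] at hs
    simp only [Gate.preds, List.mem_map] at hs
    obtain ⟨m, hm, rfl⟩ := hs
    exact absurd h1 (hne _ _)
  | mul a b =>
    rw [hg] at hs hs'
    simp only at hs hs'
    split_ifs at hs hs' with h3
    · simp only [Gate.preds, List.mem_cons, List.not_mem_nil, or_false] at hs hs'
      rcases hs with rfl | rfl
      · rcases hs' with rfl | rfl
        · rfl
        · exact absurd h2 (hne _ _)
      · exact absurd h1 (hne _ _)
    · simp only [Gate.preds, List.mem_cons, List.not_mem_nil, or_false] at hs hs'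
      rcases hs with rfl | rfl
      · rcases hs' with rfl | rfl
        · rfl
        · exact absurd h2 (hne _ _)
      · exact absurd h1 (hne _ _)

/-- the values at scalar nodes -/
theorem scalar (hI : ∀ n, Typed I (I n) (C.gate n)) (hφ : ∀ n, φ n = (C.gate n).value φ) (n : C.N)
    (hn : I n = ∅) : φ n = MvPolynomial.C (MvPolynomial.coeff 0 (φ n)) := by
  classical
  induction n using C.wf.induction with
  | _ n ih =>
    have hT := hI n
    have hv := hφ n
    have ih' : ∀ m ∈ (C.gate n).preds, I m = ∅ → φ m = MvPolynomial.C (MvPolynomial.coeff 0 (φ m)) := ih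
    have key : ∃ k, φ n = MvPolynomial.C k := by
      revert hT hv ih'
      generalize C.gate n = g
      intro hT hv ih'
      cases g with
      | var x =>
        have h1 : I n = {x.1} := hT
        rw [hn] at h1
        exact absurd h1.symm (Finset.singleton_ne_empty _)
      | const c => exact ⟨c, hv⟩
      | add l =>
        simp only [Gate.value] at hv
        have h1 : ∀ m ∈ l, ∃ k, φ m = MvPolynomial.C k := fun m hm => ⟨_, ih' m hm (by rw [hT m hm, hn])⟩
        rw [hv]
        clear hv hT ih'
        induction l with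
        | nil => exact ⟨0, by simp⟩
        | cons m l ihl =>
          obtain ⟨k, hk⟩ := h1 m (by simp)
          obtain ⟨k', hk'⟩ := ihl fun m hm => h1 m (by simp [hm])
          exact ⟨k + k', by rw [List.map_cons, List.sum_cons, hk, hk', map_add]⟩
      | mul a b =>
        have h1 := hT.2
        rw [hn] at h1
        have h2 := Finset.union_eq_empty.1 h1.symm
        have ha := ih' a (by simp [Gate.preds]) h2.1
        have hb := ih' b (by simp [Gate.preds]) h2.2
        simp only [Gate.value] at hv
        exact ⟨_, by rw [hv, ha, hb, ← map_mul]⟩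
    obtain ⟨k, hk⟩ := key
    rw [hk, MvPolynomial.coeff_C, if_pos rfl]

theorem qval_eq (hI : ∀ n, Typed I (I n) (C.gate n)) (hφ : ∀ n, φ n = (C.gate n).value φ) (t : List C.N × C.N) :
    φ t.2 = (qgate C I φ t).value (fun s => φ s.2) := by
  classical
  unfold qgate
  by_cases h1 : I t.2 = ∅
  · rw [if_pos h1]
    exact scalar hI hφ t.2 h1
  rw [if_neg h1]
  have hv := hφ t.2
  revert hv
  generalize C.gate t.2 = g
  intro hv
  rw [hv]
  cases g with
  | var x => rfl
  | const c => rfl
  | add l => simp only [Gate.value, List.map_map]; rfl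
  | mul a b =>
    simp only
    split_ifs with h2
    · rfl
    · simp only [Gate.value]; rw [mul_comm]

theorem qtyped (hI : ∀ n, (∃ a b, I n = Finset.Ico a b) ∧ Typed I (I n) (C.gate n)) (t : List C.N × C.N) :
    (∃ a b, I t.2 = Finset.Ico a b) ∧ Typed (fun s : List C.N × C.N => I s.2) (I t.2) (qgate C I φ t) := by
  classical
  refine ⟨(hI t.2).1, ?_⟩
  unfold qgate
  by_cases h1 : I t.2 = ∅
  · rw [if_pos h1]; exact h1
  rw [if_neg h1]
  have hT := (hI t.2).2
  revert hT
  generalize C.gate t.2 = g
  intro hT
  cases g with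
  | var x => exact hT
  | const c => exact hT
  | add l =>
    intro m hm
    obtain ⟨m', hm', rfl⟩ := List.mem_map.1 hm
    exact hT m' hm'
  | mul a b =>
    simp only
    split_ifs with h2
    · exact hT
    · exact ⟨hT.1.symm, by rw [hT.2, Finset.union_comm]⟩

/-- the nodes which are used -/
def qok (C : Circuit K (ℕ × L)) (I : C.N → Finset ℕ) (N : ℕ) (t : List C.N × C.N) : Prop :=
  2 ^ t.1.length * (I t.2).card ≤ N ∧ t.1.length ≤ Nat.log 2 N + 1

theorem qok_closed (hI : ∀ n, Typed I (I n) (C.gate n)) (N : ℕ) (t : List C.N × C.N) (ht : qok C I N t) :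
    ∀ s ∈ (qgate C I φ t).preds, qok C I N s := by
  intro s hs
  obtain ⟨h1, h2, h3⟩ := qgate_preds hs
  have h4 := Finset.card_le_card (sub_edge hI h1)
  rcases h3 with h3 | ⟨h3, a, b, hab, rfl, h6⟩
  · unfold qok
    rw [h3]
    exact ⟨(Nat.mul_le_mul_left _ h4).trans ht.1, ht.2⟩
  · have h7 : (I s.2).card + (I b).card = (I t.2).card := by
      have hT := hI t.2
      rcases hab with hab | hab
      · rw [hab] at hT
        rw [hT.2, Finset.card_union_of_disjoint hT.1]
      · rw [hab] at hT
        rw [hT.2, Finset.card_union_of_disjoint hT.1, add_comm]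
    have h8 : 1 ≤ (I t.2).card := Finset.card_pos.2 (Finset.nonempty_iff_ne_empty.2 h2)
    unfold qok
    rw [h3, List.length_cons]
    constructor
    · calc 2 ^ (t.1.length + 1) * (I s.2).card = 2 ^ t.1.length * (2 * (I s.2).card) := by ring
        _ ≤ 2 ^ t.1.length * (I t.2).card := Nat.mul_le_mul_left _ (by omega)
        _ ≤ N := ht.1
    · have h9 : 2 ^ t.1.length ≤ N := by
        calc 2 ^ t.1.length = 2 ^ t.1.length * 1 := (mul_one _).symm
          _ ≤ 2 ^ t.1.length * (I t.2).card := Nat.mul_le_mul_left _ h8
          _ ≤ N := ht.1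
      have hN : N ≠ 0 := by
        have : 0 < 2 ^ t.1.length := by positivity
        omega
      have := (Nat.le_log_iff_pow_le (by norm_num) hN).2 h9
      omega

theorem getElem_inj {α : Type} {m : ℕ} {l l' : List α} (h : l.length ≤ m) (h' : l'.length ≤ m)
    (heq : ∀ i : Fin m, l[i.1]? = l'[i.1]?) : l = l' := by
  apply List.ext_getElem?
  intro i
  by_cases hi : i < m
  · exact heq ⟨i, hi⟩
  · rw [List.getElem?_eq_none (by omega), List.getElem?_eq_none (by omega)]

open Classical in
/-- a finite set which contains the nodes which are used -/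
theorem exists_qB (N : ℕ) : ∃ B : Finset (List C.N × C.N), (∀ t, qok C I N t → t ∈ B) ∧
    B.card ≤ (C.size + 1) ^ (Nat.log 2 N + 2) := by
  let := C.fin
  set m := Nat.log 2 N + 1 with hm
  have hinj : Function.Injective (fun t : {t : List C.N × C.N // t.1.length ≤ m} =>
      ((fun i : Fin m => t.1.1[i.1]?, t.1.2) : (Fin m → Option C.N) × C.N)) := by
    rintro ⟨⟨l, x⟩, hl⟩ ⟨⟨l', x'⟩, hl'⟩ h
    simp only [Prod.mk.injEq] at h
    obtain ⟨h1, rfl⟩ := h
    have := getElem_inj hl hl' fun i => congrFun h1 i
    subst this
    rfl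
  have hfin : Finite {t : List C.N × C.N // t.1.length ≤ m} := Finite.of_injective _ hinj
  have hset : {t : List C.N × C.N | t.1.length ≤ m}.Finite := hfin
  refine ⟨hset.toFinset, fun t ht => ?_, ?_⟩
  · rw [Set.Finite.mem_toFinset]; exact ht.2
  · have h1 : hset.toFinset.card = Nat.card {t : List C.N × C.N // t.1.length ≤ m} :=
      (Set.ncard_eq_toFinset_card _ hset).symm
    rw [h1]
    have h2 := Nat.card_le_card_of_injective _ hinj
    refine h2.trans ?_
    rw [Nat.card_prod, Nat.card_fun, Nat.card_eq_fintype_card, Nat.card_eq_fintype_card, Nat.card_eq_fintype_card,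
      Fintype.card_option, Fintype.card_fin]
    have h3 : Fintype.card C.N = C.size := rfl
    rw [h3, pow_succ]
    exact Nat.mul_le_mul_left _ (Nat.le_succ _)

/-- every circuit whose index sets are intervals has a weakly skew one of quasi-polynomial size -/
theorem quasi (hI : ∀ n, (∃ a b, I n = Finset.Ico a b) ∧ Typed I (I n) (C.gate n)) {f : MvPolynomial (ℕ × L) K}
    (hc : C.Computes f) (h2 : C.FanInTwo) (N : ℕ) (hN : (I C.out).card ≤ N) :
    ∃ C' : Circuit K (ℕ × L), C'.Computes f ∧ C'.FanInTwo ∧ C'.WeaklySkew ∧ IntervalSML C' ∧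
      C'.size ≤ (C.size + 1) ^ (Nat.log 2 N + 2) := by
  classical
  obtain ⟨φ, hφ, hout⟩ := hc
  have hT : ∀ n, Typed I (I n) (C.gate n) := fun n => (hI n).2
  obtain ⟨B, hB, hBc⟩ := exists_qB (C := C) (I := I) N
  have hroot : qok C I N (([] : List C.N), C.out) := ⟨by simpa using hN, Nat.zero_le _⟩
  have hfin : {t | qok C I N t}.Finite := B.finite_toSet.subset fun t ht => hB t ht
  have hR : WellFounded (fun s t : List C.N × C.N => C.Edge s.2 t.2) := InvImage.wf Prod.snd C.wf
  have hrk : ∀ t, qok C I N t → ∀ s ∈ (qgate C I φ t).preds, C.Edge s.2 t.2 := fun t _ s hs => (qgate_preds hs).1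
  refine ⟨mkC (qgate C I φ) ([], C.out) (qok C I N) hroot (qok_closed hT N) hR hrk hfin, ?_, ?_, ?_, ?_, ?_⟩
  · have := mkC_computes (qgate C I φ) ([], C.out) (qok C I N) hroot (qok_closed hT N) hR hrk hfin
      (fun s => φ s.2) (fun t _ => qval_eq hT hφ t)
    rwa [hout] at this
  · refine mkC_fanInTwo _ _ _ _ _ _ _ _ ?_
    intro t l _ hl
    unfold qgate at hl
    by_cases h1 : I t.2 = ∅
    · rw [if_pos h1] at hl; cases hl
    rw [if_neg h1] at hl
    have h3 := h2 t.2
    revert h3 hl
    generalize C.gate t.2 = g
    intro hl h3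
    cases g with
    | var x => cases hl
    | const c => cases hl
    | add l' =>
      simp only [Gate.add.injEq] at hl
      rw [← hl, List.length_map]
      exact h3 l' rfl
    | mul a b =>
      simp only at hl
      split_ifs at hl
  · -- weakly skew
    set C' := mkC (qgate C I φ) ([], C.out) (qok C I N) hroot (qok_closed hT N) hR hrk hfin with hC'
    have hedge : ∀ n m : C'.N, C'.Edge n m ↔ n.1 ∈ (qgate C I φ m.1).preds := fun n m => mem_restr _ _ _
    -- nodes with the given suffix
    have hsuf : ∀ (p t : C'.N), p.1.1 = t.1.2 :: t.1.1 → C'.Edge p t → ∀ n : C'.N,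
        p.1.1 <:+ n.1.1 → C'.Below n p := by
      intro p t hp hpt n hn
      have hpath : ∀ x : List C.N × C.N, ∀ hx : Bel (qgate C I φ) ([], C.out) x, p.1.1 <:+ x.1 →
          C'.Below ⟨x, hx⟩ p := by
        intro x hx
        have hx' := hx
        unfold Bel at hx'
        induction hx' using Relation.ReflTransGen.head_induction_on with
        | refl =>
          intro hs
          exfalso
          rw [hp] at hs
          have := hs.length_le
          simp at this
        | @head x y hxy hy ih =>
          intro hs
          have hyB : Bel (qgate C I φ) ([], C.out) y := hy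
          have hE : C'.Edge ⟨x, hx⟩ ⟨y, hyB⟩ := (hedge _ _).2 hxy
          by_cases h3 : p.1.1 <:+ y.1
          · exact Relation.ReflTransGen.head hE (ih hyB h3)
          · obtain ⟨_, _, h4 | ⟨h4, _⟩⟩ := qgate_preds hxy
            · rw [h4] at hs; exact absurd hs h3
            · rw [h4, List.suffix_cons_iff] at hs
              rcases hs with hs | hs
              · -- `x` is `p`
                have h5 : p.1.1 = y.2 :: y.1 := hs
                have h6 : t.1 = y := by
                  rw [hp] at h5
                  obtain ⟨h7, h8⟩ := List.cons.inj h5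
                  exact Prod.ext h8 h7
                have h7 : p.1 = x := by
                  have h8 := (hedge p t).1 hpt
                  rw [h6] at h8
                  exact qgate_priv h8 hxy h5 h4
                have h9 : p = ⟨x, hx⟩ := Subtype.ext h7
                rw [← h9]
                exact Relation.ReflTransGen.refl
              · exact absurd hs h3
      exact hpath n.1 n.2 hn
    have hsuf' : ∀ (p n : C'.N), C'.Below n p → p.1.1 <:+ n.1.1 := by
      intro p n hn
      unfold Circuit.Below at hn
      induction hn using Relation.ReflTransGen.head_induction_on with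
      | refl => exact List.suffix_rfl
      | @head a b hab _ ih =>
        obtain ⟨_, _, h4 | ⟨h4, _⟩⟩ := qgate_preds ((hedge _ _).1 hab)
        · rw [h4]; exact ih
        · rw [h4]; exact ih.trans (List.suffix_cons _ _)
    have hcut : ∀ (p q t : C'.N), p.1.1 = t.1.2 :: t.1.1 → C'.Edge p t → q.1.1 = t.1.1 → C'.Cut p q t := by
      intro p q t hp hpt hq
      refine ⟨?_, ?_⟩
      · rintro rfl
        rw [hp] at hq
        have := congrArg List.length hq
        simp at this
      · intro n m hn hm hnm
        have h3 := hsuf' p n hn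
        have h4 : ¬ p.1.1 <:+ m.1.1 := fun h => hm (hsuf p t hp hpt m h)
        have hnm' := (hedge _ _).1 hnm
        obtain ⟨_, _, h5 | ⟨h5, _⟩⟩ := qgate_preds hnm'
        · rw [h5] at h3; exact absurd h3 h4
        · rw [h5, List.suffix_cons_iff] at h3
          rcases h3 with h3 | h3
          · have h6 : t.1 = m.1 := by
              have h3' := h3
              rw [hp] at h3'
              obtain ⟨h7, h8⟩ := List.cons.inj h3'
              exact Prod.ext h8 h7
            have h7 : t = m := Subtype.ext h6
            refine ⟨?_, h7.symm⟩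
            have h8 := (hedge p t).1 hpt
            rw [h6] at h8
            exact (Subtype.ext (qgate_priv h8 hnm' h3 h5)).symm
          · exact absurd h3 h4
    intro t a b hg
    have hEa : C'.Edge a t := by unfold Circuit.Edge; rw [hg]; simp [Gate.preds]
    have hEb : C'.Edge b t := by unfold Circuit.Edge; rw [hg]; simp [Gate.preds]
    -- the lists of the arguments
    have hlist : (a.1.1 = t.1.2 :: t.1.1 ∧ b.1.1 = t.1.1) := by
      have h3 : restr (qgate C I φ t.1) (fun _ hs => Relation.ReflTransGen.head hs t.2) = .mul a b := hg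
      generalize_proofs pf at h3
      have key : ∀ (g : Gate K (ℕ × L) (List C.N × C.N)) (pf : ∀ s ∈ g.preds, Bel (qgate C I φ) ([], C.out) s),
          restr g pf = .mul a b → g = .mul a.1 b.1 := by
        intro g pf h
        cases g with
        | var x => simp [restr] at h
        | const c => simp [restr] at h
        | add l => simp [restr] at h
        | mul a' b' =>
          simp only [restr, Gate.mul.injEq] at h
          rw [← h.1, ← h.2]
      have h4 := key _ pf h3
      unfold qgate at h4
      by_cases h1 : I t.1.2 = ∅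
      · rw [if_pos h1] at h4; cases h4
      rw [if_neg h1] at h4
      revert h4
      generalize C.gate t.1.2 = g
      intro h4
      cases g with
      | var x => cases h4
      | const c => cases h4
      | add l => cases h4
      | mul a' b' =>
        simp only at h4
        split_ifs at h4 <;> simp only [Gate.mul.injEq] at h4 <;> rw [← h4.1, ← h4.2] <;> exact ⟨rfl, rfl⟩
    exact Or.inl (hcut a b t hlist.1 hEa hlist.2)
  · exact mkC_typed _ _ _ _ _ _ _ _ (fun s => I s.2) (fun t _ => qtyped hI t)
  · exact (mkC_size _ _ _ _ _ _ _ _ B hB).trans hBc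

end

end Pool.Agent.H5DY
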