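import Pool.Agent.H5DY.Lower
import Pool.Agent.H5DY.Quasi

/-!
# The estimates, degree and variables
-/

set_option autoImplicit false

namespace Pool.Agent.H5DY

open Pool.Agent.H20VP Finset MvPolynomial

theorem om_eq (r : ℕ) : om r + 6 = 6 * 6 ^ r := by
  induction r with
  | zero => rfl
  | succ r ih => rw [om_succ, pow_succ]; omega

theorem len_le (r : ℕ) : len r ≤ 6 ^ r * (9 * r + 2) := by
  induction r with
  | zero => exact le_refl _
  | succ r ih =>
    have h1 := om_eq r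
    have h2 : 1 ≤ 6 ^ r := Nat.one_le_pow _ _ (by norm_num)
    rw [len_succ, pow_succ]
    have h3 : 6 ^ r * 6 * (9 * (r + 1) + 2) = 6 * (6 ^ r * (9 * r + 2)) + 54 * 6 ^ r := by ring
    rw [h3]
    omega

theorem Q_le (h : ℕ) : Q h ≤ 2 ^ (4 * h + 4) := by
  have h1 := om_eq h
  have h2 := len_le h
  have h3 : Q h ≤ 6 ^ h * (9 * h + 8) := by
    have h4 : 6 ^ h * (9 * h + 8) = 6 ^ h * (9 * h + 2) + 6 * 6 ^ h := by ring
    unfold Q
    omega
  have h5 : 9 * h + 8 ≤ 2 ^ (h + 4) := by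
    clear h1 h2 h3
    induction h with
    | zero => norm_num
    | succ h ih =>
      have : 1 ≤ 2 ^ h := Nat.one_le_two_pow
      rw [show h + 1 + 4 = (h + 4) + 1 by ring, pow_succ]
      have : 2 ^ (h + 4) = 2 ^ h * 16 := by rw [pow_add]; norm_num
      omega
  calc Q h ≤ 6 ^ h * (9 * h + 8) := h3
    _ ≤ 8 ^ h * 2 ^ (h + 4) := Nat.mul_le_mul (Nat.pow_le_pow_left (by norm_num) h) h5
    _ = 2 ^ (4 * h + 4) := by
        rw [show (8 : ℕ) = 2 ^ 3 by norm_num, ← pow_mul, ← pow_add]; congr 1; ring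

theorem sq_le (h : ℕ) : h * h + 1 ≤ 2 ^ (h + 1) := by
  induction h with
  | zero => norm_num
  | succ h ih =>
    rcases Nat.lt_or_ge h 2 with h1 | h1
    · interval_cases h <;> norm_num
    · rw [show h + 1 + 1 = (h + 1) + 1 by ring, pow_succ]
      nlinarith

theorem Mb_le (h : ℕ) : Mb h ≤ 2 ^ (2 * h + 1) := by
  calc Mb h ≤ (h * h + 1) * 2 ^ h := Nat.sub_le _ _
    _ ≤ 2 ^ (h + 1) * 2 ^ h := Nat.mul_le_mul_right _ (sq_le h)
    _ = 2 ^ (2 * h + 1) := by rw [← pow_add]; congr 1; ring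

theorem Nh_le (h : ℕ) : Nh h (lb h) ≤ 2 ^ (10 * h + 12) := by
  have h1 := Q_le h
  have h2 := Mb_le h
  have h3 := sq_le h
  have h4 : Q h * Mb h ≤ 2 ^ (6 * h + 5) := by
    calc Q h * Mb h ≤ 2 ^ (4 * h + 4) * 2 ^ (2 * h + 1) := Nat.mul_le_mul h1 h2
      _ = 2 ^ (6 * h + 5) := by rw [← pow_add]; congr 1; ring
  have h5 : (2 : ℕ) ^ (h + 1) ≤ 2 ^ (6 * h + 5) := Nat.pow_le_pow_right (by norm_num) (by omega)
  have h6 : (2 : ℕ) ^ (2 * h + 1) ≤ 2 ^ (6 * h + 5) := Nat.pow_le_pow_right (by norm_num) (by omega)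
  have h7 : lb h + Mb h + Mb h ≤ 2 ^ (6 * h + 8) := by
    have h8 : (2 : ℕ) ^ (6 * h + 8) = 8 * 2 ^ (6 * h + 5) := by
      rw [show 6 * h + 8 = (6 * h + 5) + 3 by ring, pow_add]; norm_num; ring
    rw [h8]
    unfold lb
    omega
  calc Nh h (lb h) = Q h * (lb h + Mb h + Mb h) := by unfold Nh; ring
    _ ≤ 2 ^ (4 * h + 4) * 2 ^ (6 * h + 8) := Nat.mul_le_mul h1 h7
    _ = 2 ^ (10 * h + 12) := by rw [← pow_add]; congr 1; ring

theorem sqrt_le (n : ℕ) : Nat.sqrt n ≤ 2 ^ (Nat.log 2 n / 2 + 1) := by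
  have h1 : n < 2 ^ (Nat.log 2 n + 1) := Nat.lt_pow_succ_log_self (by norm_num) n
  have h2 : Nat.sqrt n < 2 ^ (Nat.log 2 n / 2 + 1) := by
    rw [Nat.sqrt_lt']
    refine h1.trans_le ?_
    rw [← pow_mul]
    exact Nat.pow_le_pow_right (by norm_num) (by omega)
  exact h2.le

/-- **The lower bound**, in terms of `n`. -/
theorem lower_log {K : Type} [Field K] (C : Circuit K (ℕ × Bool × Bool)) (n : ℕ) (hn : 1 ≤ n)
    (hcomp : C.Computes (dyck K n 0)) {I : C.N → Finset ℕ}
    (hI : ∀ n, (∃ a b, I n = Finset.Ico a b) ∧ Typed I (I n) (C.gate n)) {ρ : C.N → ℕ}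
    (hρ : Ranked C I ρ (Nat.sqrt n)) :
    2 ^ ((Nat.log 2 n - 31) * (Nat.log 2 n - 31 - 10 * ρ C.out) / 100) ≤ C.size := by
  rcases Nat.lt_or_ge (Nat.log 2 n) 32 with h1 | h1
  · have h2 : Nat.log 2 n - 31 = 0 := by omega
    rw [h2]
    let := C.fin
    have : 0 < Fintype.card C.N := Fintype.card_pos_iff.2 ⟨C.out⟩
    rw [zero_mul, Nat.zero_div, pow_zero]
    exact this
  · set l := Nat.log 2 n with hl
    set h := (l - 12) / 10 with hh
    have h2 : 1 ≤ h := by omega
    have h3 : 10 * h + 12 ≤ l := by omega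
    have hlow : 2 ^ l ≤ n := Nat.pow_log_le_self 2 (by omega)
    have h4 : Nh h (lb h + Nat.sqrt n) ≤ 2 * n := by
      have e1 : Nh h (lb h + Nat.sqrt n) = Nh h (lb h) + Q h * Nat.sqrt n := by unfold Nh; ring
      have e2 : Nh h (lb h) ≤ 2 ^ l := (Nh_le h).trans (Nat.pow_le_pow_right (by norm_num) h3)
      have e3 : Q h * Nat.sqrt n ≤ 2 ^ l := by
        calc Q h * Nat.sqrt n ≤ 2 ^ (4 * h + 4) * 2 ^ (l / 2 + 1) := Nat.mul_le_mul (Q_le h) (sqrt_le n)
          _ = 2 ^ (4 * h + 4 + (l / 2 + 1)) := by rw [← pow_add]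
          _ ≤ 2 ^ l := Nat.pow_le_pow_right (by norm_num) (by omega)
      omega
    refine le_trans (Nat.pow_le_pow_right (by norm_num) ?_) (lower C n hcomp hI hρ h (lb h + Nat.sqrt n)
      (Nat.le_add_right _ _) (by unfold lb; omega) h4)
    have h5 : l - 31 ≤ 10 * h := by omega
    have h6 : l - 31 - 10 * ρ C.out ≤ 10 * (h - 1 - ρ C.out) := by omega
    calc (l - 31) * (l - 31 - 10 * ρ C.out) / 100 ≤ (10 * h) * (10 * (h - 1 - ρ C.out)) / 100 :=
          Nat.div_le_div_right (Nat.mul_le_mul h5 h6)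
      _ = h * (h - 1 - ρ C.out) := by
          rw [show (10 * h) * (10 * (h - 1 - ρ C.out)) = 100 * (h * (h - 1 - ρ C.out)) by ring,
            Nat.mul_div_cancel_left _ (by norm_num)]

/-- the lower bound is not polynomial -/
theorem superpoly (c : ℕ) : ∃ n, 1 ≤ n ∧ ∀ r, 20 * r ≤ Nat.log 2 n →
    c * n ^ c < 2 ^ ((Nat.log 2 n - 31) * (Nat.log 2 n - 31 - 10 * r) / 100) := by
  refine ⟨2 ^ (600 * (c + 2)), Nat.one_le_two_pow, fun r hr => ?_⟩
  rw [Nat.log_pow (by norm_num)] at hr ⊢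
  have h1 : 500 * (c + 2) ≤ 600 * (c + 2) - 31 := by omega
  have h2 : 200 * (c + 2) ≤ 600 * (c + 2) - 31 - 10 * r := by omega
  have h3 : 1000 * (c + 2) * (c + 2) ≤ (600 * (c + 2) - 31) * (600 * (c + 2) - 31 - 10 * r) / 100 := by
    rw [Nat.le_div_iff_mul_le (by norm_num)]
    calc 1000 * (c + 2) * (c + 2) * 100 = (500 * (c + 2)) * (200 * (c + 2)) := by ring
      _ ≤ _ := Nat.mul_le_mul h1 h2
  have hc : c < 2 ^ c := Nat.lt_two_pow_self
  calc c * (2 ^ (600 * (c + 2))) ^ c < 2 ^ c * (2 ^ (600 * (c + 2))) ^ c :=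
        Nat.mul_lt_mul_of_pos_right hc (by positivity)
    _ = 2 ^ (c + 600 * (c + 2) * c) := by rw [← pow_mul, ← pow_add]
    _ ≤ 2 ^ ((600 * (c + 2) - 31) * (600 * (c + 2) - 31 - 10 * r) / 100) :=
        Nat.pow_le_pow_right (by norm_num) (le_trans (by nlinarith) h3)

theorem dyck_degree (K : Type) [Field K] : ∀ m a : ℕ, (dyck K m a).totalDegree ≤ 2 * m := by
  intro m
  induction m using Nat.strong_induction_on with
  | _ m ih =>
    intro a
    rcases m with _ | m
    · rw [dyck_zero]; simp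
    · rw [dyck_succ]
      refine (totalDegree_finsetSum _ _).trans (Finset.sup_le fun i hi => ?_)
      rw [Finset.mem_range] at hi
      refine (totalDegree_mul _ _).trans ?_
      have h1 : (∑ c : Bool, (X (a, true, c) * dyck K i (a + 1) * X (a + 2 * i + 1, false, c) :
          MvPolynomial (ℕ × Bool × Bool) K)).totalDegree ≤ 2 * i + 2 := by
        refine (totalDegree_finsetSum _ _).trans (Finset.sup_le fun c _ => ?_)
        refine (totalDegree_mul _ _).trans ?_
        have h2 := totalDegree_mul (X (a, true, c)) (dyck K i (a + 1))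
        rw [totalDegree_X] at h2
        rw [totalDegree_X]
        have h3 := ih i (by omega) (a + 1)
        omega
      have h2 := ih (m - i) (by omega) (a + 2 * i + 2)
      omega

theorem dyck_vars (K : Type) [Field K] : ∀ m a : ℕ, ∀ x ∈ (dyck K m a).vars, a ≤ x.1 ∧ x.1 < a + 2 * m := by
  classical
  intro m
  induction m using Nat.strong_induction_on with
  | _ m ih =>
    intro a x hx
    rcases m with _ | m
    · rw [dyck_zero] at hx; simp at hx
    · rw [dyck_succ] at hx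
      have h1 := vars_sum_subset _ _ hx
      rw [Finset.mem_biUnion] at h1
      obtain ⟨i, hi, h2⟩ := h1
      rw [Finset.mem_range] at hi
      rcases Finset.mem_union.1 (vars_mul _ _ h2) with h3 | h3
      · have h4 := vars_sum_subset _ _ h3
        rw [Finset.mem_biUnion] at h4
        obtain ⟨c, _, h5⟩ := h4
        rcases Finset.mem_union.1 (vars_mul _ _ h5) with h6 | h6
        · rcases Finset.mem_union.1 (vars_mul _ _ h6) with h7 | h7
          · rw [vars_X, Finset.mem_singleton] at h7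
            subst h7
            exact ⟨le_refl _, by show a < _; omega⟩
          · have := ih i (by omega) (a + 1) x h7
            omega
        · rw [vars_X, Finset.mem_singleton] at h6
          subst h6
          exact ⟨by show a ≤ a + 2 * i + 1; omega, by show a + 2 * i + 1 < _; omega⟩
      · have := ih (m - i) (by omega) (a + 2 * i + 2) x h3
        omega

theorem dyck_vars_card (K : Type) [Field K] (n : ℕ) : (dyck K n 0).vars.card ≤ 8 * n := by
  classical
  have h1 : (dyck K n 0).vars ⊆ (range (2 * n)) ×ˢ (univ : Finset (Bool × Bool)) := by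
    intro x hx
    rw [Finset.mem_product]
    refine ⟨?_, Finset.mem_univ _⟩
    have := dyck_vars K n 0 x hx
    rw [Finset.mem_range]; omega
  refine (Finset.card_le_card h1).trans ?_
  rw [Finset.card_product, Finset.card_range, Finset.card_univ]
  simp only [Fintype.card_prod, Fintype.card_bool]
  omega

/-- the circuit of cubic size, with its index sets -/
theorem small_typed (K : Type) [Field K] {n : ℕ} (hn : 1 ≤ n) :
    ∃ (C : Circuit K (ℕ × Bool × Bool)) (I : C.N → Finset ℕ), C.Computes (dyck K n 0) ∧ C.FanInTwo ∧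
      (∀ n, (∃ a b, I n = Finset.Ico a b) ∧ Typed I (I n) (C.gate n)) ∧ (I C.out).card ≤ 2 * n ∧
      C.size ≤ 27 * n ^ 3 := by
  classical
  have hroot : dok n (Fn n 0) := dok_Fn (by omega)
  have hfin : {t | dok n t}.Finite := (dB n).finite_toSet.subset fun t ht => mem_dB t ht
  have hR : WellFounded (fun s t : Nd => drk s < drk t) := InvImage.wf drk (wellFounded_lt)
  refine ⟨mkC (dgate K) (Fn n 0) (dok n) hroot (dok_closed K n) hR (drk_lt K n) hfin, fun t => dI t.1, ?_, ?_, ?_, ?_,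
    ?_⟩
  · have := mkC_computes (dgate K) (Fn n 0) (dok n) hroot (dok_closed K n) hR (drk_lt K n) hfin (dval K)
      (fun t _ => dval_eq K t)
    rwa [dval_Fn] at this
  · refine mkC_fanInTwo _ _ _ _ _ _ _ _ ?_
    intro t l _ hl
    cases t with
    | v p o c => simp [dgate] at hl
    | one => simp [dgate] at hl
    | A a j c => simp [dgate] at hl
    | B' a j c => simp [dgate] at hl
    | B a j => simp only [dgate, Gate.add.injEq] at hl; rw [← hl]; rfl
    | P a m j => simp [dgate] at hl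
    | S a m j =>
      cases j with
      | zero => simp [dgate] at hl
      | succ j => simp only [dgate, Gate.add.injEq] at hl; rw [← hl]; rfl
  · exact mkC_typed' (dgate K) (Fn n 0) (dok n) hroot (dok_closed K n) hR (drk_lt K n) hfin dI (dI_typed K n)
  · show (dI (Fn n 0)).card ≤ 2 * n
    rw [dI_Fn, Nat.card_Ico]; omega
  · exact (mkC_size _ _ _ _ _ _ _ _ (dB n) (fun t ht => mem_dB t ht)).trans (card_dB hn)

/-- the weakly skew circuit of quasi-polynomial size -/
theorem quasi_circuit (K : Type) [Field K] {n : ℕ} (hn : 1 ≤ n) :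
    ∃ C : Circuit K (ℕ × Bool × Bool), C.Computes (dyck K n 0) ∧ C.FanInTwo ∧ C.WeaklySkew ∧ IntervalSML C ∧
      C.size ≤ (28 * n ^ 3) ^ (Nat.log 2 n + 3) := by
  classical
  obtain ⟨C, I, h1, h2, hI, hI', h3⟩ := small_typed K hn
  obtain ⟨C', c1, c2, c3, c4, c5⟩ := quasi hI h1 h2 (2 * n) hI'
  refine ⟨C', c1, c2, c3, c4, c5.trans ?_⟩
  have h4 : 1 ≤ n ^ 3 := Nat.one_le_pow _ _ hn
  have h5 : Nat.log 2 (2 * n) = Nat.log 2 n + 1 := by
    rw [mul_comm]; exact Nat.log_mul_base (by norm_num) (by omega)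
  rw [h5]
  exact Nat.pow_le_pow_left (by omega) _

end Pool.Agent.H5DY
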