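import Mathlib

/-!
# A walk which is made of nested copies with separated heights
-/

set_option autoImplicit false

namespace Pool.Agent.H5DY

/-- concatenation of the walk `f` of length `n` and the walk `g` -/
def cat (f : ℕ → ℤ) (n : ℕ) (g : ℕ → ℤ) (t : ℕ) : ℤ := if t ≤ n then f t else f n + g (t - n)

theorem cat_left (f : ℕ → ℤ) (n : ℕ) (g : ℕ → ℤ) {t : ℕ} (h : t ≤ n) : cat f n g t = f t := if_pos h

theorem cat_zero (f : ℕ → ℤ) (n : ℕ) (g : ℕ → ℤ) : cat f n g 0 = f 0 := if_pos (Nat.zero_le _)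

theorem cat_right (f : ℕ → ℤ) (n : ℕ) (g : ℕ → ℤ) (h0 : g 0 = 0) (t : ℕ) : cat f n g (n + t) = f n + g t := by
  unfold cat
  split_ifs with h
  · have : t = 0 := by omega
    subst this
    rw [h0]; simp
  · rw [Nat.add_sub_cancel_left]

/-- steps `1` and `-1` on the first `n` steps -/
def Steps (n : ℕ) (f : ℕ → ℤ) : Prop := ∀ t < n, f (t + 1) = f t + 1 ∨ f (t + 1) = f t - 1

theorem Steps.cat {f g : ℕ → ℤ} {n k : ℕ} (hf : Steps n f) (hg : Steps k g) (h0 : g 0 = 0) :
    Steps (n + k) (cat f n g) := by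
  intro t ht
  rcases Nat.lt_or_ge t n with h | h
  · rw [cat_left f n g (by omega), cat_left f n g (by omega)]
    exact hf t h
  · obtain ⟨t', rfl⟩ := Nat.exists_eq_add_of_le h
    rw [show n + t' + 1 = n + (t' + 1) by ring, cat_right f n g h0, cat_right f n g h0]
    rcases hg t' (by omega) with h1 | h1
    · left; rw [h1]; ring
    · right; rw [h1]; ring

/-- the walk upwards -/
def up (t : ℕ) : ℤ := t
/-- the walk downwards -/
def dn (t : ℕ) : ℤ := -t

theorem up_zero : up 0 = 0 := rfl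
theorem dn_zero : dn 0 = 0 := rfl

theorem steps_up (n : ℕ) : Steps n up := fun t _ => Or.inl (by unfold up; push_cast; ring)
theorem steps_dn (n : ℕ) : Steps n dn := fun t _ => Or.inr (by unfold dn; push_cast; ring)

/-- the final height of the walk of level `r` -/
def om : ℕ → ℕ
  | 0 => 0
  | r + 1 => 6 * om r + 30

/-- the length of the walk of level `r` -/
def len : ℕ → ℕ
  | 0 => 2
  | r + 1 => 6 * len r + 8 * om r + 54

/-- six walks and the five slopes between them -/
def six (f : ℕ → ℤ) (l m : ℕ) : ℕ → ℤ :=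
  cat f l <| cat up (m + 12) <| cat f l <| cat dn (2 * m + 6) <| cat f l <| cat up (2 * m + 18) <| cat f l <|
    cat dn (2 * m + 6) <| cat f l <| cat up (m + 12) f

/-- the walk of level `r` -/
def J : ℕ → ℕ → ℤ
  | 0 => fun t => if t = 1 then 1 else 0
  | r + 1 => six (J r) (len r) (om r)

/-- the offsets of the six copies -/
def off (l m : ℕ) : Fin 6 → ℕ :=
  ![0, l + m + 12, 2 * l + 3 * m + 18, 3 * l + 5 * m + 36, 4 * l + 7 * m + 42, 5 * l + 8 * m + 54]

/-- the heights of the six copies -/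
def slot : Fin 6 → ℕ := ![0, 2, 1, 4, 3, 5]

theorem slot_le (j : Fin 6) : slot j ≤ 5 := by revert j; decide

section

variable {f : ℕ → ℤ} {l m : ℕ} (h0 : f 0 = 0) (hl : f l = m)

include h0 hl

theorem six_copy (j : Fin 6) {t : ℕ} (ht : t ≤ l) :
    six f l m (off l m j + t) = (slot j * (m + 6) : ℕ) + f t := by
  fin_cases j
  · show six f l m (0 + t) = ((0 * (m + 6) : ℕ) : ℤ) + f t
    rw [zero_add, six, cat_left _ _ _ ht]; simp
  · show six f l m (l + m + 12 + t) = ((2 * (m + 6) : ℕ) : ℤ) + f t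
    rw [show l + m + 12 + t = l + ((m + 12) + t) by ring, six,
      cat_right _ _ _ (by simp [cat_zero, up_zero]),
      cat_right _ _ _ (by simp [cat_zero, h0]), cat_left _ _ _ ht, hl]
    unfold up
    push_cast
    ring
  · show six f l m (2 * l + 3 * m + 18 + t) = ((1 * (m + 6) : ℕ) : ℤ) + f t
    rw [show 2 * l + 3 * m + 18 + t = l + ((m + 12) + (l + ((2 * m + 6) + t))) by ring, six,
      cat_right _ _ _ (by simp [cat_zero, up_zero]), cat_right _ _ _ (by simp [cat_zero, h0]),
      cat_right _ _ _ (by simp [cat_zero, dn_zero]), cat_right _ _ _ (by simp [cat_zero, h0]),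
      cat_left _ _ _ ht, hl]
    unfold up dn
    push_cast
    ring
  · show six f l m (3 * l + 5 * m + 36 + t) = ((4 * (m + 6) : ℕ) : ℤ) + f t
    rw [show 3 * l + 5 * m + 36 + t =
        l + ((m + 12) + (l + ((2 * m + 6) + (l + ((2 * m + 18) + t))))) by ring, six,
      cat_right _ _ _ (by simp [cat_zero, up_zero]), cat_right _ _ _ (by simp [cat_zero, h0]),
      cat_right _ _ _ (by simp [cat_zero, dn_zero]), cat_right _ _ _ (by simp [cat_zero, h0]),
      cat_right _ _ _ (by simp [cat_zero, up_zero]), cat_right _ _ _ (by simp [cat_zero, h0]),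
      cat_left _ _ _ ht, hl]
    unfold up dn
    push_cast
    ring
  · show six f l m (4 * l + 7 * m + 42 + t) = ((3 * (m + 6) : ℕ) : ℤ) + f t
    rw [show 4 * l + 7 * m + 42 + t =
        l + ((m + 12) + (l + ((2 * m + 6) + (l + ((2 * m + 18) + (l + ((2 * m + 6) + t))))))) by ring, six,
      cat_right _ _ _ (by simp [cat_zero, up_zero]), cat_right _ _ _ (by simp [cat_zero, h0]),
      cat_right _ _ _ (by simp [cat_zero, dn_zero]), cat_right _ _ _ (by simp [cat_zero, h0]),
      cat_right _ _ _ (by simp [cat_zero, up_zero]), cat_right _ _ _ (by simp [cat_zero, h0]),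
      cat_right _ _ _ (by simp [cat_zero, dn_zero]), cat_right _ _ _ (by simp [cat_zero, h0]),
      cat_left _ _ _ ht, hl]
    unfold up dn
    push_cast
    ring
  · show six f l m (5 * l + 8 * m + 54 + t) = ((5 * (m + 6) : ℕ) : ℤ) + f t
    rw [show 5 * l + 8 * m + 54 + t =
        l + ((m + 12) + (l + ((2 * m + 6) + (l + ((2 * m + 18) + (l + ((2 * m + 6) + (l + ((m + 12) + t))))))))) by
          ring, six,
      cat_right _ _ _ (by simp [cat_zero, up_zero]), cat_right _ _ _ (by simp [cat_zero, h0]),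
      cat_right _ _ _ (by simp [cat_zero, dn_zero]), cat_right _ _ _ (by simp [cat_zero, h0]),
      cat_right _ _ _ (by simp [cat_zero, up_zero]), cat_right _ _ _ (by simp [cat_zero, h0]),
      cat_right _ _ _ (by simp [cat_zero, dn_zero]), cat_right _ _ _ (by simp [cat_zero, h0]),
      cat_right _ _ _ (by simp [cat_zero, up_zero]), cat_right _ _ _ (by simp [h0]), hl]
    unfold up dn
    push_cast
    ring

omit h0 in
theorem six_slope0 {t : ℕ} (ht : t ≤ m + 12) : six f l m (l + t) = m + t := by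
  rw [six, cat_right _ _ _ (by simp [cat_zero, up_zero]), cat_left _ _ _ ht, hl]
  rfl

theorem six_slope1 {t : ℕ} (ht : t ≤ 2 * m + 6) : six f l m (2 * l + m + 12 + t) = 3 * m + 12 - t := by
  rw [show 2 * l + m + 12 + t = l + ((m + 12) + (l + t)) by ring, six,
    cat_right _ _ _ (by simp [cat_zero, up_zero]), cat_right _ _ _ (by simp [cat_zero, h0]),
    cat_right _ _ _ (by simp [cat_zero, dn_zero]), cat_left _ _ _ ht, hl]
  unfold up dn
  push_cast
  ring

theorem six_slope2 {t : ℕ} (ht : t ≤ 2 * m + 18) : six f l m (3 * l + 3 * m + 18 + t) = 2 * m + 6 + t := by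
  rw [show 3 * l + 3 * m + 18 + t = l + ((m + 12) + (l + ((2 * m + 6) + (l + t)))) by ring, six,
    cat_right _ _ _ (by simp [cat_zero, up_zero]), cat_right _ _ _ (by simp [cat_zero, h0]),
    cat_right _ _ _ (by simp [cat_zero, dn_zero]), cat_right _ _ _ (by simp [cat_zero, h0]),
    cat_right _ _ _ (by simp [cat_zero, up_zero]), cat_left _ _ _ ht, hl]
  unfold up dn
  push_cast
  ring

theorem six_slope3 {t : ℕ} (ht : t ≤ 2 * m + 6) : six f l m (4 * l + 5 * m + 36 + t) = 5 * m + 24 - t := by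
  rw [show 4 * l + 5 * m + 36 + t = l + ((m + 12) + (l + ((2 * m + 6) + (l + ((2 * m + 18) + (l + t)))))) by ring,
    six,
    cat_right _ _ _ (by simp [cat_zero, up_zero]), cat_right _ _ _ (by simp [cat_zero, h0]),
    cat_right _ _ _ (by simp [cat_zero, dn_zero]), cat_right _ _ _ (by simp [cat_zero, h0]),
    cat_right _ _ _ (by simp [cat_zero, up_zero]), cat_right _ _ _ (by simp [cat_zero, h0]),
    cat_right _ _ _ (by simp [cat_zero, dn_zero]), cat_left _ _ _ ht, hl]
  unfold up dn
  push_cast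
  ring

theorem six_slope4 {t : ℕ} (ht : t ≤ m + 12) : six f l m (5 * l + 7 * m + 42 + t) = 4 * m + 18 + t := by
  rw [show 5 * l + 7 * m + 42 + t =
      l + ((m + 12) + (l + ((2 * m + 6) + (l + ((2 * m + 18) + (l + ((2 * m + 6) + (l + t)))))))) by ring, six,
    cat_right _ _ _ (by simp [cat_zero, up_zero]), cat_right _ _ _ (by simp [cat_zero, h0]),
    cat_right _ _ _ (by simp [cat_zero, dn_zero]), cat_right _ _ _ (by simp [cat_zero, h0]),
    cat_right _ _ _ (by simp [cat_zero, up_zero]), cat_right _ _ _ (by simp [cat_zero, h0]),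
    cat_right _ _ _ (by simp [cat_zero, dn_zero]), cat_right _ _ _ (by simp [cat_zero, h0]),
    cat_right _ _ _ (by simp [cat_zero, up_zero]), cat_left _ _ _ ht, hl]
  unfold up dn
  push_cast
  ring

omit hl in
theorem six_steps (hs : Steps l f) : Steps (6 * l + 8 * m + 54) (six f l m) := by
  have h10 : Steps (m + 12 + l) (cat up (m + 12) f) := (steps_up _).cat hs h0
  have h9 := hs.cat h10 (by simp [cat_zero, up_zero])
  have h8 := (steps_dn (2 * m + 6)).cat h9 (by simp [cat_zero, h0])
  have h7 := hs.cat h8 (by simp [cat_zero, dn_zero])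
  have h6 := (steps_up (2 * m + 18)).cat h7 (by simp [cat_zero, h0])
  have h5 := hs.cat h6 (by simp [cat_zero, up_zero])
  have h4 := (steps_dn (2 * m + 6)).cat h5 (by simp [cat_zero, h0])
  have h3 := hs.cat h4 (by simp [cat_zero, dn_zero])
  have h2 := (steps_up (m + 12)).cat h3 (by simp [cat_zero, h0])
  have h1 := hs.cat h2 (by simp [cat_zero, up_zero])
  intro t ht
  exact h1 t (by omega)

omit h0 hl in
/-- a position is in a copy or in a slope -/
theorem six_cases {t : ℕ} (ht : t ≤ 6 * l + 8 * m + 54) :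
    (∃ j : Fin 6, ∃ t' ≤ l, t = off l m j + t') ∨
    (l ≤ t ∧ t ≤ l + m + 12) ∨ (2 * l + m + 12 ≤ t ∧ t ≤ 2 * l + 3 * m + 18) ∨
    (3 * l + 3 * m + 18 ≤ t ∧ t ≤ 3 * l + 5 * m + 36) ∨ (4 * l + 5 * m + 36 ≤ t ∧ t ≤ 4 * l + 7 * m + 42) ∨
    (5 * l + 7 * m + 42 ≤ t ∧ t ≤ 5 * l + 8 * m + 54) := by
  rcases Nat.lt_or_ge t l with h | h
  · exact Or.inl ⟨0, t, h.le, by simp [off]⟩
  rcases Nat.lt_or_ge t (l + m + 12) with h' | h'
  · exact Or.inr (Or.inl ⟨h, h'.le⟩)
  rcases Nat.lt_or_ge t (2 * l + m + 12) with h | h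
  · exact Or.inl ⟨1, t - (l + m + 12), by omega, by show t = l + m + 12 + _; omega⟩
  rcases Nat.lt_or_ge t (2 * l + 3 * m + 18) with h' | h'
  · exact Or.inr (Or.inr (Or.inl ⟨h, h'.le⟩))
  rcases Nat.lt_or_ge t (3 * l + 3 * m + 18) with h | h
  · exact Or.inl ⟨2, t - (2 * l + 3 * m + 18), by omega, by show t = 2 * l + 3 * m + 18 + _; omega⟩
  rcases Nat.lt_or_ge t (3 * l + 5 * m + 36) with h' | h'
  · exact Or.inr (Or.inr (Or.inr (Or.inl ⟨h, h'.le⟩)))
  rcases Nat.lt_or_ge t (4 * l + 5 * m + 36) with h | h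
  · exact Or.inl ⟨3, t - (3 * l + 5 * m + 36), by omega, by show t = 3 * l + 5 * m + 36 + _; omega⟩
  rcases Nat.lt_or_ge t (4 * l + 7 * m + 42) with h' | h'
  · exact Or.inr (Or.inr (Or.inr (Or.inr (Or.inl ⟨h, h'.le⟩))))
  rcases Nat.lt_or_ge t (5 * l + 7 * m + 42) with h | h
  · exact Or.inl ⟨4, t - (4 * l + 7 * m + 42), by omega, by show t = 4 * l + 7 * m + 42 + _; omega⟩
  rcases Nat.lt_or_ge t (5 * l + 8 * m + 54) with h' | h'
  · exact Or.inr (Or.inr (Or.inr (Or.inr (Or.inr ⟨h, h'.le⟩))))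
  · exact Or.inl ⟨5, t - (5 * l + 8 * m + 54), by omega, by show t = 5 * l + 8 * m + 54 + _; omega⟩

end

theorem J_zero (r : ℕ) : J r 0 = 0 := by
  induction r with
  | zero => simp [J]
  | succ r ih => rw [J, six, cat_zero, ih]

theorem J_len (r : ℕ) : J r (len r) = om r := by
  induction r with
  | zero => simp [J, len, om]
  | succ r ih =>
    have h := six_copy (J_zero r) ih 5 (le_refl (len r))
    rw [ih] at h
    have h1 : off (len r) (om r) 5 + len r = len (r + 1) := by
      show 5 * len r + 8 * om r + 54 + len r = 6 * len r + 8 * om r + 54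
      ring
    rw [h1] at h
    show six (J r) (len r) (om r) (len (r + 1)) = _
    rw [h]
    show ((5 * (om r + 6) : ℕ) : ℤ) + _ = ((6 * om r + 30 : ℕ) : ℤ)
    push_cast
    ring

theorem J_steps (r : ℕ) : Steps (len r) (J r) := by
  induction r with
  | zero =>
    intro t ht
    have : t = 0 ∨ t = 1 := by
      have : t < 2 := ht
      omega
    rcases this with rfl | rfl
    · left; simp [J]
    · right; simp [J]
  | succ r ih => exact six_steps (J_zero r) ih

theorem J_copy (r : ℕ) (j : Fin 6) {t : ℕ} (ht : t ≤ len r) :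
    J (r + 1) (off (len r) (om r) j + t) = (slot j * (om r + 6) : ℕ) + J r t :=
  six_copy (J_zero r) (J_len r) j ht

theorem J_range (r : ℕ) : ∀ t ≤ len r, 0 ≤ J r t ∧ J r t ≤ om r + 1 := by
  induction r with
  | zero =>
    intro t _
    simp only [J, om]
    split_ifs <;> simp
  | succ r ih =>
    intro t ht
    have hom : (om (r + 1) : ℤ) = 6 * om r + 30 := by
      show ((6 * om r + 30 : ℕ) : ℤ) = _
      push_cast; ring
    rw [hom]
    rcases six_cases (l := len r) (m := om r) ht with ⟨j, t', ht', rfl⟩ | ⟨h1, h2⟩ | ⟨h1, h2⟩ | ⟨h1, h2⟩ | ⟨h1, h2⟩ |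
      ⟨h1, h2⟩
    · rw [J_copy r j ht']
      have h3 := ih t' ht'
      have h4 : slot j ≤ 5 := slot_le j
      have h5 : slot j * (om r + 6) ≤ 5 * (om r + 6) := Nat.mul_le_mul_right _ h4
      have h6 : ((slot j * (om r + 6) : ℕ) : ℤ) ≤ ((5 * (om r + 6) : ℕ) : ℤ) := by exact_mod_cast h5
      have h7 : (0 : ℤ) ≤ ((slot j * (om r + 6) : ℕ) : ℤ) := by positivity
      push_cast at h6 h7 ⊢
      constructor <;> linarith [h3.1, h3.2]
    · obtain ⟨t', rfl⟩ := Nat.exists_eq_add_of_le h1
      have := six_slope0 (J_len r) (t := t') (by omega)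
      show 0 ≤ six (J r) (len r) (om r) _ ∧ six (J r) (len r) (om r) _ ≤ _
      rw [this]; omega
    · obtain ⟨t', rfl⟩ := Nat.exists_eq_add_of_le h1
      have := six_slope1 (J_zero r) (J_len r) (t := t') (by omega)
      show 0 ≤ six (J r) (len r) (om r) _ ∧ six (J r) (len r) (om r) _ ≤ _
      rw [this]; omega
    · obtain ⟨t', rfl⟩ := Nat.exists_eq_add_of_le h1
      have := six_slope2 (J_zero r) (J_len r) (t := t') (by omega)
      show 0 ≤ six (J r) (len r) (om r) _ ∧ six (J r) (len r) (om r) _ ≤ _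
      rw [this]; omega
    · obtain ⟨t', rfl⟩ := Nat.exists_eq_add_of_le h1
      have := six_slope3 (J_zero r) (J_len r) (t := t') (by omega)
      show 0 ≤ six (J r) (len r) (om r) _ ∧ six (J r) (len r) (om r) _ ≤ _
      rw [this]; omega
    · obtain ⟨t', rfl⟩ := Nat.exists_eq_add_of_le h1
      have := six_slope4 (J_zero r) (J_len r) (t := t') (by omega)
      show 0 ≤ six (J r) (len r) (om r) _ ∧ six (J r) (len r) (om r) _ ≤ _
      rw [this]; omega

/-- the first three copies are low -/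
theorem J_low (r : ℕ) {t : ℕ} (ht : t ≤ 3 * len r + 3 * om r + 18) : J (r + 1) t ≤ 3 * om r + 13 := by
  have hr := J_range r
  rcases Nat.lt_or_ge t (len r) with h | h
  · have h1 := J_copy r 0 h.le
    have h2 : off (len r) (om r) 0 + t = t := by simp [off]
    rw [h2] at h1
    rw [h1]
    have := (hr t h.le).2
    have h3 : slot 0 * (om r + 6) = 0 := by simp [slot]
    rw [h3]; push_cast; linarith [Int.natCast_nonneg (om r)]
  rcases Nat.lt_or_ge t (len r + om r + 12) with h' | h'
  · obtain ⟨t', rfl⟩ := Nat.exists_eq_add_of_le h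
    have := six_slope0 (J_len r) (t := t') (by omega)
    show six (J r) (len r) (om r) _ ≤ _
    rw [this]; omega
  rcases Nat.lt_or_ge t (2 * len r + om r + 12) with h | h
  · obtain ⟨t', rfl⟩ := Nat.exists_eq_add_of_le h'
    have h1 := J_copy r 1 (t := t') (by omega)
    have h2 : off (len r) (om r) 1 + t' = len r + om r + 12 + t' := rfl
    rw [h2] at h1
    rw [h1]
    have := (hr t' (by omega)).2
    have h3 : slot 1 * (om r + 6) = 2 * (om r + 6) := rfl
    rw [h3]; push_cast; linarith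
  rcases Nat.lt_or_ge t (2 * len r + 3 * om r + 18) with h' | h'
  · obtain ⟨t', rfl⟩ := Nat.exists_eq_add_of_le h
    have := six_slope1 (J_zero r) (J_len r) (t := t') (by omega)
    show six (J r) (len r) (om r) _ ≤ _
    rw [this]; omega
  · obtain ⟨t', rfl⟩ := Nat.exists_eq_add_of_le h'
    have h1 := J_copy r 2 (t := t') (by omega)
    have h2 : off (len r) (om r) 2 + t' = 2 * len r + 3 * om r + 18 + t' := rfl
    rw [h2] at h1
    rw [h1]
    have := (hr t' (by omega)).2
    have h3 : slot 2 * (om r + 6) = 1 * (om r + 6) := rfl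
    rw [h3]; push_cast; linarith [Int.natCast_nonneg (om r)]

/-- the last three copies are high -/
theorem J_high (r : ℕ) {t : ℕ} (ht : 3 * len r + 5 * om r + 36 ≤ t) (ht' : t ≤ len (r + 1)) :
    3 * om r + 18 ≤ J (r + 1) t := by
  have hr := J_range r
  have hlen : len (r + 1) = 6 * len r + 8 * om r + 54 := rfl
  rcases Nat.lt_or_ge t (4 * len r + 5 * om r + 36) with h | h
  · obtain ⟨t', rfl⟩ := Nat.exists_eq_add_of_le ht
    have h1 := J_copy r 3 (t := t') (by omega)
    have h2 : off (len r) (om r) 3 + t' = 3 * len r + 5 * om r + 36 + t' := rfl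
    rw [h2] at h1
    rw [h1]
    have := (hr t' (by omega)).1
    have h3 : slot 3 * (om r + 6) = 4 * (om r + 6) := rfl
    rw [h3]; push_cast; linarith [Int.natCast_nonneg (om r)]
  rcases Nat.lt_or_ge t (4 * len r + 7 * om r + 42) with h' | h'
  · obtain ⟨t', rfl⟩ := Nat.exists_eq_add_of_le h
    have := six_slope3 (J_zero r) (J_len r) (t := t') (by omega)
    show _ ≤ six (J r) (len r) (om r) _
    rw [this]; omega
  rcases Nat.lt_or_ge t (5 * len r + 7 * om r + 42) with h | h
  · obtain ⟨t', rfl⟩ := Nat.exists_eq_add_of_le h'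
    have h1 := J_copy r 4 (t := t') (by omega)
    have h2 : off (len r) (om r) 4 + t' = 4 * len r + 7 * om r + 42 + t' := rfl
    rw [h2] at h1
    rw [h1]
    have := (hr t' (by omega)).1
    have h3 : slot 4 * (om r + 6) = 3 * (om r + 6) := rfl
    rw [h3]; push_cast; linarith
  rcases Nat.lt_or_ge t (5 * len r + 8 * om r + 54) with h' | h'
  · obtain ⟨t', rfl⟩ := Nat.exists_eq_add_of_le h
    have := six_slope4 (J_zero r) (J_len r) (t := t') (by omega)
    show _ ≤ six (J r) (len r) (om r) _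
    rw [this]; omega
  · obtain ⟨t', rfl⟩ := Nat.exists_eq_add_of_le h'
    have h1 := J_copy r 5 (t := t') (by omega)
    have h2 : off (len r) (om r) 5 + t' = 5 * len r + 8 * om r + 54 + t' := rfl
    rw [h2] at h1
    rw [h1]
    have := (hr t' (by omega)).1
    have h3 : slot 5 * (om r + 6) = 5 * (om r + 6) := rfl
    rw [h3]; push_cast; linarith [Int.natCast_nonneg (om r)]

end Pool.Agent.H5DY
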