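import Pool.Agent.H5DY.Values

/-!
# The rank bound
-/

set_option autoImplicit false

namespace Pool.Agent.H5DY

open Finset

variable {K : Type} [Field K]

/-- the functions which span -/
def alp (Y Z T : Finset ℕ) (f : Finset ℕ → K) (B : Finset ℕ) : Y.powerset → K :=
  fun y => if y.1 \ T = B ∩ Y then f (y.1 ∪ (B ∩ Z)) else 0

theorem mem_span_alp {Y Z T : Finset ℕ} (hYZ : Disjoint Y Z) {f g : Finset ℕ → K}
    (hf : Dep T f) (hg : Dep ((Y ∪ Z) \ T) g) {z : Finset ℕ} (hz : z ⊆ Z) :
    (fun y : Y.powerset => f (y.1 ∪ z) * g (y.1 ∪ z)) ∈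
      Submodule.span K (alp Y Z T f '' (((Z ∩ T) ∪ (Y \ T)).powerset : Set (Finset ℕ))) := by
  classical
  have h1 : (fun y : Y.powerset => f (y.1 ∪ z) * g (y.1 ∪ z)) =
      ∑ B ∈ ((Z ∩ T) ∪ (Y \ T)).powerset, (if B ∩ Z = z ∩ T then g ((B ∩ Y) ∪ z) else 0) • alp Y Z T f B := by
    funext y
    have hy : y.1 ⊆ Y := Finset.mem_powerset.1 y.2
    have hyz : ∀ p, p ∈ Y → p ∉ Z := fun p hp => Finset.disjoint_left.1 hYZ hp
    rw [Finset.sum_apply, Finset.sum_eq_single ((z ∩ T) ∪ (y.1 \ T))]
    · have e1 : ((z ∩ T) ∪ (y.1 \ T)) ∩ Z = z ∩ T := by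
        ext p
        simp only [mem_inter, mem_union, mem_sdiff]
        constructor
        · rintro ⟨h | h, h'⟩
          · exact h
          · exact absurd h' (hyz p (hy h.1))
        · intro h; exact ⟨Or.inl h, hz h.1⟩
      have e2 : ((z ∩ T) ∪ (y.1 \ T)) ∩ Y = y.1 \ T := by
        ext p
        simp only [mem_inter, mem_union, mem_sdiff]
        constructor
        · rintro ⟨h | h, h'⟩
          · exact absurd (hz h.1) (hyz p h')
          · exact h
        · intro h; exact ⟨Or.inr h, hy h.1⟩
      simp only [Pi.smul_apply, smul_eq_mul, alp]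
      rw [if_pos e1, if_pos e2.symm, e1, e2, mul_comm]
      congr 1
      · refine hg _ _ fun p hp => ?_
        rw [mem_sdiff] at hp
        simp only [mem_union, mem_sdiff]
        constructor
        · rintro (h | h)
          · exact Or.inl ⟨h, hp.2⟩
          · exact Or.inr h
        · rintro (h | h)
          · exact Or.inl h.1
          · exact Or.inr h
      · refine hf _ _ fun p hp => ?_
        simp only [mem_union, mem_inter]
        constructor
        · rintro (h | h)
          · exact Or.inl h
          · exact Or.inr ⟨h, hp⟩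
        · rintro (h | h)
          · exact Or.inl h
          · exact Or.inr h.1
    · intro B hB hne
      rw [mem_powerset] at hB
      simp only [Pi.smul_apply, smul_eq_mul, alp]
      by_cases e1 : B ∩ Z = z ∩ T
      · by_cases e2 : y.1 \ T = B ∩ Y
        · exfalso
          apply hne
          rw [← e1, e2]
          ext p
          simp only [mem_union, mem_inter]
          constructor
          · intro h
            have := hB h
            rw [mem_union, mem_inter, mem_sdiff] at this
            rcases this with h' | h'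
            · exact Or.inl ⟨h, h'.1⟩
            · exact Or.inr ⟨h, h'.1⟩
          · rintro (h | h)
            · exact h.1
            · exact h.1
        · rw [if_neg e2, mul_zero]
      · rw [if_neg e1, zero_mul]
    · intro h
      exfalso
      apply h
      rw [mem_powerset]
      intro p hp
      simp only [mem_union, mem_inter, mem_sdiff] at hp ⊢
      rcases hp with hp | hp
      · exact Or.inl ⟨hz hp.1, hp.2⟩
      · exact Or.inr ⟨hy hp.1, hp.2⟩
  rw [h1]
  refine Submodule.sum_mem _ fun B hB => Submodule.smul_mem _ _ (Submodule.subset_span ?_)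
  exact ⟨B, hB, rfl⟩

/-- a sum of few products with small index sets does not have full rank -/
theorem rank_bound {ι : Type} (S : Finset ι) {Y Z : Finset ℕ} (hYZ : Disjoint Y Z) (E : Finset ℕ → K)
    (term : ι → Finset ℕ → K) (m : ℕ)
    (hterm : ∀ t ∈ S, ∃ (f g : Finset ℕ → K) (T : Finset ℕ), Dep T f ∧ Dep ((Y ∪ Z) \ T) g ∧
      (∀ c, term t c = f c * g c) ∧ ((Z ∩ T) ∪ (Y \ T)).card ≤ m)
    (hE : ∀ c, E c = ∑ t ∈ S, term t c)
    (hfull : ∀ y' ⊆ Y, ∃ z ⊆ Z, ∀ y ⊆ Y, E (y ∪ z) = if y = y' then 1 else 0) :
    2 ^ Y.card ≤ S.card * 2 ^ m := by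
  classical
  choose! f g T hf hg hfg hcard using hterm
  set G : Finset (Y.powerset → K) :=
    S.biUnion fun t => ((Z ∩ T t) ∪ (Y \ T t)).powerset.image (alp Y Z (T t) (f t)) with hG
  have hGcard : G.card ≤ S.card * 2 ^ m := by
    refine (Finset.card_biUnion_le_card_mul _ _ _ fun t ht => ?_)
    refine Finset.card_image_le.trans ?_
    rw [Finset.card_powerset]
    exact Nat.pow_le_pow_right (by norm_num) (hcard t ht)
  have hspan : Submodule.span K (G : Set (Y.powerset → K)) = ⊤ := by
    have h1 : ∀ y' : Y.powerset, (Pi.single y' (1 : K) : Y.powerset → K) ∈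
        Submodule.span K (G : Set (Y.powerset → K)) := by
      intro y'
      obtain ⟨z, hz, hzE⟩ := hfull y'.1 (mem_powerset.1 y'.2)
      have h2 : (Pi.single y' (1 : K) : Y.powerset → K) =
          ∑ t ∈ S, fun y : Y.powerset => f t (y.1 ∪ z) * g t (y.1 ∪ z) := by
        funext y
        rw [Finset.sum_apply]
        have h3 : ∑ t ∈ S, f t (y.1 ∪ z) * g t (y.1 ∪ z) = E (y.1 ∪ z) := by
          rw [hE]
          exact Finset.sum_congr rfl fun t ht => (hfg t ht _).symm
        rw [h3, hzE y.1 (mem_powerset.1 y.2)]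
        by_cases h4 : y = y'
        · subst h4; simp
        · rw [Pi.single_eq_of_ne h4, if_neg]
          intro h5; exact h4 (Subtype.ext h5)
      rw [h2]
      refine Submodule.sum_mem _ fun t ht => ?_
      refine Submodule.span_mono ?_ (mem_span_alp hYZ (hf t ht) (hg t ht) hz)
      rintro x ⟨B, hB, rfl⟩
      rw [Finset.mem_coe]
      exact Finset.mem_biUnion.2 ⟨t, ht, Finset.mem_image.2 ⟨B, hB, rfl⟩⟩
    rw [eq_top_iff]
    intro w _
    have h5 : w = ∑ y' : Y.powerset, w y' • (Pi.single y' (1 : K) : Y.powerset → K) := by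
      funext y
      rw [Finset.sum_apply, Finset.sum_eq_single y]
      · simp
      · intro b _ hb
        simp [Pi.single_eq_of_ne (Ne.symm hb)]
      · intro h; exact absurd (Finset.mem_univ y) h
    rw [h5]
    exact Submodule.sum_mem _ fun y' _ => Submodule.smul_mem _ _ (h1 y')
  have h2 := finrank_span_finset_le_card (R := K) G
  have h3 : Module.finrank K (Y.powerset → K) = 2 ^ Y.card := by
    rw [Module.finrank_fintype_fun_eq_card, Fintype.card_coe, Finset.card_powerset]
  rw [Set.finrank, hspan, finrank_top, h3] at h2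
  exact h2.trans hGcard

end Pool.Agent.H5DY
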