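import Pool.Agent.H5DY.Copies

/-!
# A chain of nearly balanced intervals which removes no copy of level `r` cannot start around a copy of level `r + 1`
-/

set_option autoImplicit false

namespace Pool.Agent.H5DY

/-- There is a chain of nearly balanced intervals from `[x, y]` down to a point, such that the removed intervals contain
no copy of level `r`. -/
def Sp (h r x y : ℕ) : Prop :=
  ∃ (m : ℕ) (V : Set (ℕ × ℕ)), (x, y) ∈ V ∧
    (∀ p ∈ V, x ≤ p.1 ∧ p.1 ≤ m ∧ m ≤ p.2 ∧ p.2 ≤ y ∧ |vv h p.1 - vv h p.2| ≤ 2) ∧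
    (∀ p ∈ V, ∀ q ∈ V, (p.1 ≤ q.1 ∧ q.2 ≤ p.2) ∨ (q.1 ≤ p.1 ∧ p.2 ≤ q.2)) ∧
    (∀ s b, Cp h r s b → x ≤ s → s + len r ≤ m → ∃ p ∈ V, s < p.1 ∧ p.1 < s + len r) ∧
    (∀ s b, Cp h r s b → m ≤ s → s + len r ≤ y → ∃ p ∈ V, s < p.2 ∧ p.2 < s + len r)

variable {h r : ℕ}

theorem Sp.base {x m y : ℕ} (h1 : x ≤ m) (h2 : m ≤ y) (h3 : NoCp h r x m) (h4 : NoCp h r m y)
    (h5 : |vv h x - vv h y| ≤ 2) : Sp h r x y := by
  refine ⟨m, {(x, y)}, rfl, ?_, ?_, ?_, ?_⟩
  · rintro p rfl
    exact ⟨le_refl _, h1, h2, le_refl _, h5⟩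
  · rintro p rfl q rfl
    exact Or.inl ⟨le_refl _, le_refl _⟩
  · intro s b hc hs hs'
    exact absurd ⟨hs, hs'⟩ (h3 s b hc)
  · intro s b hc hs hs'
    exact absurd ⟨hs, hs'⟩ (h4 s b hc)

theorem Sp.left {x x' y : ℕ} (hsp : Sp h r x' y) (h1 : x ≤ x') (h2 : NoCp h r x x')
    (h3 : |vv h x - vv h y| ≤ 2) : Sp h r x y := by
  obtain ⟨m, V, hV, ha, hb, hc, hd⟩ := hsp
  have h4 := ha _ hV
  refine ⟨m, insert (x, y) V, Set.mem_insert _ _, ?_, ?_, ?_, ?_⟩
  · intro p hp
    rcases Set.mem_insert_iff.1 hp with rfl | hp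
    · exact ⟨le_refl _, h1.trans h4.2.1, h4.2.2.1, le_refl _, h3⟩
    · obtain ⟨h5, h6, h7, h8, h9⟩ := ha p hp
      exact ⟨h1.trans h5, h6, h7, h8, h9⟩
  · intro p hp q hq
    rcases Set.mem_insert_iff.1 hp with rfl | hp
    · rcases Set.mem_insert_iff.1 hq with rfl | hq
      · exact Or.inl ⟨le_refl _, le_refl _⟩
      · have := ha q hq
        exact Or.inl ⟨h1.trans this.1, this.2.2.2.1⟩
    · rcases Set.mem_insert_iff.1 hq with rfl | hq
      · have := ha p hp
        exact Or.inr ⟨h1.trans this.1, this.2.2.2.1⟩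
      · exact hb p hp q hq
  · intro s b hcp hs hs'
    by_cases h5 : x' ≤ s
    · obtain ⟨p, hp, h6⟩ := hc s b hcp h5 hs'
      exact ⟨p, Set.mem_insert_of_mem _ hp, h6⟩
    · refine ⟨(x', y), Set.mem_insert_of_mem _ hV, ?_⟩
      have := h2 s b hcp
      constructor
      · show s < x'; omega
      · show x' < s + len r; omega
  · intro s b hcp hs hs'
    obtain ⟨p, hp, h6⟩ := hd s b hcp hs hs'
    exact ⟨p, Set.mem_insert_of_mem _ hp, h6⟩

theorem Sp.right {x y y' : ℕ} (hsp : Sp h r x y') (h1 : y' ≤ y) (h2 : NoCp h r y' y)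
    (h3 : |vv h x - vv h y| ≤ 2) : Sp h r x y := by
  obtain ⟨m, V, hV, ha, hb, hc, hd⟩ := hsp
  have h4 := ha _ hV
  refine ⟨m, insert (x, y) V, Set.mem_insert _ _, ?_, ?_, ?_, ?_⟩
  · intro p hp
    rcases Set.mem_insert_iff.1 hp with rfl | hp
    · exact ⟨le_refl _, h4.2.1, h4.2.2.1.trans h1, le_refl _, h3⟩
    · obtain ⟨h5, h6, h7, h8, h9⟩ := ha p hp
      exact ⟨h5, h6, h7, h8.trans h1, h9⟩
  · intro p hp q hq
    rcases Set.mem_insert_iff.1 hp with rfl | hp
    · rcases Set.mem_insert_iff.1 hq with rfl | hq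
      · exact Or.inl ⟨le_refl _, le_refl _⟩
      · have := ha q hq
        exact Or.inl ⟨this.1, this.2.2.2.1.trans h1⟩
    · rcases Set.mem_insert_iff.1 hq with rfl | hq
      · have := ha p hp
        exact Or.inr ⟨this.1, this.2.2.2.1.trans h1⟩
      · exact hb p hp q hq
  · intro s b hcp hs hs'
    obtain ⟨p, hp, h6⟩ := hc s b hcp hs hs'
    exact ⟨p, Set.mem_insert_of_mem _ hp, h6⟩
  · intro s b hcp hs hs'
    by_cases h5 : s + len r ≤ y'
    · obtain ⟨p, hp, h6⟩ := hd s b hcp hs h5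
      exact ⟨p, Set.mem_insert_of_mem _ hp, h6⟩
    · refine ⟨(x, y'), Set.mem_insert_of_mem _ hV, ?_⟩
      have := h2 s b hcp
      constructor
      · show s < y'; omega
      · show y' < s + len r; omega

theorem exists_cp_of_not_mono (hr : r ≤ h) {x y : ℕ} (hxy : x ≤ y) (hx : Out h r x) (hy : Out h r y)
    (hm : ¬ Mono (vv h) x y) : ∃ s b, Cp h r s b ∧ x ≤ s ∧ s + len r ≤ y := by
  by_contra hcon
  push Not at hcon
  refine hm (mono_of (h - r) r (by omega) hxy ?_ hx hy)
  intro s b hc hs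
  exact absurd hs.2 (not_le.2 (hcon s b hc hs.1))

/-- a point at the same height as a point of a copy, not in this copy, is outside all the copies -/
theorem out_of_near (hr : r ≤ h) {s b x x' : ℕ} (hc : Cp h r s b) (h1 : s ≤ x') (h2 : x' ≤ s + len r)
    (h3 : |vv h x - vv h x'| ≤ 2) (h4 : ¬ (s < x ∧ x < s + len r)) : Out h r x := by
  rintro s' b' hc' ⟨h5, h6⟩
  have h7 := hc.range h1 h2
  have h8 := hc'.range h5.le h6.le
  rw [abs_le] at h3
  rcases Cp.sep (h - r) r (by omega) hc hc' with ⟨rfl, rfl⟩ | ⟨_, h9⟩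
  · exact h4 ⟨h5, h6⟩
  · rcases h9 with h9 | h9
    · have : (b : ℤ) + om r + 6 ≤ b' := by exact_mod_cast h9
      omega
    · have : (b' : ℤ) + om r + 6 ≤ b := by exact_mod_cast h9
      omega

theorem slot_small (j : Fin 6) (h : ¬ 3 ≤ slot j) : j = 0 ∨ j = 1 ∨ j = 2 := by revert h; revert j; decide
theorem slot_big (j : Fin 6) (h : ¬ slot j ≤ 2) : j = 3 ∨ j = 4 ∨ j = 5 := by revert h; revert j; decide

theorem Sp.contra {x y S B : ℕ} (hsp : Sp h r x y) (hC : Cp h (r + 1) S B) (hx : x ≤ S) (hy : S + len (r + 1) ≤ y) :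
    False := by
  obtain ⟨m, V, hV, ha, hb, hc, hd⟩ := hsp
  have hr1 := hC.le
  have hr : r ≤ h := by omega
  have hlen := len_succ r
  have hom := om_succ r
  have e0 : off (len r) (om r) 0 = 0 := rfl
  have e1 : off (len r) (om r) 1 = len r + om r + 12 := rfl
  have e2 : off (len r) (om r) 2 = 2 * len r + 3 * om r + 18 := rfl
  have e3 : off (len r) (om r) 3 = 3 * len r + 5 * om r + 36 := rfl
  have e4 : off (len r) (om r) 4 = 4 * len r + 7 * om r + 42 := rfl
  have e5 : off (len r) (om r) 5 = 5 * len r + 8 * om r + 54 := rfl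
  have g0 : slot 0 * (om r + 6) = 0 := by simp [slot]
  have g1 : slot 1 * (om r + 6) = 2 * om r + 12 := by show 2 * (om r + 6) = _; ring
  have g2 : slot 2 * (om r + 6) = om r + 6 := by show 1 * (om r + 6) = _; ring
  have g3 : slot 3 * (om r + 6) = 4 * om r + 24 := by show 4 * (om r + 6) = _; ring
  have g4 : slot 4 * (om r + 6) = 3 * om r + 18 := by show 3 * (om r + 6) = _; ring
  have g5 : slot 5 * (om r + 6) = 5 * om r + 30 := by show 5 * (om r + 6) = _; ring
  have c0 := Cp.sub 0 hC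
  have c1 := Cp.sub 1 hC
  have c2 := Cp.sub 2 hC
  have c3 := Cp.sub 3 hC
  have c4 := Cp.sub 4 hC
  have c5 := Cp.sub 5 hC
  rw [e0, g0, Nat.add_zero, Nat.add_zero] at c0
  rw [e1, g1] at c1
  rw [e2, g2] at c2
  rw [e3, g3] at c3
  rw [e4, g4] at c4
  rw [e5, g5] at c5
  rcases Nat.lt_or_ge (S + (3 * len r + 5 * om r + 36)) m with hm | hm
  · -- the first three copies are passed by the left end
    obtain ⟨p0, hp0, a0, a0'⟩ := hc _ _ c0 (by omega) (by omega)
    obtain ⟨p1, hp1, a1, a1'⟩ := hc _ _ c1 (by omega) (by omega)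
    obtain ⟨p2, hp2, a2, a2'⟩ := hc _ _ c2 (by omega) (by omega)
    have q0 := ha p0 hp0
    have q1 := ha p1 hp1
    have q2 := ha p2 hp2
    have n01 : p1.2 ≤ p0.2 := by rcases hb p0 hp0 p1 hp1 with h3 | h3 <;> omega
    have n12 : p2.2 ≤ p1.2 := by rcases hb p1 hp1 p2 hp2 with h3 | h3 <;> omega
    have r0 := c0.range a0.le a0'.le
    have r1 := c1.range a1.le a1'.le
    have r2 := c2.range a2.le a2'.le
    have b0 := abs_le.1 q0.2.2.2.2
    have b1 := abs_le.1 q1.2.2.2.2
    have b2 := abs_le.1 q2.2.2.2.2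
    push_cast at r0 r1 r2
    have o0 : Out h r p0.2 := out_of_near hr c0 a0.le a0'.le (by rw [abs_sub_comm]; exact q0.2.2.2.2) (by omega)
    have o2 : Out h r p2.2 := out_of_near hr c2 a2.le a2'.le (by rw [abs_sub_comm]; exact q2.2.2.2.2) (by omega)
    have hnm : ¬ Mono (vv h) p2.2 p0.2 := by
      rintro (h3 | h3)
      · have := h3 p1.2 p0.2 n12 n01 (le_refl _)
        omega
      · have := h3 p2.2 p1.2 (le_refl _) n12 n01
        omega
    obtain ⟨s', b', hc', h3, h4⟩ := exists_cp_of_not_mono hr (n12.trans n01) o2 o0 hnm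
    obtain ⟨q, hq, h5, h6⟩ := hd s' b' hc' (by omega) (by omega)
    have qa := ha q hq
    have m0 : p0.1 ≤ q.1 := by rcases hb p0 hp0 q hq with h7 | h7 <;> omega
    have m2 : q.1 ≤ p2.1 := by rcases hb p2 hp2 q hq with h7 | h7 <;> omega
    have rq := hc'.range h5.le h6.le
    -- the height of `q.1`
    obtain ⟨t, ht⟩ := Nat.exists_eq_add_of_le (show S ≤ q.1 by omega)
    have hval := hC.val t (by omega)
    rw [← ht] at hval
    have hlow := J_low r (t := t) (by omega)
    have hpos := (J_range (r + 1) t (by omega)).1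
    have bq := abs_le.1 qa.2.2.2.2
    rcases hc'.inv with ⟨_, _, _⟩ | ⟨S', B', j, hC', hs', hb'⟩
    · omega
    rcases Cp.sep (h - (r + 1)) (r + 1) (by omega) hC hC' with ⟨rfl, rfl⟩ | ⟨_, h9⟩
    · -- the same parent: `j` is large
      have hj : 3 ≤ slot j := by
        by_contra hcon
        have hj' : j = 0 ∨ j = 1 ∨ j = 2 := slot_small j hcon
        rcases hj' with rfl | rfl | rfl <;> omega
      have h10 := Nat.mul_le_mul_right (om r + 6) hj
      have h11 : (B : ℤ) + 3 * (om r + 6) ≤ b' := by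
        have : B + 3 * (om r + 6) ≤ b' := by omega
        exact_mod_cast this
      omega
    · have hsl := Nat.mul_le_mul_right (om r + 6) (slot_le j)
      rcases h9 with h9 | h9
      · have h11 : (B : ℤ) + (6 * om r + 30) + 6 ≤ b' := by
          have : B + (6 * om r + 30) + 6 ≤ b' := by omega
          exact_mod_cast this
        omega
      · have h11 : (b' : ℤ) + (om r) + 6 ≤ B := by
          have : b' + om r + 6 ≤ B := by omega
          exact_mod_cast this
        omega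
  · -- the last three copies are passed by the right end
    obtain ⟨p3, hp3, a3, a3'⟩ := hd _ _ c3 (by omega) (by omega)
    obtain ⟨p4, hp4, a4, a4'⟩ := hd _ _ c4 (by omega) (by omega)
    obtain ⟨p5, hp5, a5, a5'⟩ := hd _ _ c5 (by omega) (by omega)
    have q3 := ha p3 hp3
    have q4 := ha p4 hp4
    have q5 := ha p5 hp5
    have n43 : p4.1 ≤ p3.1 := by rcases hb p4 hp4 p3 hp3 with h3 | h3 <;> omega
    have n54 : p5.1 ≤ p4.1 := by rcases hb p5 hp5 p4 hp4 with h3 | h3 <;> omega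
    have r3 := c3.range a3.le a3'.le
    have r4 := c4.range a4.le a4'.le
    have r5 := c5.range a5.le a5'.le
    have b3 := abs_le.1 q3.2.2.2.2
    have b4 := abs_le.1 q4.2.2.2.2
    have b5 := abs_le.1 q5.2.2.2.2
    push_cast at r3 r4 r5
    have o3 : Out h r p3.1 := out_of_near hr c3 a3.le a3'.le q3.2.2.2.2 (by omega)
    have o5 : Out h r p5.1 := out_of_near hr c5 a5.le a5'.le q5.2.2.2.2 (by omega)
    have hnm : ¬ Mono (vv h) p5.1 p3.1 := by
      rintro (h3 | h3)
      · have := h3 p5.1 p4.1 (le_refl _) n54 n43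
        omega
      · have := h3 p4.1 p3.1 n54 n43 (le_refl _)
        omega
    obtain ⟨s', b', hc', h3, h4⟩ := exists_cp_of_not_mono hr (n54.trans n43) o5 o3 hnm
    obtain ⟨q, hq, h5, h6⟩ := hc s' b' hc' (by omega) (by omega)
    have qa := ha q hq
    have m3 : p3.2 ≤ q.2 := by rcases hb p3 hp3 q hq with h7 | h7 <;> omega
    have m5 : q.2 ≤ p5.2 := by rcases hb p5 hp5 q hq with h7 | h7 <;> omega
    have rq := hc'.range h5.le h6.le
    obtain ⟨t, ht⟩ := Nat.exists_eq_add_of_le (show S ≤ q.2 by omega)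
    have hval := hC.val t (by omega)
    rw [← ht] at hval
    have hhigh := J_high r (t := t) (by omega) (by omega)
    have hpos := (J_range (r + 1) t (by omega)).2
    have bq := abs_le.1 qa.2.2.2.2
    rcases hc'.inv with ⟨_, _, _⟩ | ⟨S', B', j, hC', hs', hb'⟩
    · omega
    rcases Cp.sep (h - (r + 1)) (r + 1) (by omega) hC hC' with ⟨rfl, rfl⟩ | ⟨_, h9⟩
    · have hj : slot j ≤ 2 := by
        by_contra hcon
        have hj' : j = 3 ∨ j = 4 ∨ j = 5 := slot_big j hcon
        rcases hj' with rfl | rfl | rfl <;> omega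
      have h10 := Nat.mul_le_mul_right (om r + 6) hj
      have h11 : (b' : ℤ) ≤ B + 2 * (om r + 6) := by
        have : b' ≤ B + 2 * (om r + 6) := by omega
        exact_mod_cast this
      omega
    · have hsl := Nat.mul_le_mul_right (om r + 6) (slot_le j)
      rw [hom] at hpos
      push_cast at hpos
      rcases h9 with h9 | h9
      · have h11 : (B : ℤ) + (6 * om r + 30) + 6 ≤ b' := by
          have : B + (6 * om r + 30) + 6 ≤ b' := by omega
          exact_mod_cast this
        omega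
      · have h11 : (b' : ℤ) + (om r) + 6 ≤ B := by
          have : b' + om r + 6 ≤ B := by omega
          exact_mod_cast this
        omega

end Pool.Agent.H5DY
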