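import Pool.Agent.H5DY.Spine
import Pool.Agent.H20VP.Val
import Pool.Agent.H5DY.Defs

/-!
# Weakly skew circuits whose index sets are intervals: the nodes with many siblings
-/

set_option autoImplicit false

namespace Pool.Agent.H5DY

open Pool.Agent.H20VP

variable {K L : Type}

section

variable {C : Circuit K (ℕ × L)}

/-- `x` is the private argument and `y` is the other argument of the multiplication gate `u` -/
def Pr (C : Circuit K (ℕ × L)) (x y u : C.N) : Prop :=
  (C.gate u = .mul x y ∨ C.gate u = .mul y x) ∧ C.Cut x y u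

theorem Pr.edge_left {x y u : C.N} (h : Pr C x y u) : C.Edge x u := by
  unfold Circuit.Edge
  rcases h.1 with h | h <;> rw [h] <;> simp [Gate.preds]

theorem Pr.edge_right {x y u : C.N} (h : Pr C x y u) : C.Edge y u := by
  unfold Circuit.Edge
  rcases h.1 with h | h <;> rw [h] <;> simp [Gate.preds]

theorem not_cycle {n m : C.N} (h1 : C.Below n m) (h2 : C.Edge m n) : False :=
  C.acyclic n (Relation.TransGen.tail' h1 h2)

theorem below_antisymm {n m : C.N} (h1 : C.Below n m) (h2 : C.Below m n) : n = m := by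
  rcases Relation.reflTransGen_iff_eq_or_transGen.1 h1 with h | h
  · exact h.symm
  · exact absurd (h.trans_left h2) (C.acyclic n)

variable {I : C.N → Finset ℕ} (hI : ∀ n, Typed I (I n) (C.gate n))

include hI

theorem sub_edge {m n : C.N} (h : C.Edge m n) : I m ⊆ I n := by
  have h1 := hI n
  unfold Circuit.Edge at h
  cases hg : C.gate n with
  | var x => rw [hg] at h; simp [Gate.preds] at h
  | const c => rw [hg] at h; simp [Gate.preds] at h
  | add l =>
    rw [hg] at h h1
    exact (h1 m h).subset
  | mul a b =>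
    rw [hg] at h h1
    simp only [Gate.preds, List.mem_cons, List.not_mem_nil, or_false] at h
    rw [h1.2]
    rcases h with rfl | rfl
    · exact Finset.subset_union_left
    · exact Finset.subset_union_right

theorem sub_below {m n : C.N} (h : C.Below m n) : I m ⊆ I n := by
  unfold Circuit.Below at h
  induction h with
  | refl => exact Finset.Subset.refl _
  | tail _ h ih => exact ih.trans (sub_edge hI h)

theorem Pr.disj {x y u : C.N} (h : Pr C x y u) : Disjoint (I x) (I y) := by
  have h1 := hI u
  rcases h.1 with h2 | h2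
  · rw [h2] at h1; exact h1.1
  · rw [h2] at h1; exact h1.1.symm

theorem Pr.union {x y u : C.N} (h : Pr C x y u) : I u = I x ∪ I y := by
  have h1 := hI u
  rcases h.1 with h2 | h2
  · rw [h2] at h1; exact h1.2
  · rw [h2] at h1; rw [h1.2, Finset.union_comm]

/-- the siblings of `g` -/
def Sib (C : Circuit K (ℕ × L)) (g y : C.N) : Prop := ∃ x u, Pr C x y u ∧ C.Below g x

/-- different siblings have disjoint index sets -/
theorem Sib.disj {g y y' : C.N} (h : Sib C g y) (h' : Sib C g y') (hne : y ≠ y') : Disjoint (I y) (I y') := by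
  obtain ⟨x, u, hp, hb⟩ := h
  obtain ⟨x', u', hp', hb'⟩ := h'
  rcases below_or hp.2 hp.edge_left hb hb' with h1 | h1
  · rcases below_or hp'.2 hp'.edge_left hb' hb with h2 | h2
    · exfalso
      have hx := below_antisymm h1 h2
      subst hx
      by_cases h3 : C.Below u' x'
      · exact not_cycle h3 hp'.edge_left
      · have h4 := (hp.2.2 x' u' Relation.ReflTransGen.refl h3 hp'.edge_left).2
        subst h4
        have n1 := hp.2.1
        have n2 := hp'.2.1
        rcases hp.1 with h5 | h5 <;> rcases hp'.1 with h6 | h6 <;> rw [h5] at h6 <;>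
          simp only [Gate.mul.injEq] at h6
        · exact hne h6.2
        · exact n2 h6.1
        · exact n2 h6.2
        · exact hne h6.1
    · -- `u'` is below `x`
      have h3 : I y' ⊆ I x := (sub_edge hI hp'.edge_right).trans (sub_below hI h2)
      exact ((hp.disj hI).mono_left h3).symm
  · have h3 : I y ⊆ I x' := (sub_edge hI hp.edge_right).trans (sub_below hI h1)
    exact (hp'.disj hI).mono_left h3

omit hI

/-- reached from the output through nodes with the property `al` -/
inductive AR (C : Circuit K (ℕ × L)) (al : C.N → Prop) : C.N → Prop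
  | out (h : al C.out) : AR C al C.out
  | add {n m : C.N} {l : List C.N} (h : AR C al n) (hg : C.gate n = .add l) (hm : m ∈ l) (ha : al m) : AR C al m
  | mul {n a b m : C.N} (h : AR C al n) (hg : C.gate n = .mul a b) (hm : m = a ∨ m = b) (ha : al m) : AR C al m

theorem AR.al {al : C.N → Prop} {n : C.N} (h : AR C al n) : al n := by
  cases h with
  | out h => exact h
  | add _ _ _ ha => exact ha
  | mul _ _ _ ha => exact ha

/-- all the siblings of a reached node have the property -/
theorem AR.sib {al : C.N → Prop} (hmul : ∀ n a b, al n → C.gate n = .mul a b → al a ∧ al b) {n : C.N}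
    (h : AR C al n) : ∀ y, Sib C n y → al y := by
  induction h with
  | out h =>
    rintro y ⟨x, u, hp, hb⟩
    exfalso
    rcases Relation.reflTransGen_iff_eq_or_transGen.1 hb with h1 | h1
    · exact (C.sink C.out).2 rfl u (by rw [← h1]; exact hp.edge_left)
    · obtain ⟨c, hc, _⟩ := Relation.TransGen.head'_iff.1 h1
      exact (C.sink C.out).2 rfl c hc
  | @add n m l h hg hm ha ih =>
    rintro y ⟨x, u, hp, hb⟩
    have hedge : C.Edge m n := by unfold Circuit.Edge; rw [hg]; exact hm
    by_cases h1 : C.Below n x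
    · exact ih y ⟨x, u, hp, h1⟩
    · obtain ⟨_, rfl⟩ := hp.2.2 m n hb h1 hedge
      rcases hp.1 with h2 | h2 <;> rw [hg] at h2 <;> cases h2
  | @mul n a b m h hg hm ha ih =>
    rintro y ⟨x, u, hp, hb⟩
    have hedge : C.Edge m n := by
      unfold Circuit.Edge; rw [hg]
      rcases hm with rfl | rfl <;> simp [Gate.preds]
    by_cases h1 : C.Below n x
    · exact ih y ⟨x, u, hp, h1⟩
    · obtain ⟨_, rfl⟩ := hp.2.2 m n hb h1 hedge
      have h3 := hmul n a b h.al hg
      rcases hp.1 with h2 | h2 <;> rw [hg] at h2 <;> simp only [Gate.mul.injEq] at h2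
      · rw [← h2.2]; exact h3.2
      · rw [← h2.1]; exact h3.1

end

/-! ### the main claim -/

/-- the interval contains one of the first `q` blocks, with respect to the length `P` of the blocks -/
def Long (q P : ℕ) (s : Finset ℕ) : Prop :=
  ∃ a b, s = Finset.Ico a b ∧ ∃ β < q, a ≤ β * P ∧ (β + 1) * P ≤ b

theorem ico_eq {a b a' b' : ℕ} (h : a < b) (he : Finset.Ico a b = Finset.Ico a' b') : a = a' ∧ b = b' := by
  have h1 : a ∈ Finset.Ico a' b' := by rw [← he, Finset.mem_Ico]; omega
  have h2 : b - 1 ∈ Finset.Ico a' b' := by rw [← he, Finset.mem_Ico]; omega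
  rw [Finset.mem_Ico] at h1 h2
  have h3 : a' ∈ Finset.Ico a b := by rw [he, Finset.mem_Ico]; omega
  have h4 : b' - 1 ∈ Finset.Ico a b := by rw [he, Finset.mem_Ico]; omega
  rw [Finset.mem_Ico] at h3 h4
  omega

/-- a disjoint union of two nonempty intervals which is an interval -/
theorem split_ico {a b a1 b1 a2 b2 : ℕ} (h1 : a1 < b1) (h2 : a2 < b2)
    (hd : Disjoint (Finset.Ico a1 b1) (Finset.Ico a2 b2))
    (hu : Finset.Ico a b = Finset.Ico a1 b1 ∪ Finset.Ico a2 b2) :
    (a1 = a ∧ b1 = a2 ∧ b2 = b) ∨ (a2 = a ∧ b2 = a1 ∧ b1 = b) := by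
  have hm : ∀ x, (a ≤ x ∧ x < b) ↔ ((a1 ≤ x ∧ x < b1) ∨ (a2 ≤ x ∧ x < b2)) := by
    intro x
    rw [← Finset.mem_Ico, hu, Finset.mem_union, Finset.mem_Ico, Finset.mem_Ico]
  have hn : ∀ x, ¬ ((a1 ≤ x ∧ x < b1) ∧ (a2 ≤ x ∧ x < b2)) := by
    rintro x ⟨h3, h4⟩
    exact Finset.disjoint_left.1 hd (Finset.mem_Ico.2 h3) (Finset.mem_Ico.2 h4)
  have m1 := hm a1
  have m2 := hm a2
  have m3 := hm (b1 - 1)
  have m4 := hm (b2 - 1)
  have m5 := hm a
  have m6 := hm (b - 1)
  have m7 := hm b1
  have m8 := hm b2
  have n1 := hn a1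
  have n2 := hn a2
  omega

theorem long_of_copy {h r s c P a b : ℕ} (hP : 0 < P) (hc : Cp h r s c) (h1 : a / P ≤ s) (h2 : s + len r ≤ b / P) :
    Long (len h) P (Finset.Ico a b) := by
  have h3 := len_pos r
  have h3' := hc.fit
  refine ⟨a, b, rfl, s + 1, by omega, ?_, ?_⟩
  · have := Nat.lt_succ_of_le h1
    rw [Nat.succ_eq_add_one, Nat.div_lt_iff_lt_mul hP] at this
    exact this.le
  · have h4 : s + 1 + 1 ≤ b / P := by omega
    exact (Nat.le_div_iff_mul_le hP).1 h4

theorem Long.nonempty {q P : ℕ} (hP : 0 < P) {s : Finset ℕ} (h : Long q P s) : s.Nonempty := by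
  obtain ⟨a, b, rfl, β, _, h1, h2⟩ := h
  refine ⟨a, ?_⟩
  rw [Finset.mem_Ico]
  rw [add_mul] at h2
  omega

theorem Ranked.below {C : Circuit K (ℕ × L)} {I : C.N → Finset ℕ} {ρ : C.N → ℕ} {T : ℕ} (h : Ranked C I ρ T)
    {m n : C.N} (hb : C.Below m n) : ρ m ≤ ρ n := by
  unfold Circuit.Below at hb
  induction hb with
  | refl => exact le_refl _
  | tail _ h1 ih => exact ih.trans (h.1 _ _ h1)

theorem copy_card {h r s c P a b T : ℕ} (hP : T < P) (hc : Cp h r s c) (h1 : a / P ≤ s) (h2 : s + len r ≤ b / P) :
    ¬ (Finset.Ico a b).card ≤ T := by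
  have hP' : 0 < P := by omega
  obtain ⟨a', b', he, β, _, h3, h4⟩ := long_of_copy hP' hc h1 h2
  have h5 : β * P < (β + 1) * P := Nat.mul_lt_mul_of_pos_right (by omega) hP'
  rw [he, Nat.card_Ico]
  rw [add_mul, one_mul] at h4
  omega

/-- the main claim -/
theorem macro_claim {C : Circuit K (ℕ × L)} {I : C.N → Finset ℕ} {ρ : C.N → ℕ} {T : ℕ} (hws : Ranked C I ρ T)
    (hI : ∀ n, (∃ a b, I n = Finset.Ico a b) ∧ Typed I (I n) (C.gate n)) {al : C.N → Prop}
    (hadd : ∀ n l, al n → C.gate n = .add l → ∃ m ∈ l, al m)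
    (hmul : ∀ n a b, al n → C.gate n = .mul a b → al a ∧ al b) {h P : ℕ} (hP : T < P)
    (hbal : ∀ n a b, al n → a < b → I n = Finset.Ico a b → |vv h (a / P) - vv h (b / P)| ≤ 2) :
    ∀ r ≤ h, ∀ n a b s c, AR C al n → a < b → I n = Finset.Ico a b → Cp h r s c → a / P ≤ s → s + len r ≤ b / P →
      ∃ g, AR C al g ∧ C.Below g n ∧ ∃ F : Finset C.N, r ≤ F.card + ρ n ∧
        ∀ y ∈ F, (∃ x u, Pr C x y u ∧ C.Below g x ∧ C.Below u n) ∧ Long (len h) P (I y) := by
  classical
  have hP0 : 0 < P := by omega
  have hT : ∀ n, Typed I (I n) (C.gate n) := fun n => (hI n).2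
  intro r
  induction r with
  | zero =>
    intro _ n a b s c hn _ _ _ _ _
    exact ⟨n, hn, Relation.ReflTransGen.refl, ∅, Nat.zero_le _, fun y hy => absurd hy (Finset.notMem_empty _)⟩
  | succ r ih =>
    intro hr n a b s c hn hab hIn hcp h1 h2
    by_contra hcon
    -- the two arguments of a multiplication gate do not both contain copies
    have hboth : ∀ u, AR C al u → C.Below u n → ∀ x y, (C.gate u = .mul x y ∨ C.gate u = .mul y x) →
        ∀ a1 b1 a2 b2, a1 < b1 → a2 < b2 → I x = Finset.Ico a1 b1 → I y = Finset.Ico a2 b2 →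
        (C.Cut x y u ∨ ρ x < ρ u ∨ (I x).card ≤ T) →
        ¬ ((∃ s c, Cp h r s c ∧ a1 / P ≤ s ∧ s + len r ≤ b1 / P) ∧
          (∃ s c, Cp h r s c ∧ a2 / P ≤ s ∧ s + len r ≤ b2 / P)) := by
      rintro u hu hun x y hg a1 b1 a2 b2 h3 h4 hIx hIy hcase ⟨⟨s1, c1, hc1, h5, h6⟩, ⟨s2, c2, hc2, h7, h8⟩⟩
      have hedge : C.Edge x u := by
        unfold Circuit.Edge
        rcases hg with hg | hg <;> rw [hg] <;> simp [Gate.preds]
      have hedgey : C.Edge y u := by
        unfold Circuit.Edge
        rcases hg with hg | hg <;> rw [hg] <;> simp [Gate.preds]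
      have hx : AR C al x := by
        rcases hg with hg | hg
        · exact AR.mul hu hg (Or.inl rfl) (hmul u _ _ hu.al hg).1
        · exact AR.mul hu hg (Or.inr rfl) (hmul u _ _ hu.al hg).2
      have hxn : C.Below x n := Relation.ReflTransGen.head hedge hun
      have hdis : Disjoint (I x) (I y) := by
        have h9 := hT u
        rcases hg with hg | hg
        · rw [hg] at h9; exact h9.1
        · rw [hg] at h9; exact h9.1.symm
      obtain ⟨g, hg1, hg2, F, hF, hF'⟩ := ih (by omega) x a1 b1 s1 c1 hx h3 hIx hc1 h5 h6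
      rcases hcase with hcut | hcase
      · have hpr : Pr C x y u := ⟨hg, hcut⟩
        have hly : Long (len h) P (I y) := by rw [hIy]; exact long_of_copy hP0 hc2 h7 h8
        have hyF : y ∉ F := by
          intro hyF
          obtain ⟨⟨x', u', hp', _, hb'⟩, _⟩ := hF' y hyF
          have h9 : I y ⊆ I x := (sub_edge hT hp'.edge_right).trans (sub_below hT hb')
          obtain ⟨z, hz⟩ := hly.nonempty hP0
          exact Finset.disjoint_left.1 hdis (h9 hz) hz
        refine hcon ⟨g, hg1, hg2.trans hxn, insert y F, ?_, ?_⟩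
        · rw [Finset.card_insert_of_notMem hyF]
          have := hws.below hxn
          omega
        · intro y' hy'
          rcases Finset.mem_insert.1 hy' with rfl | hy'
          · exact ⟨⟨x, u, hpr, hg2, hun⟩, hly⟩
          · obtain ⟨⟨x', u', hp', hb1, hb'⟩, hl⟩ := hF' y' hy'
            exact ⟨⟨x', u', hp', hb1, hb'.trans hxn⟩, hl⟩
      · rcases hcase with hlt | hsh
        · refine hcon ⟨g, hg1, hg2.trans hxn, F, ?_, ?_⟩
          · have := hws.below hun
            omega
          · intro y' hy'
            obtain ⟨⟨x', u', hp', hb1, hb'⟩, hl⟩ := hF' y' hy'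
            exact ⟨⟨x', u', hp', hb1, hb'.trans hxn⟩, hl⟩
        · rw [hIx] at hsh
          exact copy_card hP hc1 h5 h6 hsh
    -- the chain
    have hchain : ∀ u, AR C al u → C.Below u n → ∀ a b, a < b → I u = Finset.Ico a b →
        Sp h r (a / P) (b / P) := by
      intro u
      induction u using C.wf.induction with
      | _ u ihu =>
        intro hu hun a b hab hIu
        have hb := hbal u a b hu.al hab hIu
        have hTu := hT u
        cases hg : C.gate u with
        | var x =>
          rw [hg] at hTu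
          have h3 : I u = {x.1} := hTu
          have h4 : Finset.Ico a b = Finset.Ico x.1 (x.1 + 1) := by
            rw [← hIu, h3, Nat.Ico_succ_singleton]
          obtain ⟨rfl, rfl⟩ := ico_eq hab h4
          have h5 : (x.1 + 1) / P ≤ x.1 / P + 1 := by
            calc (x.1 + 1) / P ≤ (x.1 + P) / P := Nat.div_le_div_right (by omega)
              _ = x.1 / P + 1 := Nat.add_div_right _ hP0
          have h6 := len_pos r
          have h7 : x.1 / P ≤ (x.1 + 1) / P := Nat.div_le_div_right (by omega)
          refine Sp.base (le_refl _) h7 ?_ ?_ hb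
          · rintro s b _ ⟨h8, h9⟩; omega
          · rintro s b _ ⟨h8, h9⟩; omega
        | const k =>
          rw [hg] at hTu
          have h3 : I u = ∅ := hTu
          rw [hIu, Finset.Ico_eq_empty_iff] at h3
          exact absurd hab h3
        | add l =>
          obtain ⟨m, hm, ha⟩ := hadd u l hu.al hg
          have hedge : C.Edge m u := by unfold Circuit.Edge; rw [hg]; exact hm
          rw [hg] at hTu
          exact ihu m hedge (AR.add hu hg hm ha) (Relation.ReflTransGen.head hedge hun) a b hab
            ((hTu m hm).trans hIu)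
        | mul x y =>
          have hal := hmul u x y hu.al hg
          have hedgex : C.Edge x u := by unfold Circuit.Edge; rw [hg]; simp [Gate.preds]
          have hedgey : C.Edge y u := by unfold Circuit.Edge; rw [hg]; simp [Gate.preds]
          have hxn : C.Below x n := Relation.ReflTransGen.head hedgex hun
          have hyn : C.Below y n := Relation.ReflTransGen.head hedgey hun
          have ihx := ihu x hedgex (AR.mul hu hg (Or.inl rfl) hal.1) hxn
          have ihy := ihu y hedgey (AR.mul hu hg (Or.inr rfl) hal.2) hyn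
          obtain ⟨a1, b1, hIx⟩ := (hI x).1
          obtain ⟨a2, b2, hIy⟩ := (hI y).1
          rw [hg] at hTu
          have hun' : I u = I x ∪ I y := hTu.2
          have hdis : Disjoint (I x) (I y) := hTu.1
          by_cases h3 : a1 < b1
          · by_cases h4 : a2 < b2
            · -- two nonempty intervals
              have hnot : ¬ ((∃ s c, Cp h r s c ∧ a1 / P ≤ s ∧ s + len r ≤ b1 / P) ∧
                  (∃ s c, Cp h r s c ∧ a2 / P ≤ s ∧ s + len r ≤ b2 / P)) := by
                rcases hws.2 u x y hg with h5 | h5 | h5 | h5 | h5 | h5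
                · exact hboth u hu hun x y (Or.inl hg) a1 b1 a2 b2 h3 h4 hIx hIy (Or.inl h5)
                · exact fun h6 => hboth u hu hun y x (Or.inr hg) a2 b2 a1 b1 h4 h3 hIy hIx (Or.inl h5) h6.symm
                · exact hboth u hu hun x y (Or.inl hg) a1 b1 a2 b2 h3 h4 hIx hIy (Or.inr (Or.inl h5))
                · exact fun h6 => hboth u hu hun y x (Or.inr hg) a2 b2 a1 b1 h4 h3 hIy hIx (Or.inr (Or.inl h5)) h6.symm
                · exact hboth u hu hun x y (Or.inl hg) a1 b1 a2 b2 h3 h4 hIx hIy (Or.inr (Or.inr h5))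
                · exact fun h6 => hboth u hu hun y x (Or.inr hg) a2 b2 a1 b1 h4 h3 hIy hIx (Or.inr (Or.inr h5)) h6.symm
              have hno : ∀ p q, ¬ (∃ s c, Cp h r s c ∧ p ≤ s ∧ s + len r ≤ q) → NoCp h r p q := by
                rintro p q h5 s c hc ⟨h6, h7⟩
                exact h5 ⟨s, c, hc, h6, h7⟩
              rw [hIu, hIx, hIy] at hun'
              rw [hIx, hIy] at hdis
              rcases split_ico h3 h4 hdis hun' with ⟨e1, e2, e3⟩ | ⟨e1, e2, e3⟩
              · subst e1 e2 e3
                have d1 : a1 / P ≤ b1 / P := Nat.div_le_div_right h3.le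
                have d2 : b1 / P ≤ b2 / P := Nat.div_le_div_right h4.le
                by_cases c1 : ∃ s c, Cp h r s c ∧ a1 / P ≤ s ∧ s + len r ≤ b1 / P
                · have c2 : NoCp h r (b1 / P) (b2 / P) := hno _ _ fun h5 => hnot ⟨c1, h5⟩
                  exact (ihx a1 b1 h3 hIx).right d2 c2 hb
                · by_cases c2 : ∃ s c, Cp h r s c ∧ b1 / P ≤ s ∧ s + len r ≤ b2 / P
                  · exact (ihy b1 b2 h4 hIy).left d1 (hno _ _ c1) hb
                  · exact Sp.base d1 d2 (hno _ _ c1) (hno _ _ c2) hb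
              · subst e1 e2 e3
                have d1 : a2 / P ≤ b2 / P := Nat.div_le_div_right h4.le
                have d2 : b2 / P ≤ b1 / P := Nat.div_le_div_right h3.le
                by_cases c1 : ∃ s c, Cp h r s c ∧ b2 / P ≤ s ∧ s + len r ≤ b1 / P
                · have c2 : NoCp h r (a2 / P) (b2 / P) := hno _ _ fun h5 => hnot ⟨c1, h5⟩
                  exact (ihx b2 b1 h3 hIx).left d1 c2 hb
                · by_cases c2 : ∃ s c, Cp h r s c ∧ a2 / P ≤ s ∧ s + len r ≤ b2 / P
                  · exact (ihy a2 b2 h4 hIy).right d2 (hno _ _ c1) hb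
                  · exact Sp.base d1 d2 (hno _ _ c2) (hno _ _ c1) hb
            · have h5 : I y = ∅ := by rw [hIy, Finset.Ico_eq_empty_iff]; exact h4
              rw [h5, Finset.union_empty, hIu] at hun'
              exact ihx a b hab hun'.symm
          · have h5 : I x = ∅ := by rw [hIx, Finset.Ico_eq_empty_iff]; exact h3
            rw [h5, Finset.empty_union, hIu] at hun'
            exact ihy a b hab hun'.symm
    exact (hchain n hn Relation.ReflTransGen.refl a b hab hIn).contra hcp h1 h2

end Pool.Agent.H5DY
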