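import Pool.Agent.H5DY.Build
import Pool.Agent.H5DY.Dyck

/-!
# The small circuit for the Dyck polynomials
-/

set_option autoImplicit false

namespace Pool.Agent.H5DY

open Pool.Agent.H20VP Finset MvPolynomial

/-- the nodes -/
inductive Nd : Type
  | v (p : ℕ) (o c : Bool) : Nd
  | one : Nd
  | A (a j : ℕ) (c : Bool) : Nd
  | B' (a j : ℕ) (c : Bool) : Nd
  | B (a j : ℕ) : Nd
  | P (a m j : ℕ) : Nd
  | S (a m j : ℕ) : Nd

/-- the node of the Dyck polynomial -/
def Fn : ℕ → ℕ → Nd
  | 0, _ => .one
  | m + 1, a => .S a (m + 1) m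

/-- the labels -/
def dgate (K : Type) [CommSemiring K] : Nd → Gate K (ℕ × Bool × Bool) Nd
  | .v p o c => .var (p, o, c)
  | .one => .const 1
  | .A a j c => .mul (.v a true c) (Fn j (a + 1))
  | .B' a j c => .mul (.A a j c) (.v (a + 2 * j + 1) false c)
  | .B a j => .add [.B' a j true, .B' a j false]
  | .P a m j => .mul (.B a j) (Fn (m - 1 - j) (a + 2 * j + 2))
  | .S a m 0 => .mul (.B a 0) (Fn (m - 1) (a + 2))
  | .S a m (j + 1) => .add [.S a m j, .P a m (j + 1)]

/-- the polynomials -/
noncomputable def dval (K : Type) [CommSemiring K] : Nd → MvPolynomial (ℕ × Bool × Bool) K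
  | .v p o c => X (p, o, c)
  | .one => 1
  | .A a j c => X (a, true, c) * dyck K j (a + 1)
  | .B' a j c => X (a, true, c) * dyck K j (a + 1) * X (a + 2 * j + 1, false, c)
  | .B a j => ∑ c : Bool, X (a, true, c) * dyck K j (a + 1) * X (a + 2 * j + 1, false, c)
  | .P a m j => (∑ c : Bool, X (a, true, c) * dyck K j (a + 1) * X (a + 2 * j + 1, false, c)) *
      dyck K (m - 1 - j) (a + 2 * j + 2)
  | .S a m j => ∑ i ∈ range (j + 1), (∑ c : Bool, X (a, true, c) * dyck K i (a + 1) * X (a + 2 * i + 1, false, c)) *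
      dyck K (m - 1 - i) (a + 2 * i + 2)

theorem dyck_zero (K : Type) [CommSemiring K] (a : ℕ) : dyck K 0 a = 1 := by rw [dyck]

theorem dyck_succ (K : Type) [CommSemiring K] (m a : ℕ) : dyck K (m + 1) a =
    ∑ i ∈ range (m + 1), (∑ c : Bool, X (a, true, c) * dyck K i (a + 1) * X (a + 2 * i + 1, false, c)) *
      dyck K (m - i) (a + 2 * i + 2) := by
  rw [dyck, Finset.sum_range]

theorem dval_Fn (K : Type) [CommSemiring K] (m a : ℕ) : dval K (Fn m a) = dyck K m a := by
  cases m with
  | zero => rw [dyck_zero]; rfl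
  | succ m => rw [dyck_succ]; rfl

theorem dval_eq (K : Type) [CommSemiring K] (t : Nd) : dval K t = (dgate K t).value (dval K) := by
  cases t with
  | v p o c => rfl
  | one => simp [dval, dgate, Gate.value]
  | A a j c => simp only [dgate, Gate.value, dval_Fn]; rfl
  | B' a j c => rfl
  | B a j =>
    simp only [dgate, Gate.value, List.map_cons, List.map_nil, List.sum_cons, List.sum_nil, add_zero, dval]
    rw [Fintype.sum_bool]
  | P a m j => simp only [dgate, Gate.value, dval_Fn]; rfl
  | S a m j =>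
    cases j with
    | zero =>
      simp only [dgate, Gate.value, dval_Fn]
      simp only [dval]
      rw [Finset.sum_range_one]
      rfl
    | succ j =>
      simp only [dgate, Gate.value, List.map_cons, List.map_nil, List.sum_cons, List.sum_nil, add_zero, dval]
      rw [Finset.sum_range_succ]

/-- the index sets -/
def dI : Nd → Finset ℕ
  | .v p _ _ => {p}
  | .one => ∅
  | .A a j _ => Ico a (a + 2 * j + 1)
  | .B' a j _ => Ico a (a + 2 * j + 2)
  | .B a j => Ico a (a + 2 * j + 2)
  | .P a m _ => Ico a (a + 2 * m)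
  | .S a m _ => Ico a (a + 2 * m)

/-- the nodes which are used -/
def dok (n : ℕ) : Nd → Prop
  | .v p _ _ => p < 2 * n
  | .one => True
  | .A a j _ => a + 2 * j + 2 ≤ 2 * n
  | .B' a j _ => a + 2 * j + 2 ≤ 2 * n
  | .B a j => a + 2 * j + 2 ≤ 2 * n
  | .P a m j => j < m ∧ a + 2 * m ≤ 2 * n
  | .S a m j => j < m ∧ a + 2 * m ≤ 2 * n

theorem dI_Fn (m a : ℕ) : dI (Fn m a) = Ico a (a + 2 * m) := by
  cases m with
  | zero => simp [Fn, dI]
  | succ m => rfl

theorem dok_Fn {n m a : ℕ} (h : a + 2 * m ≤ 2 * n) : dok n (Fn m a) := by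
  cases m with
  | zero => trivial
  | succ m => exact ⟨by omega, h⟩

theorem dok_closed (K : Type) [CommSemiring K] (n : ℕ) (t : Nd) (ht : dok n t) : ∀ s ∈ (dgate K t).preds, dok n s := by
  intro s hs
  cases t with
  | v p o c => simp [dgate, Gate.preds] at hs
  | one => simp [dgate, Gate.preds] at hs
  | A a j c =>
    simp only [dgate, Gate.preds, List.mem_cons, List.not_mem_nil, or_false] at hs
    simp only [dok] at ht
    rcases hs with rfl | rfl
    · show a < 2 * n; omega
    · exact dok_Fn (by omega)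
  | B' a j c =>
    simp only [dgate, Gate.preds, List.mem_cons, List.not_mem_nil, or_false] at hs
    simp only [dok] at ht
    rcases hs with rfl | rfl
    · exact ht
    · show a + 2 * j + 1 < 2 * n; omega
  | B a j =>
    simp only [dgate, Gate.preds, List.mem_cons, List.not_mem_nil, or_false] at hs
    rcases hs with rfl | rfl
    · exact ht
    · exact ht
  | P a m j =>
    simp only [dgate, Gate.preds, List.mem_cons, List.not_mem_nil, or_false] at hs
    simp only [dok] at ht
    rcases hs with rfl | rfl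
    · show a + 2 * j + 2 ≤ 2 * n; omega
    · exact dok_Fn (by omega)
  | S a m j =>
    simp only [dok] at ht
    cases j with
    | zero =>
      simp only [dgate, Gate.preds, List.mem_cons, List.not_mem_nil, or_false] at hs
      rcases hs with rfl | rfl
      · show a + 2 * 0 + 2 ≤ 2 * n; omega
      · exact dok_Fn (by omega)
    | succ j =>
      simp only [dgate, Gate.preds, List.mem_cons, List.not_mem_nil, or_false] at hs
      rcases hs with rfl | rfl
      · exact ⟨by omega, ht.2⟩
      · exact ⟨by omega, ht.2⟩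

/-- the rank of a node -/
def drk : Nd → ℕ ×ₗ ℕ
  | .v _ _ _ => toLex (0, 0)
  | .one => toLex (0, 0)
  | .A _ j _ => toLex (j, j + 1)
  | .B' _ j _ => toLex (j, j + 2)
  | .B _ j => toLex (j, j + 3)
  | .P _ m _ => toLex (m, 0)
  | .S _ m j => toLex (m, j + 1)

theorem lex_lt {a b c d : ℕ} (h : a < c ∨ (a = c ∧ b < d)) : (toLex (a, b) : ℕ ×ₗ ℕ) < toLex (c, d) := by
  rw [Prod.Lex.toLex_lt_toLex]
  exact h

theorem drk_Fn (m a : ℕ) : drk (Fn m a) = toLex (m, m) := by
  cases m with
  | zero => rfl
  | succ m => rfl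

theorem drk_lt (K : Type) [CommSemiring K] (n : ℕ) (t : Nd) (ht : dok n t) :
    ∀ s ∈ (dgate K t).preds, drk s < drk t := by
  intro s hs
  cases t with
  | v p o c => simp [dgate, Gate.preds] at hs
  | one => simp [dgate, Gate.preds] at hs
  | A a j c =>
    simp only [dgate, Gate.preds, List.mem_cons, List.not_mem_nil, or_false] at hs
    rcases hs with rfl | rfl
    · exact lex_lt (by omega)
    · rw [drk_Fn]; exact lex_lt (by omega)
  | B' a j c =>
    simp only [dgate, Gate.preds, List.mem_cons, List.not_mem_nil, or_false] at hs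
    rcases hs with rfl | rfl
    · exact lex_lt (by omega)
    · exact lex_lt (by omega)
  | B a j =>
    simp only [dgate, Gate.preds, List.mem_cons, List.not_mem_nil, or_false] at hs
    rcases hs with rfl | rfl
    · exact lex_lt (by omega)
    · exact lex_lt (by omega)
  | P a m j =>
    simp only [dgate, Gate.preds, List.mem_cons, List.not_mem_nil, or_false] at hs
    simp only [dok] at ht
    rcases hs with rfl | rfl
    · exact lex_lt (by omega)
    · rw [drk_Fn]; exact lex_lt (by omega)
  | S a m j =>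
    simp only [dok] at ht
    cases j with
    | zero =>
      simp only [dgate, Gate.preds, List.mem_cons, List.not_mem_nil, or_false] at hs
      rcases hs with rfl | rfl
      · exact lex_lt (by omega)
      · rw [drk_Fn]; exact lex_lt (by omega)
    | succ j =>
      simp only [dgate, Gate.preds, List.mem_cons, List.not_mem_nil, or_false] at hs
      rcases hs with rfl | rfl
      · exact lex_lt (by omega)
      · exact lex_lt (by omega)

theorem disj_Ico {a b c d : ℕ} (h : b ≤ c) : Disjoint (Ico a b) (Ico c d) := by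
  rw [Finset.disjoint_left]
  intro x hx hx'
  rw [mem_Ico] at hx hx'
  omega

theorem dI_typed (K : Type) [CommSemiring K] (n : ℕ) (t : Nd) (ht : dok n t) :
    (∃ a b, dI t = Ico a b) ∧ Typed dI (dI t) (dgate K t) := by
  cases t with
  | v p o c => exact ⟨⟨p, p + 1, by simp [dI]⟩, rfl⟩
  | one => exact ⟨⟨0, 0, by simp [dI]⟩, rfl⟩
  | A a j c =>
    refine ⟨⟨_, _, rfl⟩, ?_⟩
    show Disjoint (dI (.v a true c)) (dI (Fn j (a + 1))) ∧ _
    rw [dI_Fn]
    constructor
    · simp [dI]
    · ext x; simp only [dI, mem_Ico, mem_union, mem_singleton]; omega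
  | B' a j c =>
    refine ⟨⟨_, _, rfl⟩, ?_, ?_⟩
    · simp [dI]
    · ext x; simp only [dI, mem_Ico, mem_union, mem_singleton]; omega
  | B a j =>
    refine ⟨⟨_, _, rfl⟩, ?_⟩
    intro m hm
    simp only [List.mem_cons, List.not_mem_nil, or_false] at hm
    rcases hm with rfl | rfl <;> rfl
  | P a m j =>
    simp only [dok] at ht
    refine ⟨⟨_, _, rfl⟩, ?_⟩
    show Disjoint (dI (.B a j)) (dI (Fn (m - 1 - j) (a + 2 * j + 2))) ∧ _
    rw [dI_Fn]
    constructor
    · exact disj_Ico (le_refl _)
    · ext x; simp only [dI, mem_Ico, mem_union]; omega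
  | S a m j =>
    simp only [dok] at ht
    refine ⟨⟨_, _, rfl⟩, ?_⟩
    cases j with
    | zero =>
      show Disjoint (dI (.B a 0)) (dI (Fn (m - 1) (a + 2))) ∧ _
      rw [dI_Fn]
      constructor
      · exact disj_Ico (le_refl _)
      · ext x; simp only [dI, mem_Ico, mem_union]; omega
    | succ j =>
      intro m' hm
      simp only [List.mem_cons, List.not_mem_nil, or_false] at hm
      rcases hm with rfl | rfl <;> rfl

open Classical in
/-- a finite set which contains the nodes which are used -/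
noncomputable def dB (n : ℕ) : Finset Nd :=
  ((range (2 * n)) ×ˢ (univ : Finset (Bool × Bool))).image (fun x => .v x.1 x.2.1 x.2.2) ∪ {Nd.one} ∪
  ((range (2 * n) ×ˢ range n) ×ˢ (univ : Finset Bool)).image (fun x => .A x.1.1 x.1.2 x.2) ∪
  ((range (2 * n) ×ˢ range n) ×ˢ (univ : Finset Bool)).image (fun x => .B' x.1.1 x.1.2 x.2) ∪
  (range (2 * n) ×ˢ range n).image (fun x => .B x.1 x.2) ∪
  (range (2 * n) ×ˢ (range (n + 1) ×ˢ range n)).image (fun x => .P x.1 x.2.1 x.2.2) ∪
  (range (2 * n) ×ˢ (range (n + 1) ×ˢ range n)).image (fun x => .S x.1 x.2.1 x.2.2)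

theorem mem_dB {n : ℕ} (t : Nd) (ht : dok n t) : t ∈ dB n := by
  classical
  unfold dB
  simp only [mem_union, mem_image, mem_product, mem_range, mem_univ, and_true, mem_singleton]
  cases t with
  | v p o c =>
    refine Or.inl (Or.inl (Or.inl (Or.inl (Or.inl (Or.inl ⟨(p, (o, c)), ?_, rfl⟩)))))
    exact ht
  | one => exact Or.inl (Or.inl (Or.inl (Or.inl (Or.inl (Or.inr rfl)))))
  | A a j c =>
    simp only [dok] at ht
    exact Or.inl (Or.inl (Or.inl (Or.inl (Or.inr ⟨((a, j), c), ⟨by show a < _; omega, by show j < _; omega⟩, rfl⟩))))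
  | B' a j c =>
    simp only [dok] at ht
    exact Or.inl (Or.inl (Or.inl (Or.inr ⟨((a, j), c), ⟨by show a < _; omega, by show j < _; omega⟩, rfl⟩)))
  | B a j =>
    simp only [dok] at ht
    exact Or.inl (Or.inl (Or.inr ⟨(a, j), ⟨by show a < _; omega, by show j < _; omega⟩, rfl⟩))
  | P a m j =>
    simp only [dok] at ht
    exact Or.inl (Or.inr ⟨(a, (m, j)), ⟨by show a < _; omega, by show m < _; omega, by show j < _; omega⟩, rfl⟩)
  | S a m j =>
    simp only [dok] at ht
    exact Or.inr ⟨(a, (m, j)), ⟨by show a < _; omega, by show m < _; omega, by show j < _; omega⟩, rfl⟩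

theorem card_dB {n : ℕ} (hn : 1 ≤ n) : (dB n).card ≤ 27 * n ^ 3 := by
  classical
  have h1 : (dB n).card ≤ 2 * n * 4 + 1 + 2 * n * n * 2 + 2 * n * n * 2 + 2 * n * n + 2 * n * ((n + 1) * n) +
      2 * n * ((n + 1) * n) := by
    unfold dB
    refine (card_union_le _ _).trans (Nat.add_le_add ?_ (card_image_le.trans (by simp)))
    refine (card_union_le _ _).trans (Nat.add_le_add ?_ (card_image_le.trans (by simp)))
    refine (card_union_le _ _).trans (Nat.add_le_add ?_ (card_image_le.trans (by simp)))
    refine (card_union_le _ _).trans (Nat.add_le_add ?_ (card_image_le.trans (by simp)))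
    refine (card_union_le _ _).trans (Nat.add_le_add ?_ (card_image_le.trans (by simp)))
    refine (card_union_le _ _).trans (Nat.add_le_add (card_image_le.trans (by simp)) (by simp))
  refine h1.trans ?_
  have h2 : n ≤ n ^ 3 := by
    calc n = n ^ 1 := (pow_one n).symm
      _ ≤ n ^ 3 := Nat.pow_le_pow_right hn (by norm_num)
  have h3 : n ^ 2 ≤ n ^ 3 := Nat.pow_le_pow_right hn (by norm_num)
  nlinarith

/-- the circuit -/
theorem small_circuit (K : Type) [CommSemiring K] {n : ℕ} (hn : 1 ≤ n) :
    ∃ C : Circuit K (ℕ × Bool × Bool), C.Computes (dyck K n 0) ∧ C.FanInTwo ∧ IntervalSML C ∧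
      C.size ≤ 27 * n ^ 3 := by
  classical
  have hroot : dok n (Fn n 0) := dok_Fn (by omega)
  have hfin : {t | dok n t}.Finite := (dB n).finite_toSet.subset fun t ht => mem_dB t ht
  have hR : WellFounded (fun s t : Nd => drk s < drk t) := InvImage.wf drk (wellFounded_lt)
  refine ⟨mkC (dgate K) (Fn n 0) (dok n) hroot (dok_closed K n) hR (drk_lt K n) hfin, ?_, ?_, ?_, ?_⟩
  · have := mkC_computes (dgate K) (Fn n 0) (dok n) hroot (dok_closed K n) hR (drk_lt K n) hfin (dval K)
      (fun t _ => dval_eq K t)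
    rwa [dval_Fn] at this
  · refine mkC_fanInTwo _ _ _ _ _ _ _ _ ?_
    intro t l _ hl
    cases t with
    | v p o c => simp [dgate] at hl
    | one => simp [dgate] at hl
    | A a j c => simp [dgate] at hl
    | B' a j c => simp [dgate] at hl
    | B a j => simp only [dgate, Gate.add.injEq] at hl; rw [← hl]; rfl
    | P a m j => simp [dgate] at hl
    | S a m j =>
      cases j with
      | zero => simp [dgate] at hl
      | succ j => simp only [dgate, Gate.add.injEq] at hl; rw [← hl]; rfl
  · exact mkC_typed _ _ _ _ _ _ _ _ dI (dI_typed K n)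
  · exact (mkC_size _ _ _ _ _ _ _ _ (dB n) (fun t ht => mem_dB t ht)).trans (card_dB hn)

end Pool.Agent.H5DY
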