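import Pool.Agent.H5DY.Tree

/-!
# Values of circuits at points, and the removal of a set of nodes
-/

set_option autoImplicit false

namespace Pool.Agent.H5DY

open Pool.Agent.H20VP Finset

variable {K X L : Type} [Field K]

/-- the value of a gate at a point -/
def gev {N : Type} (pt : X → K) (F : N → K) : Gate K X N → K
  | .var x => pt x
  | .const c => c
  | .add l => (l.map F).sum
  | .mul a b => F a * F b

theorem eval_value {N : Type} (pt : X → K) (φ : N → MvPolynomial X K) (g : Gate K X N) :
    MvPolynomial.eval pt (g.value φ) = gev pt (fun n => MvPolynomial.eval pt (φ n)) g := by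
  cases g with
  | var x => simp [Gate.value, gev]
  | const c => simp [Gate.value, gev]
  | add l =>
    simp only [Gate.value, gev]
    rw [map_list_sum, List.map_map]
    rfl
  | mul a b => simp [Gate.value, gev]

/-- the values at the point `pt` if the values at the nodes in `D` are replaced by zero -/
noncomputable def A (C : Circuit K X) (D : Set C.N) (pt : X → K) : C.N → K := by
  classical
  exact C.wf.fix fun n rec =>
    if n ∈ D then 0 else
      match hg : C.gate n with
      | .var x => pt x
      | .const c => c
      | .add l => (l.attach.map fun m => rec m.1 (by unfold Circuit.Edge; rw [hg]; exact m.2)).sum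
      | .mul a b => rec a (by unfold Circuit.Edge; rw [hg]; simp [Gate.preds]) *
          rec b (by unfold Circuit.Edge; rw [hg]; simp [Gate.preds])

theorem A_mem {C : Circuit K X} {D : Set C.N} (pt : X → K) {n : C.N} (hn : n ∈ D) : A C D pt n = 0 := by
  classical
  unfold A
  rw [WellFounded.fix_eq]
  rw [if_pos hn]

theorem A_eq {C : Circuit K X} {D : Set C.N} (pt : X → K) {n : C.N} (hn : n ∉ D) :
    A C D pt n = gev pt (A C D pt) (C.gate n) := by
  classical
  conv_lhs => unfold A
  rw [WellFounded.fix_eq, if_neg hn]
  split
  · rename_i x hg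
    exact (congrArg (gev pt (A C D pt)) hg).symm
  · rename_i c hg
    exact (congrArg (gev pt (A C D pt)) hg).symm
  · rename_i l hg
    refine Eq.trans ?_ (congrArg (gev pt (A C D pt)) hg).symm
    show _ = (l.map (A C D pt)).sum
    congr 1
    conv_rhs => rw [← List.attach_map_subtype_val l]
    rw [List.map_map]
    rfl
  · rename_i a b hg
    refine Eq.trans ?_ (congrArg (gev pt (A C D pt)) hg).symm
    rfl

theorem gev_congr {N : Type} (pt : X → K) {F G : N → K} (g : Gate K X N) (h : ∀ m ∈ g.preds, F m = G m) :
    gev pt F g = gev pt G g := by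
  cases g with
  | var x => rfl
  | const c => rfl
  | add l =>
    simp only [gev]
    congr 1
    exact List.map_congr_left h
  | mul a b =>
    simp only [gev]
    rw [h a (by simp [Gate.preds]), h b (by simp [Gate.preds])]

theorem A_empty {C : Circuit K X} {φ : C.N → MvPolynomial X K} (hφ : ∀ n, φ n = (C.gate n).value φ) (pt : X → K)
    (n : C.N) : A C ∅ pt n = MvPolynomial.eval pt (φ n) := by
  induction n using C.wf.induction with
  | _ n ih =>
    rw [A_eq pt (Set.notMem_empty n), hφ n, eval_value]
    exact gev_congr pt _ ih

/-! ### dependence on coordinates -/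

/-- the function depends only on the elements of `T` -/
def Dep (T : Finset ℕ) (f : Finset ℕ → K) : Prop := ∀ c c', (∀ p ∈ T, p ∈ c ↔ p ∈ c') → f c = f c'

omit [Field K] in
theorem Dep.mono {T T' : Finset ℕ} {f : Finset ℕ → K} (h : Dep T f) (hT : T ⊆ T') : Dep T' f :=
  fun c c' hc => h c c' fun p hp => hc p (hT hp)

theorem Dep.mul {T : Finset ℕ} {f g : Finset ℕ → K} (hf : Dep T f) (hg : Dep T g) : Dep T (fun c => f c * g c) :=
  fun c c' hc => by show f c * g c = f c' * g c'; rw [hf c c' hc, hg c c' hc]

theorem Dep.add {T : Finset ℕ} {f g : Finset ℕ → K} (hf : Dep T f) (hg : Dep T g) : Dep T (fun c => f c + g c) :=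
  fun c c' hc => by show f c + g c = f c' + g c'; rw [hf c c' hc, hg c c' hc]

variable {C : Circuit K (ℕ × L)} {I : C.N → Finset ℕ} (hI : ∀ n, Typed I (I n) (C.gate n))
  {pt : Finset ℕ → ℕ × L → K} (hpt : ∀ c c' x, (x.1 ∈ c ↔ x.1 ∈ c') → pt c x = pt c' x)

include hI

include hpt in
theorem A_dep (D : Set C.N) (n : C.N) : Dep (I n) (fun c => A C D (pt c) n) := by
  induction n using C.wf.induction with
  | _ n ih =>
    by_cases hn : n ∈ D
    · intro c c' _
      simp only [A_mem _ hn]
    · intro c c' hc
      simp only [A_eq _ hn]
      have hT := hI n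
      have ih' : ∀ m ∈ (C.gate n).preds, Dep (I m) (fun c => A C D (pt c) m) := ih
      revert hT ih'
      generalize C.gate n = g
      intro hT ih'
      cases g with
      | var x =>
        have h1 : I n = {x.1} := hT
        exact hpt c c' x (hc x.1 (by rw [h1]; simp))
      | const k => rfl
      | add l =>
        simp only [gev]
        congr 1
        refine List.map_congr_left fun m hm => ?_
        exact ih' m hm c c' (by rw [hT m hm]; exact hc)
      | mul a b =>
        simp only [gev]
        have h1 := ih' a (by simp [Gate.preds]) c c' fun p hp => hc p (by rw [hT.2]; exact mem_union_left _ hp)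
        have h2 := ih' b (by simp [Gate.preds]) c c' fun p hp => hc p (by rw [hT.2]; exact mem_union_right _ hp)
        simp only at h1 h2
        rw [h1, h2]

/-- the summands for the removed nodes -/
def Ok (D : Set C.N) (I : C.N → Finset ℕ) (s : Finset ℕ) (t : C.N) (f : Finset ℕ → K) : Prop :=
  f = 0 ∨ (t ∈ D ∧ I t ⊆ s ∧ Dep (s \ I t) f)

omit hI in
theorem Ok.add {D : Set C.N} {s : Finset ℕ} {t : C.N} {f g : Finset ℕ → K} (hf : Ok D I s t f)
    (hg : Ok D I s t g) : Ok D I s t (f + g) := by
  rcases hf with rfl | ⟨h1, h2, h3⟩
  · rw [zero_add]; exact hg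
  · rcases hg with rfl | ⟨_, _, h6⟩
    · rw [add_zero]; exact Or.inr ⟨h1, h2, h3⟩
    · exact Or.inr ⟨h1, h2, h3.add h6⟩

include hpt in
/-- the decomposition -/
theorem decomp (D : Set C.N) [Fintype C.N] (n : C.N) : ∃ R : C.N → Finset ℕ → K, (∀ t, Ok D I (I n) t (R t)) ∧
    ∀ c, A C ∅ (pt c) n = A C D (pt c) n + ∑ t, A C ∅ (pt c) t * R t c := by
  classical
  induction n using C.wf.induction with
  | _ n ih =>
    by_cases hn : n ∈ D
    · refine ⟨fun t => if t = n then 1 else 0, ?_, ?_⟩
      · intro t
        show Ok D I (I n) t (if t = n then 1 else 0)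
        by_cases ht : t = n
        · right
          rw [if_pos ht]
          subst ht
          exact ⟨hn, Finset.Subset.refl _, fun c c' _ => rfl⟩
        · left; rw [if_neg ht]
      · intro c
        rw [A_mem _ hn, zero_add, Finset.sum_eq_single n]
        · simp
        · intro t _ ht
          simp [ht]
        · intro h; exact absurd (Finset.mem_univ n) h
    · have hT := hI n
      have hdep : ∀ (D : Set C.N) (m : C.N), Dep (I m) (fun c => A C D (pt c) m) := A_dep hI hpt
      have ih' : ∀ m ∈ (C.gate n).preds, ∃ R : C.N → Finset ℕ → K, (∀ t, Ok D I (I m) t (R t)) ∧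
        ∀ c, A C ∅ (pt c) m = A C D (pt c) m + ∑ t, A C ∅ (pt c) t * R t c := ih
      have e1 : ∀ c, A C ∅ (pt c) n = gev (pt c) (A C ∅ (pt c)) (C.gate n) := fun c =>
        A_eq _ (Set.notMem_empty n)
      have e2 : ∀ c, A C D (pt c) n = gev (pt c) (A C D (pt c)) (C.gate n) := fun c => A_eq _ hn
      simp only [e1, e2]
      revert hT ih'
      generalize C.gate n = g
      intro hT ih'
      cases g with
      | var x =>
        refine ⟨fun _ => 0, fun t => Or.inl rfl, fun c => ?_⟩
        simp [gev]
      | const k =>
        refine ⟨fun _ => 0, fun t => Or.inl rfl, fun c => ?_⟩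
        simp [gev]
      | add l =>
        have h1 : ∀ m : C.N, ∃ R : C.N → Finset ℕ → K, m ∈ l → ((∀ t, Ok D I (I m) t (R t)) ∧
            ∀ c, A C ∅ (pt c) m = A C D (pt c) m + ∑ t, A C ∅ (pt c) t * R t c) := by
          intro m
          by_cases hm : m ∈ l
          · obtain ⟨R, hR⟩ := ih' m hm
            exact ⟨R, fun _ => hR⟩
          · exact ⟨fun _ => 0, fun h => absurd h hm⟩
        choose Rf hRf using h1
        clear ih' ih e1 e2
        refine ⟨fun t => (l.map fun m => Rf m t).sum, ?_, ?_⟩
        · intro t
          have : ∀ m ∈ l, Ok D I (I n) t (Rf m t) := by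
            intro m hm
            have := (hRf m hm).1 t
            rwa [hT m hm] at this
          clear hT hRf
          show Ok D I (I n) t (l.map fun m => Rf m t).sum
          induction l with
          | nil => exact Or.inl rfl
          | cons m l ihl =>
            rw [List.map_cons, List.sum_cons]
            exact (this m (by simp)).add (ihl fun m' hm' => this m' (by simp [hm']))
        · intro c
          simp only [gev]
          have : ∀ m ∈ l, A C ∅ (pt c) m = A C D (pt c) m + ∑ t, A C ∅ (pt c) t * Rf m t c :=
            fun m hm => (hRf m hm).2 c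
          clear hT hRf
          induction l with
          | nil => simp
          | cons m l ihl =>
            simp only [List.map_cons, List.sum_cons]
            rw [this m (by simp), ihl fun m' hm' => this m' (by simp [hm'])]
            simp only [Pi.add_apply, mul_add, Finset.sum_add_distrib]
            ring
      | mul a b =>
        obtain ⟨Ra, hRa, hRa'⟩ := ih' a (by simp [Gate.preds])
        obtain ⟨Rb, hRb, hRb'⟩ := ih' b (by simp [Gate.preds])
        have hdis := hT.1
        have hun := hT.2
        refine ⟨fun t => (fun c => Ra t c * A C ∅ (pt c) b) + (fun c => A C D (pt c) a * Rb t c), ?_, ?_⟩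
        · intro t
          refine Ok.add ?_ ?_
          · rcases hRa t with h1 | ⟨h1, h2, h3⟩
            · left; funext c; simp [h1]
            · right
              have h4 : I t ⊆ I n := by rw [hun]; exact h2.trans subset_union_left
              refine ⟨h1, h4, (h3.mono ?_).mul ((hdep ∅ b).mono ?_)⟩
              · rw [hun]; exact sdiff_subset_sdiff subset_union_left (Finset.Subset.refl _)
              · intro p hp
                rw [Finset.mem_sdiff, hun, Finset.mem_union]
                exact ⟨Or.inr hp, fun hpt => Finset.disjoint_left.1 hdis (h2 hpt) hp⟩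
          · rcases hRb t with h1 | ⟨h1, h2, h3⟩
            · left; funext c; simp [h1]
            · right
              have h4 : I t ⊆ I n := by rw [hun]; exact h2.trans subset_union_right
              refine ⟨h1, h4, ((hdep D a).mono ?_).mul (h3.mono ?_)⟩
              · intro p hp
                rw [Finset.mem_sdiff, hun, Finset.mem_union]
                exact ⟨Or.inl hp, fun hpt => Finset.disjoint_left.1 hdis hp (h2 hpt)⟩
              · rw [hun]; exact sdiff_subset_sdiff subset_union_right (Finset.Subset.refl _)
        · intro c
          simp only [gev, Pi.add_apply]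
          rw [hRa' c]
          have h5 : ∑ t, A C ∅ (pt c) t * (Ra t c * A C ∅ (pt c) b + A C D (pt c) a * Rb t c) =
              (∑ t, A C ∅ (pt c) t * Ra t c) * A C ∅ (pt c) b + A C D (pt c) a * ∑ t, A C ∅ (pt c) t * Rb t c := by
            rw [Finset.sum_mul, Finset.mul_sum, ← Finset.sum_add_distrib]
            refine Finset.sum_congr rfl fun t _ => ?_
            ring
          rw [h5]
          have h6 := hRb' c
          linear_combination (A C D (pt c) a) * h6

/-- a node whose index set contains a position at which all variables are zero has the value zero -/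
theorem A_zero (D : Set C.N) {p : ℕ} {c : Finset ℕ} (hz : ∀ x : ℕ × L, x.1 = p → pt c x = 0) (n : C.N)
    (hp : p ∈ I n) : A C D (pt c) n = 0 := by
  induction n using C.wf.induction with
  | _ n ih =>
    by_cases hn : n ∈ D
    · exact A_mem _ hn
    · rw [A_eq _ hn]
      have hT := hI n
      have ih' : ∀ m ∈ (C.gate n).preds, p ∈ I m → A C D (pt c) m = 0 := ih
      revert hT ih'
      generalize C.gate n = g
      intro hT ih'
      cases g with
      | var x =>
        have h1 : I n = {x.1} := hT
        rw [h1, Finset.mem_singleton] at hp
        exact hz x hp.symm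
      | const k =>
        have h1 : I n = ∅ := hT
        rw [h1] at hp
        exact absurd hp (Finset.notMem_empty _)
      | add l =>
        simp only [gev]
        refine List.sum_eq_zero fun a ha => ?_
        obtain ⟨m, hm, rfl⟩ := List.mem_map.1 ha
        exact ih' m hm (by rw [hT m hm]; exact hp)
      | mul a b =>
        simp only [gev]
        rw [hT.2, Finset.mem_union] at hp
        rcases hp with hp | hp
        · rw [ih' a (by simp [Gate.preds]) hp, zero_mul]
        · rw [ih' b (by simp [Gate.preds]) hp, mul_zero]

end Pool.Agent.H5DY
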