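import Pool.Agent.H5DY.Copies

/-!
# The random walks
-/

set_option autoImplicit false

namespace Pool.Agent.H5DY

open Finset

theorem vv_steps {h t : ℕ} (ht : t < len h + om h) : vv h (t + 1) = vv h t + 1 ∨ vv h (t + 1) = vv h t - 1 := by
  rcases Nat.lt_or_ge t (len h) with h1 | h1
  · rw [vv_left (by omega), vv_left h1.le]
    exact J_steps h t h1
  · right
    rw [vv_right (by omega), vv_right h1]
    omega

theorem vv_end {h t : ℕ} (ht : len h + om h ≤ t) : vv h t = 0 := by
  rw [vv_right (by omega)]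
  have : len h + om h - t = 0 := by omega
  rw [this]; rfl

/-- the number of the blocks -/
def Q (h : ℕ) : ℕ := len h + om h

/-- the steps: every block consists of `lam` equal steps and `M` random steps; then `Q h * M` steps which make the walk
closed; then steps up and down -/
def st (h lam M : ℕ) (ξ : ℕ → ℕ) (i : ℕ) : ℤ :=
  if i < Q h * (lam + M) then
    if i % (lam + M) < lam then vv h (i / (lam + M) + 1) - vv h (i / (lam + M))
    else if i % (lam + M) - lam < ξ (i / (lam + M)) then 1 else -1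
  else if i < Q h * (lam + M) + Q h * M then
    if i - Q h * (lam + M) < ∑ j ∈ range (Q h), (M - ξ j) then 1 else -1
  else if (i - (Q h * (lam + M) + Q h * M)) % 2 = 0 then 1 else -1

/-- the walk -/
def W (h lam M : ℕ) (ξ : ℕ → ℕ) (x : ℕ) : ℤ := ∑ i ∈ range x, st h lam M ξ i

variable {h lam M : ℕ} {ξ : ℕ → ℕ}

theorem W_succ (x : ℕ) : W h lam M ξ (x + 1) = W h lam M ξ x + st h lam M ξ x := Finset.sum_range_succ _ _

theorem W_zero : W h lam M ξ 0 = 0 := rfl

theorem st_cases (hP : 0 < lam + M) (i : ℕ) : st h lam M ξ i = 1 ∨ st h lam M ξ i = -1 := by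
  unfold st
  split_ifs with h1 h2 h3 h4 h5 h6
  · have h7 : i / (lam + M) < Q h := (Nat.div_lt_iff_lt_mul hP).2 h1
    rcases vv_steps (h := h) h7 with h8 | h8
    · left; rw [h8]; ring
    · right; rw [h8]; ring
  all_goals first | exact Or.inl rfl | exact Or.inr rfl

theorem W_step (hP : 0 < lam + M) (p : ℕ) :
    W h lam M ξ (p + 1) = W h lam M ξ p + 1 ∨ W h lam M ξ (p + 1) = W h lam M ξ p - 1 := by
  rw [W_succ]
  rcases st_cases (h := h) (ξ := ξ) hP p with h1 | h1
  · left; rw [h1]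
  · right; rw [h1]; ring

theorem W_lip (hP : 0 < lam + M) (x k : ℕ) : |W h lam M ξ (x + k) - W h lam M ξ x| ≤ k := by
  induction k with
  | zero => simp
  | succ k ih =>
    rw [← add_assoc, W_succ]
    rw [abs_le] at ih ⊢
    rcases st_cases (h := h) (ξ := ξ) hP (x + k) with h1 | h1 <;> rw [h1] <;> push_cast <;> omega

/-- the sum of steps which are first positive and then negative -/
theorem sum_ud (x k : ℕ) : ∑ i ∈ range k, (if i < x then (1 : ℤ) else -1) = if k ≤ x then (k : ℤ) else 2 * x - k := by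
  induction k with
  | zero => simp
  | succ k ih =>
    rw [Finset.sum_range_succ, ih]
    split_ifs <;> push_cast <;> omega

theorem W_block (hP : 0 < lam + M) (hξ : ∀ j, ξ j ≤ M) {β : ℕ} (hβ : β < Q h) :
    W h lam M ξ ((β + 1) * (lam + M)) =
      W h lam M ξ (β * (lam + M)) + lam * (vv h (β + 1) - vv h β) + (2 * ξ β - M) := by
  have h1 : (β + 1) * (lam + M) = β * (lam + M) + (lam + M) := by ring
  have h2 : ∀ i < lam + M, st h lam M ξ (β * (lam + M) + i) =
      if i < lam then vv h (β + 1) - vv h β else if i - lam < ξ β then 1 else -1 := by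
    intro i hi
    have h3 : β * (lam + M) + i < Q h * (lam + M) := by
      calc β * (lam + M) + i < β * (lam + M) + (lam + M) := by omega
        _ = (β + 1) * (lam + M) := by ring
        _ ≤ Q h * (lam + M) := Nat.mul_le_mul_right _ hβ
    have h4 : (β * (lam + M) + i) / (lam + M) = β := by
      rw [mul_comm, Nat.mul_add_div hP, Nat.div_eq_of_lt hi, add_zero]
    have h5 : (β * (lam + M) + i) % (lam + M) = i := by
      rw [mul_comm, Nat.mul_add_mod, Nat.mod_eq_of_lt hi]
    unfold st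
    rw [if_pos h3, h4, h5]
  unfold W
  rw [h1, Finset.sum_range_add]
  rw [Finset.sum_congr rfl fun i hi => h2 i (Finset.mem_range.1 hi)]
  rw [Finset.sum_range_add]
  have h6 : ∑ i ∈ range lam, (if i < lam then vv h (β + 1) - vv h β else if i - lam < ξ β then (1 : ℤ) else -1) =
      lam * (vv h (β + 1) - vv h β) := by
    rw [Finset.sum_congr rfl fun i hi => if_pos (Finset.mem_range.1 hi)]
    rw [Finset.sum_const, Finset.card_range, nsmul_eq_mul]
  have h7 : ∑ i ∈ range M, (if lam + i < lam then vv h (β + 1) - vv h β else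
      if lam + i - lam < ξ β then (1 : ℤ) else -1) = 2 * ξ β - M := by
    have h8 : ∀ i ∈ range M, (if lam + i < lam then vv h (β + 1) - vv h β else
      if lam + i - lam < ξ β then (1 : ℤ) else -1) = if i < ξ β then 1 else -1 := by
      intro i _
      rw [if_neg (by omega), Nat.add_sub_cancel_left]
    rw [Finset.sum_congr rfl h8, sum_ud]
    have := hξ β
    split_ifs <;> omega
  rw [h6, h7]
  ring

theorem W_start (hP : 0 < lam + M) (hξ : ∀ j, ξ j ≤ M) : ∀ β ≤ Q h,
    W h lam M ξ (β * (lam + M)) = lam * vv h β + ∑ j ∈ range β, (2 * (ξ j : ℤ) - M) := by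
  intro β
  induction β with
  | zero =>
    intro _
    rw [zero_mul, W_zero, vv_left (Nat.zero_le _), J_zero]; simp
  | succ β ih =>
    intro hβ
    rw [W_block hP hξ hβ, ih (by omega), Finset.sum_range_succ]
    ring

theorem noise_le (hξ : ∀ j, ξ j ≤ M) (β : ℕ) : |∑ j ∈ range β, (2 * (ξ j : ℤ) - M)| ≤ β * M := by
  refine (Finset.abs_sum_le_sum_abs _ _).trans ?_
  have : ∀ j ∈ range β, |(2 * (ξ j : ℤ) - M)| ≤ M := by
    intro j _
    have := hξ j
    rw [abs_le]
    omega
  refine (Finset.sum_le_sum this).trans ?_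
  rw [Finset.sum_const, Finset.card_range, nsmul_eq_mul]

theorem noise_eq (hξ : ∀ j, ξ j ≤ M) (β : ℕ) :
    ∑ j ∈ range β, (2 * (ξ j : ℤ) - M) = β * M - 2 * (∑ j ∈ range β, (M - ξ j) : ℕ) := by
  induction β with
  | zero => simp
  | succ β ih =>
    rw [Finset.sum_range_succ, Finset.sum_range_succ, ih]
    have h1 := hξ β
    have h2 : ((M - ξ β : ℕ) : ℤ) = M - ξ β := by omega
    have h3 : ((∑ j ∈ range β, (M - ξ j) + (M - ξ β) : ℕ) : ℤ) =
        (∑ j ∈ range β, (M - ξ j) : ℕ) + (M - ξ β : ℤ) := by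
      rw [Nat.cast_add, h2]
    rw [h3]
    push_cast
    ring

theorem kappa_le (β : ℕ) : ∑ j ∈ range β, (M - ξ j) ≤ β * M := by
  calc ∑ j ∈ range β, (M - ξ j) ≤ ∑ j ∈ range β, M := Finset.sum_le_sum fun j _ => Nat.sub_le _ _
    _ = β * M := by rw [Finset.sum_const, Finset.card_range, smul_eq_mul]

theorem W_comp (hP : 0 < lam + M) (hξ : ∀ j, ξ j ≤ M) {k : ℕ} (hk : k ≤ Q h * M) :
    W h lam M ξ (Q h * (lam + M) + k) = Q h * M - 2 * (∑ j ∈ range (Q h), (M - ξ j) : ℕ) +
      (if k ≤ ∑ j ∈ range (Q h), (M - ξ j) then (k : ℤ) else 2 * (∑ j ∈ range (Q h), (M - ξ j) : ℕ) - k) := by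
  have h0 : W h lam M ξ (Q h * (lam + M)) = Q h * M - 2 * (∑ j ∈ range (Q h), (M - ξ j) : ℕ) := by
    rw [W_start hP hξ (Q h) (le_refl _), noise_eq hξ, vv_end (t := Q h) (le_refl _)]
    ring
  have h1 : W h lam M ξ (Q h * (lam + M) + k) = W h lam M ξ (Q h * (lam + M)) +
      ∑ i ∈ range k, st h lam M ξ (Q h * (lam + M) + i) := by
    unfold W; rw [Finset.sum_range_add]
  rw [h1, h0]
  congr 1
  rw [← sum_ud]
  refine Finset.sum_congr rfl fun i hi => ?_
  rw [Finset.mem_range] at hi
  unfold st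
  rw [if_neg (by omega), if_pos (by omega), Nat.add_sub_cancel_left]

theorem W_fill (hP : 0 < lam + M) (hξ : ∀ j, ξ j ≤ M) (k : ℕ) :
    W h lam M ξ (Q h * (lam + M) + Q h * M + k) = ((k % 2 : ℕ) : ℤ) := by
  induction k with
  | zero =>
    rw [add_zero, W_comp hP hξ (le_refl _)]
    have := kappa_le (M := M) (ξ := ξ) (Q h)
    split_ifs with h1
    · have h2 : ∑ j ∈ range (Q h), (M - ξ j) = Q h * M := le_antisymm this h1
      rw [h2]; push_cast; ring
    · push_cast; ring
  | succ k ih =>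
    rw [← add_assoc, W_succ, ih]
    unfold st
    rw [if_neg (by omega), if_neg (by omega), Nat.add_sub_cancel_left]
    split_ifs with h1
    · have : (k + 1) % 2 = 1 := by omega
      rw [h1, this]; simp
    · have h2 : k % 2 = 1 := by omega
      have : (k + 1) % 2 = 0 := by omega
      rw [h2, this]; simp

/-- the walk is close to the multiple of the deterministic walk -/
theorem W_near (hlam : 0 < lam) (hξ : ∀ j, ξ j ≤ M) (x : ℕ) :
    |W h lam M ξ x - lam * vv h (x / (lam + M))| ≤ lam + Q h * M := by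
  have hP : 0 < lam + M := by omega
  rcases Nat.lt_or_ge x (Q h * (lam + M)) with h1 | h1
  · have h2 : x / (lam + M) < Q h := (Nat.div_lt_iff_lt_mul hP).2 h1
    set β := x / (lam + M) with hβ
    have h3 : β * (lam + M) + x % (lam + M) = x := Nat.div_add_mod' x (lam + M)
    have h4 := W_lip (h := h) (ξ := ξ) hP (β * (lam + M)) (x % (lam + M))
    rw [h3] at h4
    have h5 : x % (lam + M) < lam + M := Nat.mod_lt _ hP
    have h6 := W_start hP hξ β h2.le
    have h7 := noise_le hξ β
    have h8 : (β : ℤ) * M + M ≤ Q h * M := by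
      have : (β + 1) * M ≤ Q h * M := Nat.mul_le_mul_right _ h2
      have h9 : ((β + 1 : ℕ) : ℤ) * M ≤ Q h * M := by exact_mod_cast this
      push_cast at h9
      linarith
    have h9 : ((x % (lam + M) : ℕ) : ℤ) ≤ lam + M := by exact_mod_cast h5.le
    rw [abs_le] at h4 h7 ⊢
    rw [h6] at h4
    constructor <;> linarith [h4.1, h4.2, h7.1, h7.2]
  · have h2 : Q h ≤ x / (lam + M) := (Nat.le_div_iff_mul_le hP).2 h1
    rw [vv_end h2, mul_zero, sub_zero]
    obtain ⟨k, rfl⟩ := Nat.exists_eq_add_of_le h1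
    have hκ := kappa_le (M := M) (ξ := ξ) (Q h)
    rcases Nat.lt_or_ge (Q h * M) k with h3 | h3
    · obtain ⟨k', rfl⟩ := Nat.exists_eq_add_of_le h3.le
      rw [← add_assoc, W_fill hP hξ, abs_le]
      have h4 : k' % 2 < 2 := Nat.mod_lt _ (by norm_num)
      have h5 : (0 : ℤ) ≤ Q h * M := by positivity
      constructor <;> omega
    · rw [W_comp hP hξ h3, abs_le]
      have h4 : ((∑ j ∈ range (Q h), (M - ξ j) : ℕ) : ℤ) ≤ Q h * M := by exact_mod_cast hκ
      have h5 : (k : ℤ) ≤ Q h * M := by exact_mod_cast h3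
      split_ifs with h6
      · have h7 : (k : ℤ) ≤ (∑ j ∈ range (Q h), (M - ξ j) : ℕ) := by exact_mod_cast h6
        constructor <;> linarith
      · constructor <;> linarith [Int.natCast_nonneg k]

theorem unit_bal {Kb : ℕ} (hlam : 2 * (Q h * M) + Kb + 1 ≤ lam) (hξ : ∀ j, ξ j ≤ M) {a b : ℕ}
    (hb : |W h lam M ξ b - W h lam M ξ a| ≤ Kb) : |vv h (a / (lam + M)) - vv h (b / (lam + M))| ≤ 2 := by
  have hl : 0 < lam := by omega
  have h1 := W_near (h := h) hl hξ a
  have h2 := W_near (h := h) hl hξ b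
  have h3 : (2 * (Q h * M) + Kb + 1 : ℤ) ≤ lam := by exact_mod_cast hlam
  rw [abs_le] at h1 h2 hb
  set u := vv h (a / (lam + M))
  set v := vv h (b / (lam + M))
  have h4 : (lam : ℤ) * (u - v) < 3 * lam := by rw [mul_sub]; linarith [h1.1, h1.2, h2.1, h2.2, hb.1, hb.2]
  have h5 : (lam : ℤ) * (v - u) < 3 * lam := by rw [mul_sub]; linarith [h1.1, h1.2, h2.1, h2.2, hb.1, hb.2]
  have hl' : (0 : ℤ) < lam := by exact_mod_cast hl
  have h6 : u - v < 3 := by
    by_contra h; push Not at h; nlinarith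
  have h7 : v - u < 3 := by
    by_contra h; push Not at h; nlinarith
  rw [abs_le]; omega

/-- the dependence on one random number -/
theorem W_diff (hP : 0 < lam + M) {ξ' : ℕ → ℕ} (hξ : ∀ j, ξ j ≤ M) (hξ' : ∀ j, ξ' j ≤ M) {a b β : ℕ}
    (h1 : a ≤ β * (lam + M)) (h2 : (β + 1) * (lam + M) ≤ b) (hb : b ≤ Q h * (lam + M))
    (heq : ∀ j, j ≠ β → a < (j + 1) * (lam + M) → j * (lam + M) < b → ξ j = ξ' j) :
    (W h lam M ξ b - W h lam M ξ a) - (W h lam M ξ' b - W h lam M ξ' a) = 2 * ((ξ β : ℤ) - ξ' β) := by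
  have hβ : β < Q h := by
    have h3 : (β + 1) * (lam + M) ≤ Q h * (lam + M) := h2.trans hb
    have := Nat.le_of_mul_le_mul_right h3 hP
    omega
  have key : ∀ x y, a ≤ x → x ≤ y → y ≤ b → (∀ i, x ≤ i → i < y → i / (lam + M) ≠ β) →
      W h lam M ξ y - W h lam M ξ x = W h lam M ξ' y - W h lam M ξ' x := by
    intro x y hx hxy hy hne
    obtain ⟨k, rfl⟩ := Nat.exists_eq_add_of_le hxy
    unfold W
    rw [Finset.sum_range_add, Finset.sum_range_add]
    have h3 : ∑ i ∈ range k, st h lam M ξ (x + i) = ∑ i ∈ range k, st h lam M ξ' (x + i) := by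
      refine Finset.sum_congr rfl fun i hi => ?_
      rw [Finset.mem_range] at hi
      have h4 : x + i < Q h * (lam + M) := by omega
      unfold st
      rw [if_pos h4, if_pos h4]
      have h5 := Nat.div_add_mod' (x + i) (lam + M)
      have h6 := Nat.mod_lt (x + i) hP
      have h7 := heq ((x + i) / (lam + M)) (hne (x + i) (by omega) (by omega)) (by
        rw [add_mul, one_mul]; omega) (by omega)
      rw [h7]
    rw [h3]; ring
  have hmid : β * (lam + M) ≤ (β + 1) * (lam + M) := Nat.mul_le_mul_right _ (by omega)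
  have k1 := key a (β * (lam + M)) (le_refl _) h1 (hmid.trans h2) (fun i _ hi h3 => by
    have := (Nat.div_lt_iff_lt_mul hP).2 hi
    omega)
  have k2 := key ((β + 1) * (lam + M)) b (h1.trans hmid) h2 (le_refl _) (fun i hi _ h3 => by
    have := (Nat.le_div_iff_mul_le hP).2 hi
    omega)
  have k3 := W_block hP hξ hβ
  have k4 := W_block hP hξ' hβ
  linarith

end Pool.Agent.H5DY
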